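import Pool.Agent.H67.Q.Fam
import Pool.Agent.H62.Ind.P3
import Pool.Agent.H81.P4.Main

set_option autoImplicit false
set_option linter.unusedSectionVars false

/-!
Rooted codes with sides (MP_a46c6f_co): midpoints and bad points.
-/

namespace Pool.Agent.H67.Q

open Pool.Agent.H98.Code Pool.Agent.H17.TR Pool.Agent.H6.P4 Pool.Agent.H77.Q
open Pool.Agent.H17.P3 (Pairs IsP4 Bad P4Split)

section
variable {X : Type} [Fintype X] [DecidableEq X]
variable {B : Submodule (ZMod 2) (X → K)} {H : X → X → ZMod 2} {e : X} {M : X → X → ZMod 2}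
  {S : (X → K) → Finset X → Prop}

theorem z_of_lap {f : X → ZMod 2} {v : X} (h : f v = 0) (h' : Lap H f v = 1) : wd H f v = z := by
  rw [lap_eq, h, mul_zero, zero_add] at h'
  exact Prod.ext h h'

theorem fam_pair (hI : Inv H e M) (sym : ∀ x y, M x y = M y x) {a b : X} (h1 : M a a = M b b)
    (h2 : M a b ≠ M a a) : Fam M e ![a, b] := by
  have he : ∀ x, M e x = 0 := fun x => by rw [sym, hI.h0]
  have hmuv : M a b = M a a + 1 := by
    revert h2
    generalize M a b = A
    generalize M a a = C
    revert A C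
    decide
  have nab : a ≠ b := by
    rintro rfl
    exact h2 rfl
  refine ⟨by decide, by norm_num, ?_, ?_, ?_⟩
  · intro i j hij
    fin_cases i <;> fin_cases j
    · rfl
    · exact absurd hij nab
    · exact absurd hij.symm nab
    · rfl
  · intro i
    fin_cases i
    · change a ≠ e
      rintro rfl
      exact h2 (by rw [he, he])
    · change b ≠ e
      rintro rfl
      exact h2 (by rw [hI.h0, h1, hI.h0])
  · intro j
    rw [Fin.sum_univ_two]
    fin_cases j
    · change M a a + M b a = 1
      rw [sym b a, hmuv]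
      generalize M a a = C
      revert C
      decide
    · change M a b + M b b = 1
      rw [← h1, hmuv]
      generalize M a a = C
      revert C
      decide

theorem fam_p4 (hI : Inv H e M) (sym : ∀ x y, M x y = M y x) {a b c d : X} (hP : IsP4 M a b c d)
    (ha : M a a = 0) (hb : M b b = 1) (hcc : M c c = 1) (hd : M d d = 0) :
    Fam M e ![a, b, c, d] := by
  have he : ∀ x, M e x = 0 := fun x => by rw [sym, hI.h0]
  obtain ⟨hab, hbc, hcd, hac, had, hbd⟩ := hP
  have hba : M b a = 1 := by rw [sym, hab]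
  have hcb : M c b = 1 := by rw [sym, hbc]
  have hdc : M d c = 1 := by rw [sym, hcd]
  have hca : M c a = 0 := by rw [sym, hac]
  have hda : M d a = 0 := by rw [sym, had]
  have hdb : M d b = 0 := by rw [sym, hbd]
  have h01 : (0 : ZMod 2) ≠ 1 := by decide
  have nab : a ≠ b := by rintro rfl; exact h01 (ha.symm.trans hb)
  have nac : a ≠ c := by rintro rfl; exact h01 (ha.symm.trans hcc)
  have nad : a ≠ d := by rintro rfl; exact h01 (hdb.symm.trans hab)
  have nbc : b ≠ c := by rintro rfl; exact h01 (hbd.symm.trans hcd)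
  have nbd : b ≠ d := by rintro rfl; exact h01 (hd.symm.trans hb)
  have ncd : c ≠ d := by rintro rfl; exact h01 (hd.symm.trans hcc)
  refine ⟨by decide, by norm_num, ?_, ?_, ?_⟩
  · intro i j hij
    fin_cases i <;> fin_cases j <;> first
      | rfl
      | exact absurd hij nab
      | exact absurd hij nac
      | exact absurd hij nad
      | exact absurd hij nbc
      | exact absurd hij nbd
      | exact absurd hij ncd
      | exact absurd hij.symm nab
      | exact absurd hij.symm nac
      | exact absurd hij.symm nad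
      | exact absurd hij.symm nbc
      | exact absurd hij.symm nbd
      | exact absurd hij.symm ncd
  · intro i
    fin_cases i
    · change a ≠ e
      rintro rfl
      exact h01 ((he b).symm.trans hab)
    · change b ≠ e
      rintro rfl
      exact h01 ((he c).symm.trans hbc)
    · change c ≠ e
      rintro rfl
      exact h01 ((he d).symm.trans hcd)
    · change d ≠ e
      rintro rfl
      exact h01 ((he c).symm.trans hdc)
  · intro j
    rw [Fin.sum_univ_four]
    fin_cases j
    · change M a a + M b a + M c a + M d a = 1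
      rw [ha, hba, hca, hda]
      decide
    · change M a b + M b b + M c b + M d b = 1
      rw [hab, hb, hcb, hdb]
      decide
    · change M a c + M b c + M c c + M d c = 1
      rw [hac, hbc, hcc, hdc]
      decide
    · change M a d + M b d + M c d + M d d = 1
      rw [had, hbd, hcd, hd]
      decide

theorem d_of_fst (hH : IsMat B H) {d : X → K} (hd : d ∈ B) {f : X → ZMod 2}
    (h : ∀ y, (d y).1 = f y) : d = wd H f := by
  have h1 := eq_wd hH hd
  rw [h1]
  congr 1
  funext v
  exact h v

theorem wd_zero : wd H (fun _ => (0 : ZMod 2)) = 0 := by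
  funext v
  unfold wd
  simp

theorem irr_pair (hH : IsMat B H) (hI : Inv H e M) (sym : ∀ x y, M x y = M y x) {a b : X}
    (h1 : M a a = M b b) (h2 : M a b ≠ M a a) : Irr B (wd H (sm M ![a, b])) := by
  have hF := fam_pair hI sym h1 h2
  intro d hd hle
  obtain ⟨α, hs, hc, hf⟩ := sub_fam hH hI hF hd hle
  rw [Fin.sum_univ_two] at hs
  have hf' : ∀ y, (d y).1 = α 0 * M a y + α 1 * M b y := by
    intro y
    rw [hf y, Fin.sum_univ_two]
    rfl
  by_cases h0 : α 0 = 0
  · left
    rw [h0, zero_add] at hs
    rw [d_of_fst hH hd (f := fun _ => 0) (fun y => by rw [hf' y, h0, hs]; simp), wd_zero]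
  · right
    have h0' := ne_one _ h0
    rw [h0'] at hs
    have h1' : α 1 = 1 := by
      revert hs
      generalize α 1 = A
      revert A
      decide
    refine d_of_fst hH hd fun y => ?_
    rw [hf' y, h0', h1', one_mul, one_mul]
    unfold sm
    rw [Fin.sum_univ_two]
    rfl

theorem irr_p4 (hH : IsMat B H) (hI : Inv H e M) (sym : ∀ x y, M x y = M y x) {a b c d : X}
    (hP : IsP4 M a b c d) (ha : M a a = 0) (hb : M b b = 1) (hcc : M c c = 1) (hdd : M d d = 0) :
    Irr B (wd H (sm M ![a, b, c, d])) := by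
  have hF := fam_p4 hI sym hP ha hb hcc hdd
  obtain ⟨hab, hbc, hcd, hac, had, hbd⟩ := hP
  have hba : M b a = 1 := by rw [sym, hab]
  have hcb : M c b = 1 := by rw [sym, hbc]
  have hdc : M d c = 1 := by rw [sym, hcd]
  have hca : M c a = 0 := by rw [sym, hac]
  have hda : M d a = 0 := by rw [sym, had]
  have hdb : M d b = 0 := by rw [sym, hbd]
  intro k hk hle
  obtain ⟨α, hs, hc, hf⟩ := sub_fam hH hI hF hk hle
  rw [Fin.sum_univ_four] at hs
  have hf' : ∀ y, (k y).1 = α 0 * M a y + α 1 * M b y + α 2 * M c y + α 3 * M d y := by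
    intro y
    rw [hf y, Fin.sum_univ_four]
    rfl
  have c0 : α 0 * M a a + α 1 * M b a + α 2 * M c a + α 3 * M d a = α 0 := by
    have := hc 0
    rw [Fin.sum_univ_four] at this
    exact this
  have c1 : α 0 * M a b + α 1 * M b b + α 2 * M c b + α 3 * M d b = α 1 := by
    have := hc 1
    rw [Fin.sum_univ_four] at this
    exact this
  have c2 : α 0 * M a c + α 1 * M b c + α 2 * M c c + α 3 * M d c = α 2 := by
    have := hc 2
    rw [Fin.sum_univ_four] at this
    exact this
  have c3 : α 0 * M a d + α 1 * M b d + α 2 * M c d + α 3 * M d d = α 3 := by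
    have := hc 3
    rw [Fin.sum_univ_four] at this
    exact this
  rw [ha, hba, hca, hda] at c0
  rw [hab, hb, hcb, hdb] at c1
  rw [hac, hbc, hcc, hdc] at c2
  rw [had, hbd, hcd, hdd] at c3
  have hall : (α 0 = 0 ∧ α 1 = 0 ∧ α 2 = 0 ∧ α 3 = 0) ∨ (α 0 = 1 ∧ α 1 = 1 ∧ α 2 = 1 ∧ α 3 = 1) := by
    revert c0 c1 c2 c3
    generalize α 0 = A
    generalize α 1 = A'
    generalize α 2 = C
    generalize α 3 = D
    revert A A' C D
    decide
  rcases hall with ⟨e0, e1, e2, e3⟩ | ⟨e0, e1, e2, e3⟩
  · left
    rw [d_of_fst hH hk (f := fun _ => 0) (fun y => by rw [hf' y, e0, e1, e2, e3]; simp), wd_zero]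
  · right
    refine d_of_fst hH hk fun y => ?_
    rw [hf' y, e0, e1, e2, e3, one_mul, one_mul, one_mul, one_mul]
    unfold sm
    rw [Fin.sum_univ_four]
    rfl

theorem al_pair (sym : ∀ x y, M x y = M y x) {a b g : X} (h1 : M a a = M b b) (h2 : M a b ≠ M a a)
    {α : Fin 2 → ZMod 2} (hA : Al M ![a, b] g α) : M g a = M a a + 1 ∧ M g b = M a a + 1 := by
  have hmuv : M a b = M a a + 1 := by
    revert h2
    generalize M a b = A
    generalize M a a = C
    revert A C
    decide
  have h3 := hA.sum
  rw [Fin.sum_univ_two] at h3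
  have h4 : M g a = α 0 + (α 0 * M a a + α 1 * M b a) := by
    have := hA.at' 0
    rw [Fin.sum_univ_two] at this
    exact this
  have h5 : M g b = α 1 + (α 0 * M a b + α 1 * M b b) := by
    have := hA.at' 1
    rw [Fin.sum_univ_two] at this
    exact this
  rw [sym b a, hmuv] at h4
  rw [← h1, hmuv] at h5
  rw [h4, h5]
  revert h3
  generalize α 0 = A
  generalize α 1 = A'
  generalize M a a = C
  revert A A' C
  decide

theorem al_p4 (sym : ∀ x y, M x y = M y x) {a b c d g : X}
    (hP : IsP4 M a b c d) (ha : M a a = 0) (hb : M b b = 1) (hcc : M c c = 1) (hdd : M d d = 0)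
    {α : Fin 4 → ZMod 2} (hA : Al M ![a, b, c, d] g α) : Bad M a b c d g := by
  obtain ⟨hab, hbc, hcd, hac, had, hbd⟩ := hP
  have hba : M b a = 1 := by rw [sym, hab]
  have hcb : M c b = 1 := by rw [sym, hbc]
  have hdc : M d c = 1 := by rw [sym, hcd]
  have hca : M c a = 0 := by rw [sym, hac]
  have hda : M d a = 0 := by rw [sym, had]
  have hdb : M d b = 0 := by rw [sym, hbd]
  have h1 := hA.sum
  rw [Fin.sum_univ_four] at h1
  have h2a : M g a = α 0 + (α 0 * M a a + α 1 * M b a + α 2 * M c a + α 3 * M d a) := by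
    have := hA.at' 0
    rw [Fin.sum_univ_four] at this
    exact this
  have h2b : M g b = α 1 + (α 0 * M a b + α 1 * M b b + α 2 * M c b + α 3 * M d b) := by
    have := hA.at' 1
    rw [Fin.sum_univ_four] at this
    exact this
  have h2c : M g c = α 2 + (α 0 * M a c + α 1 * M b c + α 2 * M c c + α 3 * M d c) := by
    have := hA.at' 2
    rw [Fin.sum_univ_four] at this
    exact this
  have h2d : M g d = α 3 + (α 0 * M a d + α 1 * M b d + α 2 * M c d + α 3 * M d d) := by
    have := hA.at' 3
    rw [Fin.sum_univ_four] at this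
    exact this
  rw [ha, hba, hca, hda] at h2a
  rw [hab, hb, hcb, hdb] at h2b
  rw [hac, hbc, hcc, hdc] at h2c
  rw [had, hbd, hcd, hdd] at h2d
  refine ⟨?_, ?_⟩
  · rw [h2a, h2d]
    revert h1
    generalize α 0 = A
    generalize α 1 = A'
    generalize α 2 = C
    generalize α 3 = D
    revert A A' C D
    decide
  · rw [h2b, h2c]
    revert h1
    generalize α 0 = A
    generalize α 1 = A'
    generalize α 2 = C
    generalize α 3 = D
    revert A A' C D
    decide

/-- the midpoint of a split closed pair -/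
theorem mid_pair (hH : IsMat B H) (hI : Inv H e M) (sym : ∀ x y, M x y = M y x) {a b g : X}
    (h1 : M a a = M b b) (h2 : M a b ≠ M a a) (hsp : Splits B (wd H (sm M ![a, b])) g) :
    M g g ≠ M a a ∧ M g a = M g g ∧ M g b = M g g ∧ ∀ x, M a x = M b x → M g x = M a x := by
  obtain ⟨α, hA, hgg, hx⟩ := core' hH hI (fam_pair hI sym h1 h2) hsp
  obtain ⟨h3, h4⟩ := al_pair sym h1 h2 hA
  have hs := hA.sum
  rw [Fin.sum_univ_two] at hs
  have h5 : M g g = α 0 * M a g + α 1 * M b g := by
    rw [hgg, Fin.sum_univ_two]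
    rfl
  have h6 : M g g = M a a + 1 := by
    rw [h5, sym a g, sym b g, h3, h4, ← add_mul, hs, one_mul]
  refine ⟨?_, by rw [h3, h6], by rw [h4, h6], ?_⟩
  · rw [h6]
    generalize M a a = C
    revert C
    decide
  · intro x hx'
    have h7 := hx x (by rw [Fin.sum_univ_two]; change M a x + M b x = 0; rw [hx'];
                        exact CharTwo.add_self_eq_zero _)
    rw [h7, Fin.sum_univ_two]
    change α 0 * M a x + α 1 * M b x = M a x
    rw [← hx', ← add_mul, hs, one_mul]

/-- the bad point of a split path -/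
theorem bad_p4 (hH : IsMat B H) (hI : Inv H e M) (sym : ∀ x y, M x y = M y x) {a b c d g : X}
    (hP : IsP4 M a b c d) (ha : M a a = 0) (hb : M b b = 1) (hcc : M c c = 1) (hdd : M d d = 0)
    (hsp : Splits B (wd H (sm M ![a, b, c, d])) g) : Bad M a b c d g ∧
      ∀ y, M a y = M b y → M a y = M c y → M a y = M d y → M g y = M a y := by
  obtain ⟨α, hA, -, hx⟩ := core' hH hI (fam_p4 hI sym hP ha hb hcc hdd) hsp
  refine ⟨al_p4 sym hP ha hb hcc hdd hA, ?_⟩
  have h1 := hA.sum
  rw [Fin.sum_univ_four] at h1
  intro y hy1 hy2 hy3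
  have h5 := hx y
  rw [Fin.sum_univ_four, Fin.sum_univ_four] at h5
  change M a y + M b y + M c y + M d y = 0 →
    M g y = α 0 * M a y + α 1 * M b y + α 2 * M c y + α 3 * M d y at h5
  rw [← hy1, ← hy2, ← hy3] at h5
  rw [h5 (by
    generalize M a y = A
    revert A
    decide), ← add_mul, ← add_mul, ← add_mul, h1, one_mul]

/-- an own place of the side of a closed pair -/
theorem pair_side (hH : IsMat B H) (hI : Inv H e M) (sym : ∀ x y, M x y = M y x)
    (hS : RSides B e S) {a b : X} (h1 : M a a = M b b) (h2 : M a b ≠ M a a) {Y : Finset X}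
    (hY : S (wd H (sm M ![a, b])) Y) {y : X} (hy : y ∈ Y) :
    (M y a = M a a + 1 ∧ M y b = M a a + 1) ∧
      ∀ v, wd H (sm M ![a, b]) v = 0 → v ∉ Y → M y v = M a v := by
  have hF := fam_pair hI sym h1 h2
  have hz : ∀ v, wd H (sm M ![a, b]) v = 0 → M a v = M b v := by
    intro v hv
    have h3 : sm M ![a, b] v = 0 := (lap_of_zero hv).1
    unfold sm at h3
    rw [Fin.sum_univ_two] at h3
    exact CharTwo.add_eq_zero.1 h3
  have h3 := hz y (hS.zero _ Y hY y hy)
  obtain ⟨α, hA, hx⟩ := side_al hH hI hS hF hY hy (fun _ => 0) (M y a) (by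
    intro j
    simp only [zero_mul, Finset.sum_const_zero, add_zero]
    fin_cases j
    · exact CharTwo.add_self_eq_zero _
    · change M y b + M y a = 0
      rw [sym y b, sym y a, h3]
      exact CharTwo.add_self_eq_zero _)
  refine ⟨al_pair sym h1 h2 hA, ?_⟩
  have hs := hA.sum
  rw [Fin.sum_univ_two] at hs
  intro v hv hvY
  rw [hx v hv hvY, Fin.sum_univ_two]
  change α 0 * M a v + α 1 * M b v = M a v
  rw [← hz v hv, ← add_mul, hs, one_mul]

/-- an own place of the side of a path is a bad point -/
theorem p4_side (hH : IsMat B H) (hI : Inv H e M) (sym : ∀ x y, M x y = M y x)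
    (hS : RSides B e S) {a b c d : X} (hP : IsP4 M a b c d) (ha : M a a = 0) (hb : M b b = 1)
    (hcc : M c c = 1) (hdd : M d d = 0) {Y : Finset X} (hY : S (wd H (sm M ![a, b, c, d])) Y)
    {y : X} (hy : y ∈ Y) : Bad M a b c d y ∧
      ∀ v, M a v = M b v → M a v = M c v → M a v = M d v → M y v = M a v := by
  have hF := fam_p4 hI sym hP ha hb hcc hdd
  have key : ∀ y ∈ Y, ∃ α : Fin 4 → ZMod 2, Al M ![a, b, c, d] y α ∧
      ∀ v, wd H (sm M ![a, b, c, d]) v = 0 → v ∉ Y → M y v = ∑ i, α i * M (![a, b, c, d] i) v := by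
    intro y hy
    have h3 : M y a + M y b + M y c + M y d = 0 := by
      have h4 : sm M ![a, b, c, d] y = 0 := (lap_of_zero (hS.zero _ Y hY y hy)).1
      unfold sm at h4
      rw [Fin.sum_univ_four] at h4
      rw [sym y a, sym y b, sym y c, sym y d]
      exact h4
    obtain ⟨hab, hbc, hcd, hac, had, hbd⟩ := hP
    have hba : M b a = 1 := by rw [sym, hab]
    have hcb : M c b = 1 := by rw [sym, hbc]
    have hdc : M d c = 1 := by rw [sym, hcd]
    have hca : M c a = 0 := by rw [sym, hac]
    have hda : M d a = 0 := by rw [sym, had]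
    have hdb : M d b = 0 := by rw [sym, hbd]
    refine side_al hH hI hS hF hY hy ![0, M y a, M y b, M y a + M y c] 0 ?_
    intro j
    rw [Fin.sum_univ_four, add_zero]
    fin_cases j
    · change M y a + (0 * M a a + M y a * M b a + M y b * M c a + (M y a + M y c) * M d a) = 0
      rw [ha, hba, hca, hda]
      generalize M y a = A
      generalize M y b = A'
      generalize M y c = C
      revert A A' C
      decide
    · change M y b + (0 * M a b + M y a * M b b + M y b * M c b + (M y a + M y c) * M d b) = M y a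
      rw [hab, hb, hcb, hdb]
      generalize M y a = A
      generalize M y b = A'
      generalize M y c = C
      revert A A' C
      decide
    · change M y c + (0 * M a c + M y a * M b c + M y b * M c c + (M y a + M y c) * M d c) = M y b
      rw [hac, hbc, hcc, hdc]
      generalize M y a = A
      generalize M y b = A'
      generalize M y c = C
      revert A A' C
      decide
    · change M y d + (0 * M a d + M y a * M b d + M y b * M c d + (M y a + M y c) * M d d) =
        M y a + M y c
      rw [had, hbd, hcd, hdd]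
      revert h3
      generalize M y a = A
      generalize M y b = A'
      generalize M y c = C
      generalize M y d = D
      revert A A' C D
      decide
  obtain ⟨α, hA, hx⟩ := key y hy
  refine ⟨al_p4 sym hP ha hb hcc hdd hA, ?_⟩
  have h1 := hA.sum
  rw [Fin.sum_univ_four] at h1
  intro v hv1 hv2 hv3
  have hvY : v ∉ Y := by
    intro hvY
    obtain ⟨β, hB', -⟩ := key v hvY
    have h4 := (al_p4 sym hP ha hb hcc hdd hB').1
    exact h4 (by rw [sym v a, sym v d, hv3])
  have hvp : ∀ j, v ≠ ![a, b, c, d] j := by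
    have h01 : (0 : ZMod 2) ≠ 1 := by decide
    intro j
    fin_cases j
    · change v ≠ a
      rintro rfl
      rw [ha] at hv1
      exact h01 (hv1.trans ((sym b v).trans hP.ab))
    · change v ≠ b
      rintro rfl
      rw [hP.ab, sym d v, hP.bd] at hv3
      exact h01 hv3.symm
    · change v ≠ c
      rintro rfl
      rw [hP.ac, hP.bc] at hv1
      exact h01 hv1
    · change v ≠ d
      rintro rfl
      rw [hP.ad, hP.cd] at hv2
      exact h01 hv2
  have hv0 : wd H (sm M ![a, b, c, d]) v = 0 := by
    refine zero_of_lap ?_ (lap_sm_off hI hF hvp)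
    unfold sm
    rw [Fin.sum_univ_four]
    change M a v + M b v + M c v + M d v = 0
    rw [← hv1, ← hv2, ← hv3]
    generalize M a v = A
    revert A
    decide
  rw [hx v hv0 hvY, Fin.sum_univ_four]
  change α 0 * M a v + α 1 * M b v + α 2 * M c v + α 3 * M d v = M a v
  rw [← hv1, ← hv2, ← hv3, ← add_mul, ← add_mul, ← add_mul, h1, one_mul]

/-- closed pairs split -/
theorem pair_splits (hB : IsCode B) (hH : IsMat B H) (hI : Inv H e M)
    (sym : ∀ x y, M x y = M y x) (hS : RSides B e S) : ∀ (n : ℕ) (a b : X), M a a = M b b →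
    M a b ≠ M a a → ∀ Y, S (wd H (sm M ![a, b])) Y → Y.Nonempty → Y.card ≤ n →
    ∃ g, Splits B (wd H (sm M ![a, b])) g := by
  intro n
  induction n with
  | zero =>
    intro a b _ _ Y _ hY hc
    have := Finset.card_pos.2 hY
    omega
  | succ n ih =>
    intro a b h1 h2 Y hSY hYn hc
    by_contra hns
    push Not at hns
    have hF := fam_pair hI sym h1 h2
    have hirr := irr_pair hH hI sym h1 h2
    have hmab : M a b = M a a + 1 := by
      revert h2
      generalize M a b = A
      generalize M a a = C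
      revert A C
      decide
    set u := wd H (sm M ![a, b]) with hu
    have huB : u ∈ B := wd_mem hH _
    have hua : u a ≠ 0 := w_at hI hF 0
    have hub : u b ≠ 0 := w_at hI hF 1
    have hside : ∀ y ∈ Y, (M y a = M a a + 1 ∧ M y b = M a a + 1) ∧
        ∀ v, u v = 0 → v ∉ Y → M y v = M a v := fun y hy => pair_side hH hI sym hS h1 h2 hSY hy
    have hYz : ∀ y ∈ Y, u y = 0 := hS.zero u Y hSY
    have uoff : ∀ v, v ≠ a → v ≠ b → u v ≠ 0 → u v = om H v := by
      intro v hva hvb hv
      refine w_off hI hF ?_ hv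
      intro j
      fin_cases j
      · exact hva
      · exact hvb
    -- words of families inside `Y`
    have cov : ∀ {m : ℕ} {p : Fin m → X}, Fam M e p → (∀ i, p i ∈ Y) →
        (∀ v, u v ≠ 0 → wd H (sm M p) v = 0 ∨ wd H (sm M p) v = u v) ∧
          (∀ v, u v = 0 → v ∉ Y → wd H (sm M p) v = 0) := by
      intro m p hFp hpY
      have hne : ∀ v, u v ≠ 0 → ∀ j, v ≠ p j := by
        intro v hv j hj
        exact hv (by rw [hj]; exact hYz _ (hpY j))
      have hconst : ∀ v (x : ZMod 2), (∀ i, M (p i) v = x) → sm M p v = 0 := by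
        intro v x hx
        unfold sm
        rw [Finset.sum_congr rfl fun i _ => hx i, Finset.sum_const, Finset.card_univ,
          Fintype.card_fin, nsmul_eq_mul, hFp.even, zero_mul]
      constructor
      · intro v hv
        have hl := lap_sm_off hI hFp (hne v hv)
        by_cases hva : v = a
        · left
          exact zero_of_lap (hconst v (M a a + 1) fun i => by
            rw [hva]; exact (hside _ (hpY i)).1.1) hl
        · by_cases hvb : v = b
          · left
            exact zero_of_lap (hconst v (M a a + 1) fun i => by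
              rw [hvb]; exact (hside _ (hpY i)).1.2) hl
          · rw [uoff v hva hvb hv]
            exact wd_zero_or_om hl
      · intro v hv hvY
        refine zero_of_lap (hconst v (M a v) fun i => (hside _ (hpY i)).2 v hv hvY) ?_
        exact lap_sm_off hI hFp fun j hj => hvY (by rw [hj]; exact hpY j)
    have hloc : ∀ {m : ℕ} {p : Fin m → X}, Fam M e p → (∀ i, p i ∈ Y) → ∀ g,
        Splits B (wd H (sm M p)) g → g ∈ Y := by
      intro m p hFp hpY g hg
      obtain ⟨c1, c2⟩ := cov hFp hpY
      rcases loc hB hS huB (w_zfree hI hF) hSY c1 c2 hg with h3 | h3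
      · exact h3
      · exact absurd h3 (hns g)
    -- the matrix on `Y`
    have hPairs : Pairs (fun x y : {x // x ∈ Y} => M x.1 y.1) := by
      intro x y g1 g2
      have hFp := fam_pair hI sym (a := x.1) (b := y.1) g1 g2
      have hpY : ∀ i, (![x.1, y.1] : Fin 2 → X) i ∈ Y := by
        intro i
        fin_cases i
        · exact x.2
        · exact y.2
      obtain ⟨c1, c2⟩ := cov hFp hpY
      have hsp : ∃ g, Splits B (wd H (sm M ![x.1, y.1])) g := by
        rcases hS.mono u Y hSY hirr _ (wd_mem hH _) (w_zfree hI hFp) (w_ne hI hFp)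
          (irr_pair hH hI sym g1 g2) c1 c2 with h3 | ⟨Y', hY', hYn', hSY'⟩
        · exact h3
        · refine ih x.1 y.1 g1 g2 Y' hSY' hYn' ?_
          have hx : x.1 ∉ Y' := fun h => (w_at hI hFp 0) (hS.zero _ Y' hSY' x.1 h)
          have : Y'.card < Y.card := Finset.card_lt_card ⟨hY', fun h => hx (h x.2)⟩
          omega
      obtain ⟨g, hg⟩ := hsp
      obtain ⟨m1, m2, m3, m4⟩ := mid_pair hH hI sym g1 g2 hg
      exact ⟨⟨g, hloc hFp hpY g hg⟩, m1, m2, m3, fun w hw => m4 w.1 hw⟩
    have hP4 : P4Split (fun x y : {x // x ∈ Y} => M x.1 y.1) := by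
      intro x y v w hP q1 q2 q3 q4
      have hP' : IsP4 M x.1 y.1 v.1 w.1 := ⟨hP.ab, hP.bc, hP.cd, hP.ac, hP.ad, hP.bd⟩
      have hFp := fam_p4 hI sym hP' q1 q2 q3 q4
      have hpY : ∀ i, (![x.1, y.1, v.1, w.1] : Fin 4 → X) i ∈ Y := by
        intro i
        fin_cases i
        · exact x.2
        · exact y.2
        · exact v.2
        · exact w.2
      obtain ⟨c1, c2⟩ := cov hFp hpY
      rcases hS.mono u Y hSY hirr _ (wd_mem hH _) (w_zfree hI hFp) (w_ne hI hFp)
        (irr_p4 hH hI sym hP' q1 q2 q3 q4) c1 c2 with ⟨g, hg⟩ | ⟨Y', hY', ⟨y', hy'⟩, hSY'⟩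
      · obtain ⟨b1, b2⟩ := bad_p4 hH hI sym hP' q1 q2 q3 q4 hg
        exact ⟨⟨g, hloc hFp hpY g hg⟩, b1, fun t t1 t2 t3 => b2 t.1 t1 t2 t3⟩
      · obtain ⟨b1, b2⟩ := p4_side hH hI sym hS hP' q1 q2 q3 q4 hSY' hy'
        exact ⟨⟨y', hY' hy'⟩, b1, fun t t1 t2 t3 => b2 t.1 t1 t2 t3⟩
    have hsym' : ∀ x y : {x // x ∈ Y}, M x.1 y.1 = M y.1 x.1 := fun x y => sym _ _
    have hno := Pool.Agent.H62.Ind.p3 {x // x ∈ Y} (fun x y => M x.1 y.1) hsym' hPairs hP4
    haveI : Nonempty {x // x ∈ Y} := by
      obtain ⟨y, hy⟩ := hYn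
      exact ⟨⟨y, hy⟩⟩
    obtain ⟨r, l, hr⟩ : ∃ r : {x // x ∈ Y}, ∃ l : ZMod 2, ∀ y : {x // x ∈ Y}, M r.1 y.1 = l := by
      rcases Pool.Agent.H81.P4.iso_or_full (M := fun x y : {x // x ∈ Y} => M x.1 y.1) hsym'
        hPairs hno with ⟨r, hr⟩ | ⟨r, hr⟩
      · exact ⟨r, 0, hr⟩
      · exact ⟨r, 1, hr⟩
    have hrr : M r.1 r.1 = l := hr r
    have hra : M r.1 a = M a a + 1 := (hside r.1 r.2).1.1
    have hrb : M r.1 b = M a a + 1 := (hside r.1 r.2).1.2
    have hr0 : u r.1 = 0 := hYz r.1 r.2
    have hrne : r.1 ≠ a := fun h => hua (h ▸ hr0)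
    have hrnb : r.1 ≠ b := fun h => hub (h ▸ hr0)
    have hae : a ≠ e := hF.ne 0
    have hre : r.1 ≠ e := fun h => hS.root u Y hSY (h ▸ r.2)
    have hba : b ≠ a := fun h => by
      have : M a a + 1 = M a a := by rw [← hmab, h]
      revert this
      generalize M a a = C
      revert C
      decide
    by_cases hl : l = M a a
    · -- `{r, a}` is a closed pair
      have p1 : M r.1 r.1 = M a a := hrr.trans hl
      have p2 : M r.1 a ≠ M r.1 r.1 := by
        rw [p1, hra]
        generalize M a a = C
        revert C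
        decide
      have hFq := fam_pair hI sym p1 p2
      have lq : ∀ v, v ≠ r.1 → v ≠ a → Lap H (sm M ![r.1, a]) v = 0 := by
        intro v hvr hva
        refine lap_sm_off hI hFq ?_
        intro j
        fin_cases j
        · exact hvr
        · exact hva
      have sq : ∀ v, sm M ![r.1, a] v = M r.1 v + M a v := by
        intro v
        unfold sm
        rw [Fin.sum_univ_two]
        rfl
      have qY : ∀ v ∈ Y, wd H (sm M ![r.1, a]) v ≠ 0 := by
        intro v hv h
        have h3 := (lap_of_zero h).1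
        rw [sq, hr ⟨v, hv⟩, hl, sym a v, (hside v hv).1.1] at h3
        revert h3
        generalize M a a = C
        revert C
        decide
      have q1 : ∀ v, u v ≠ 0 → wd H (sm M ![r.1, a]) v = 0 ∨ wd H (sm M ![r.1, a]) v = u v := by
        intro v hv
        have hvr : v ≠ r.1 := fun h => hv (h ▸ hr0)
        by_cases hva : v = a
        · right
          rw [hva]
          refine wd_eq_of _ (sm M ![a, b]) a ?_ ?_
          · rw [show sm M ![r.1, a] a = 1 from sm_at hFq 1, show sm M ![a, b] a = 1 from sm_at hF 0]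
          · rw [show Lap H (sm M ![r.1, a]) a = 1 from lap_sm_at hI hFq 1,
              show Lap H (sm M ![a, b]) a = 1 from lap_sm_at hI hF 0]
        · by_cases hvb : v = b
          · left
            rw [hvb]
            refine zero_of_lap ?_ (lq b hrnb.symm hba)
            rw [sq, hrb, hmab]
            exact CharTwo.add_self_eq_zero _
          · rw [uoff v hva hvb hv]
            exact wd_zero_or_om (lq v hvr hva)
      have q2 : ∀ v, u v = 0 → v ∉ Y → wd H (sm M ![r.1, a]) v = 0 := by
        intro v hv hvY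
        have hvr : v ≠ r.1 := fun h => hvY (h ▸ r.2)
        have hva : v ≠ a := fun h => hua (h ▸ hv)
        refine zero_of_lap ?_ (lq v hvr hva)
        rw [sq, (hside r.1 r.2).2 v hv hvY]
        exact CharTwo.add_self_eq_zero _
      rcases hS.mono u Y hSY hirr _ (wd_mem hH _) (w_zfree hI hFq) (w_ne hI hFq)
        (irr_pair hH hI sym p1 p2) q1 q2 with ⟨g, hg⟩ | ⟨Y', hY', ⟨y', hy'⟩, hSY'⟩
      · rcases loc hB hS huB (w_zfree hI hF) hSY q1 q2 hg with h3 | h3
        · obtain ⟨-, -, -, -, h4⟩ := split_val hg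
          exact qY g h3 h4
        · exact hns g h3
      · exact qY y' (hY' hy') (hS.zero _ Y' hSY' y' hy')
    · -- the word splits at `r`
      have hl' : l = M a a + 1 :=
        (by decide : ∀ x y : ZMod 2, x ≠ y → x = y + 1) _ _ hl
      set f : X → ZMod 2 := M r.1 + M a with hf
      have lf : ∀ v, Lap H f v = (if v = r.1 then 1 else 0) + (if v = a then 1 else 0) := by
        intro v
        rw [hf, lap_add, hI.hl, hI.hl]
        generalize (if v = r.1 then (1 : ZMod 2) else 0) = A
        generalize (if v = a then (1 : ZMod 2) else 0) = A'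
        generalize (if v = e then (1 : ZMod 2) else 0) = C
        revert A A' C
        decide
      have fv : ∀ v, f v = M r.1 v + M a v := fun v => rfl
      refine hns r.1 (splits_of huB (wd_mem hH f) ?_ hr0 ?_)
      · refine z_of_lap ?_ ?_
        · rw [fv, hrr, hl', sym a r.1, hra]
          exact CharTwo.add_self_eq_zero _
        · rw [lf, if_pos rfl, if_neg hrne, add_zero]
      · intro v hvr
        by_cases huv : u v = 0
        · left
          have hva : v ≠ a := fun h => hua (h ▸ huv)
          refine zero_of_lap ?_ (by rw [lf, if_neg hvr, if_neg hva, add_zero])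
          by_cases hvY : v ∈ Y
          · rw [fv, hr ⟨v, hvY⟩, hl', sym a v, (hside v hvY).1.1]
            exact CharTwo.add_self_eq_zero _
          · rw [fv, (hside r.1 r.2).2 v huv hvY]
            exact CharTwo.add_self_eq_zero _
        · by_cases hva : v = a
          · right
            rw [hva]
            refine wd_eq_of f (sm M ![a, b]) a ?_ ?_
            · rw [show sm M ![a, b] a = 1 from sm_at hF 0, fv, hra]
              generalize M a a = C
              revert C
              decide
            · rw [show Lap H (sm M ![a, b]) a = 1 from lap_sm_at hI hF 0, lf, if_neg hrne.symm,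
                if_pos rfl, zero_add]
          · by_cases hvb : v = b
            · left
              rw [hvb]
              refine zero_of_lap ?_ (by rw [lf, if_neg hrnb.symm, if_neg hba, add_zero])
              rw [fv, hrb, hmab]
              exact CharTwo.add_self_eq_zero _
            · rw [uoff v hva hvb huv]
              exact wd_zero_or_om (by rw [lf, if_neg hvr, if_neg hva, add_zero])

/-- **the code side for rooted codes with sides** -/
theorem code_side_sides (hB : IsCode B) (hH : IsMat B H) (hS : RSides B e S) :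
    ∃ M : X → X → ZMod 2, (∀ x y, M x y = M y x) ∧ (∀ x, M e x = 0) ∧
      (∀ u, u ≠ e → ∀ v, (∑ w, H u w * (M u v + M w v)) = if u = v then 1 else 0) ∧
      Pairs M ∧ P4Split M := by
  obtain ⟨M, h0, hl⟩ := exists_inv' hH.sym (ker' hB hH hS)
  have sym := m_sym hH.sym h0 hl
  have he : ∀ x, M e x = 0 := fun x => by rw [sym, h0]
  have hI : Inv H e M := ⟨hH.sym, h0, hl⟩
  refine ⟨M, sym, he, ?_, ?_, ?_⟩
  · intro u hu v
    have h1 := hl v u
    rw [if_neg hu, add_zero] at h1
    rw [← h1]
    unfold Lap
    refine Finset.sum_congr rfl fun w _ => ?_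
    rw [sym u v, sym w v]
  · intro a b h1 h2
    have hF := fam_pair hI sym h1 h2
    have hsp : ∃ g, Splits B (wd H (sm M ![a, b])) g := by
      rcases hS.ex _ (wd_mem hH _) (w_zfree hI hF) (w_e hI hF) (w_ne hI hF)
        (irr_pair hH hI sym h1 h2) with h3 | ⟨Y, hYn, hSY⟩
      · exact h3
      · exact pair_splits hB hH hI sym hS _ a b h1 h2 Y hSY hYn le_rfl
    obtain ⟨g, hg⟩ := hsp
    exact ⟨g, mid_pair hH hI sym h1 h2 hg⟩
  · intro a b c d hP ha hb hcc hdd
    have hF := fam_p4 hI sym hP ha hb hcc hdd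
    rcases hS.ex _ (wd_mem hH _) (w_zfree hI hF) (w_e hI hF) (w_ne hI hF)
      (irr_p4 hH hI sym hP ha hb hcc hdd) with ⟨g, hg⟩ | ⟨Y, ⟨y, hy⟩, hSY⟩
    · exact ⟨g, bad_p4 hH hI sym hP ha hb hcc hdd hg⟩
    · exact ⟨y, p4_side hH hI sym hS hP ha hb hcc hdd hSY hy⟩

end

end Pool.Agent.H67.Q
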