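import Pool.Agent.H67.Q.Perm3

/-!
# The action of a quasi-isometric group on the big vertices
-/

namespace Pool.Agent.QIS

open MulAction

/-- the data of the main theorem -/
structure Dat (G H : Type) [Group G] [Group H] where
  S : Set G
  S' : Set H
  hS : S.Finite
  hS' : S'.Finite
  gS : Subgroup.closure S = ⊤
  gS' : Subgroup.closure S' = ⊤
  E : Splitting G
  hC : TwoEnded E.edgeGroup
  hbig : Big E E.a ∨ Big E E.b
  nca : Big E E.a → NotCrossed S E (stabilizer G E.a)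
  ncb : Big E E.b → NotCrossed S E (stabilizer G E.b)
  K : ℕ
  F : G → H
  F' : H → G
  hF : IsQI S S' K F
  hF' : IsQI S' S K F'
  h1 : ∀ y, wdist S' (F (F' y)) y ≤ K
  h2 : ∀ x, wdist S (F' (F x)) x ≤ K

namespace Dat

variable {G H : Type} [Group G] [Group H] (D : Dat G H)

/-- the quasi-action of `H` on `G` -/
def φ (h : H) (g : G) : G := D.F' (h * D.F g)

/-- the quasi-isometry constant of the quasi-action -/
def K₁ : ℕ := D.K * D.K + D.K + D.K + D.K + D.K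

theorem φ_qi (h : H) : IsQI D.S D.S D.K₁ (D.φ h) := by
  have h1 := D.hF.twist 1 h
  have h2 : (fun x : G => h * D.F (1 * x)) = fun x => h * D.F x := by
    funext x; rw [one_mul]
  rw [h2] at h1
  exact h1.comp D.hF' D.gS

/-- the big vertices -/
def VV : Type := {v : D.E.V // Big D.E v}

theorem exists_R₃ : ∃ R : ℕ, ∀ φ : G → G, IsQI D.S D.S D.K₁ φ → ∀ v : D.E.V, Big D.E v →
      ∃ w : D.E.V, Big D.E w ∧ ∀ x ∈ VS D.E v, φ x ∈ nbhd D.S R (VS D.E w) :=
  image_exists D.hS D.gS D.hC D.nca D.ncb D.K₁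

/-- the uniform constant for images of vertex spaces -/
noncomputable def R₃ : ℕ := D.exists_R₃.choose

theorem exists_img (h : H) (v : D.VV) :
    ∃ w : D.VV, ∀ x ∈ VS D.E v.1, D.φ h x ∈ nbhd D.S D.R₃ (VS D.E w.1) := by
  obtain ⟨w, hw, hx⟩ := D.exists_R₃.choose_spec (D.φ h) (D.φ_qi h) v.1 v.2
  exact ⟨⟨w, hw⟩, hx⟩

/-- the image vertex -/
noncomputable def img (h : H) (v : D.VV) : D.VV := (D.exists_img h v).choose

theorem img_spec (h : H) (v : D.VV) :
    ∀ x ∈ VS D.E v.1, D.φ h x ∈ nbhd D.S D.R₃ (VS D.E (D.img h v).1) :=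
  (D.exists_img h v).choose_spec

theorem img_eq (h : H) (v w : D.VV) (R : ℕ)
    (hw : ∀ x ∈ VS D.E v.1, D.φ h x ∈ nbhd D.S R (VS D.E w.1)) : D.img h v = w :=
  Subtype.ext (image_unique D.hS D.gS D.hC (D.φ_qi h) v.2 (D.img_spec h v) hw)

theorem φ_one (x : G) : wdist D.S (D.φ 1 x) x ≤ D.K := by
  unfold φ
  rw [one_mul]
  exact D.h2 x

theorem φ_mul (h h' : H) (x : G) :
    wdist D.S (D.φ (h * h') x) (D.φ h (D.φ h' x)) ≤ D.K * D.K + D.K := by
  unfold φ
  refine (D.hF'.1 _ _).trans ?_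
  have : wdist D.S' (h * h' * D.F x) (h * D.F (D.F' (h' * D.F x))) ≤ D.K := by
    rw [mul_assoc, wdist_mul_left, wdist_comm D.gS']
    exact D.h1 _
  gcongr

noncomputable instance : MulAction H D.VV where
  smul h v := D.img h v
  one_smul v := by
    refine D.img_eq 1 v v D.K fun x hx => ?_
    exact ⟨x, hx, D.φ_one x⟩
  mul_smul h h' v := by
    refine D.img_eq (h * h') v (D.img h (D.img h' v))
      ((D.K * D.K + D.K) + ((D.K₁ * D.R₃ + D.K₁) + D.R₃)) fun x hx => ?_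
    obtain ⟨y, hy, hd⟩ := D.img_spec h' v x hx
    have h3 : wdist D.S (D.φ h (D.φ h' x)) (D.φ h y) ≤ D.K₁ * D.R₃ + D.K₁ := by
      refine ((D.φ_qi h).1 _ _).trans ?_
      gcongr
    exact mem_nbhd_of_dist D.gS (mem_nbhd_of_dist D.gS (D.img_spec h _ y hy) h3) (D.φ_mul h h' x)

theorem smul_def (h : H) (v : D.VV) : h • v = D.img h v := rfl

/-- the point `y` of `H` is near the vertex `v` -/
def Nr (r : ℕ) (y : H) (v : D.VV) : Prop := D.F' y ∈ nbhd D.S r (VS D.E v.1)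

/-- loss of constants under the action -/
noncomputable def cc (r : ℕ) : ℕ := (D.K * D.K + D.K) + ((D.K₁ * r + D.K₁) + D.R₃)

theorem Nr.mono {r r' : ℕ} {y : H} {v : D.VV} (h : D.Nr r y v) (hr : r ≤ r') : D.Nr r' y v :=
  nbhd_mono hr _ h

theorem cc_mono {r r' : ℕ} (h : r ≤ r') : D.cc r ≤ D.cc r' := by
  unfold cc
  gcongr

theorem Nr.smul {r : ℕ} {y : H} {v : D.VV} (hy : D.Nr r y v) (h : H) :
    D.Nr (D.cc r) (h * y) (h • v) := by
  obtain ⟨x, hx, hd⟩ := hy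
  have h3 : wdist D.S (D.φ h (D.F' y)) (D.φ h x) ≤ D.K₁ * r + D.K₁ := by
    refine ((D.φ_qi h).1 _ _).trans ?_
    gcongr
  have h4 : wdist D.S (D.F' (h * y)) (D.φ h (D.F' y)) ≤ D.K * D.K + D.K := by
    unfold φ
    refine (D.hF'.1 _ _).trans ?_
    have : wdist D.S' (h * y) (h * D.F (D.F' y)) ≤ D.K := by
      rw [wdist_mul_left, wdist_comm D.gS']
      exact D.h1 _
    gcongr
  exact mem_nbhd_of_dist D.gS (mem_nbhd_of_dist D.gS (D.img_spec h v x hx) h3) h4

/-- the set of positions in `H` of which `v` and `w` are near -/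
def II (r : ℕ) (v w : D.VV) : Set H := {y | D.Nr r 1 (y⁻¹ • v) ∧ D.Nr r 1 (y⁻¹ • w)}

theorem Nr.toOne {r : ℕ} {y : H} {v : D.VV} (hy : D.Nr r y v) : D.Nr (D.cc r) 1 (y⁻¹ • v) := by
  have := Nr.smul D hy y⁻¹
  rwa [inv_mul_cancel] at this

theorem Nr.ofOne {r : ℕ} {y : H} {v : D.VV} (hy : D.Nr r 1 (y⁻¹ • v)) : D.Nr (D.cc r) y v := by
  have := Nr.smul D hy y
  rwa [mul_one, smul_inv_smul] at this

theorem II_smul (r : ℕ) (h : H) (v w : D.VV) (y : H) :
    h * y ∈ D.II r (h • v) (h • w) ↔ y ∈ D.II r v w := by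
  unfold II
  simp only [Set.mem_ofPred_eq]
  rw [mul_inv_rev, mul_smul, mul_smul, inv_smul_smul, inv_smul_smul]

theorem Nr_finite (r : ℕ) (y : H) : {v : D.VV | D.Nr r y v}.Finite := by
  have h1 : {x : G | wdist D.S (D.F' y) x ≤ r}.Finite := ball_finite D.hS D.gS _ _
  have h2 : ({v : D.E.V | ∃ x ∈ {x : G | wdist D.S (D.F' y) x ≤ r},
      x • D.E.a = v ∨ x • D.E.b = v}).Finite := by
    refine ((h1.image (fun x => x • D.E.a)).union (h1.image (fun x => x • D.E.b))).subset ?_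
    rintro v ⟨x, hx, h | h⟩
    · exact Or.inl ⟨x, hx, h⟩
    · exact Or.inr ⟨x, hx, h⟩
  refine Set.Finite.of_finite_image (f := Subtype.val) (h2.subset ?_) Subtype.val_injective.injOn
  rintro _ ⟨v, ⟨x, hx, hd⟩, rfl⟩
  exact ⟨x, hd, hx⟩

theorem exists_Nr (v : D.VV) : ∃ y : H, D.Nr D.K y v := by
  obtain ⟨x, hx⟩ := exists_vertex D.E v.1
  exact ⟨D.F x, x, hx, D.h2 x⟩

/-- the graph on the big vertices -/
def Γ (r : ℕ) : SimpleGraph D.VV where
  Adj v w := v ≠ w ∧ (D.II r v w).Infinite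
  symm := ⟨fun v w h => by
    have h1 : D.II r w v = D.II r v w := by
      ext y; exact and_comm
    exact ⟨h.1.symm, by rw [h1]; exact h.2⟩⟩
  loopless := ⟨fun v h => h.1 rfl⟩

theorem Γ_adj (r : ℕ) (v w : D.VV) : (D.Γ r).Adj v w ↔ v ≠ w ∧ (D.II r v w).Infinite := Iff.rfl

theorem Γ_smul (r : ℕ) (h : H) {v w : D.VV} (hvw : (D.Γ r).Adj v w) :
    (D.Γ r).Adj (h • v) (h • w) := by
  rw [Γ_adj] at hvw ⊢
  refine ⟨fun h' => hvw.1 (smul_left_cancel h h'), ?_⟩
  have h1 : (fun y => h * y) '' (D.II r v w) ⊆ D.II r (h • v) (h • w) := by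
    rintro _ ⟨y, hy, rfl⟩
    exact (D.II_smul r h v w y).2 hy
  exact (hvw.2.image (mul_right_injective h).injOn).mono h1

/-- `F` is finite-to-one -/
theorem inf_image {A : Set G} (hA : A.Infinite) : (D.F '' A).Infinite := by
  intro hfin
  refine hA ?_
  have h1 : A ⊆ ⋃ y ∈ D.F '' A, {x | D.F x = y} := by
    intro x hx
    simp only [Set.mem_iUnion]
    exact ⟨D.F x, ⟨x, hx, rfl⟩, rfl⟩
  refine (hfin.biUnion fun y _ => ?_).subset h1
  by_cases hne : ∃ x₀, D.F x₀ = y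
  · obtain ⟨x₀, hx₀⟩ := hne
    refine (ball_finite D.hS D.gS x₀ D.K).subset ?_
    intro x hx
    have := D.hF.2.1 x₀ x
    have hx1 : D.F x = y := hx
    rw [hx₀, hx1, wdist_self] at this
    simpa using this
  · refine Set.Finite.subset Set.finite_empty ?_
    intro x hx
    exact (hne ⟨x, hx⟩).elim

theorem inf_image' {A : Set H} (hA : A.Infinite) : (D.F' '' A).Infinite := by
  intro hfin
  refine hA ?_
  have h1 : A ⊆ ⋃ y ∈ D.F' '' A, {x | D.F' x = y} := by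
    intro x hx
    simp only [Set.mem_iUnion]
    exact ⟨D.F' x, ⟨x, hx, rfl⟩, rfl⟩
  refine (hfin.biUnion fun y _ => ?_).subset h1
  by_cases hne : ∃ x₀, D.F' x₀ = y
  · obtain ⟨x₀, hx₀⟩ := hne
    refine (ball_finite D.hS' D.gS' x₀ D.K).subset ?_
    intro x hx
    have := D.hF'.2.1 x₀ x
    have hx1 : D.F' x = y := hx
    rw [hx₀, hx1, wdist_self] at this
    simpa using this
  · refine Set.Finite.subset Set.finite_empty ?_
    intro x hx
    exact (hne ⟨x, hx⟩).elim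

theorem ES_infinite (k : G) : (ES D.E k).Infinite := by
  have h1 : Infinite D.E.edgeGroup := TwoEnded.infinite D.hC
  have h2 : ((D.E.edgeGroup : Set G)).Infinite := Set.infinite_coe_iff.1 h1
  refine (h2.image (f := fun c => k * c) (mul_right_injective k).injOn).mono ?_
  rintro _ ⟨c, hc, rfl⟩
  exact mem_ES_mul D.E k hc

end Dat

end Pool.Agent.QIS
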