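import Pool.Agent.H77.Q.Defs
import Pool.Agent.H6.P4.Side

set_option autoImplicit false

/-!
Rooted codes with sides (MP_a46c6f_co): kernel, families of points.
-/

namespace Pool.Agent.H67.Q

open Pool.Agent.H98.Code Pool.Agent.H17.TR Pool.Agent.H6.P4 Pool.Agent.H77.Q

section
variable {X : Type} [Fintype X] [DecidableEq X]

theorem kadd_self : ∀ a : K, a + a = 0 := by decide
theorem kf0l : ∀ a : K, kf 0 a = 0 := by decide
theorem kf0r : ∀ a : K, kf a 0 = 0 := by decide
theorem kfself : ∀ a : K, kf a a = 0 := by decide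
theorem kfz : ∀ a : K, a.1 = 1 → kf z a = 1 := by decide
theorem ne_one : ∀ a : ZMod 2, a ≠ 0 → a = 1 := by decide
theorem z_add_z : (z : K) + z = 0 := by decide

theorem form_contra {B : Submodule (ZMod 2) (X → K)} (hB : IsCode B) {c w : X → K} (hc : c ∈ B)
    (hw : w ∈ B) {g : X} (hg : c g = z) (hwg : (w g).1 = 1)
    (h : ∀ v, v ≠ g → c v = 0 ∨ w v = 0 ∨ c v = w v) : False := by
  have h1 := hB.iso c hc w hw
  unfold form at h1
  rw [Finset.sum_eq_single g] at h1
  · rw [hg, kfz _ hwg] at h1
    exact one_ne_zero h1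
  · intro v _ hv
    rcases h v hv with h2 | h2 | h2
    · rw [h2, kf0l]
    · rw [h2, kf0r]
    · rw [h2, kfself]
  · intro h2
    exact absurd (Finset.mem_univ g) h2

theorem card_lt {k d : X → K} (hle : ∀ v, d v = 0 ∨ d v = k v) {w : X} (hw : k w ≠ 0)
    (hdw : d w = 0) :
    (Finset.univ.filter fun v => d v ≠ 0).card < (Finset.univ.filter fun v => k v ≠ 0).card := by
  apply Finset.card_lt_card
  rw [Finset.ssubset_iff_of_subset]
  · exact ⟨w, Finset.mem_filter.2 ⟨Finset.mem_univ _, hw⟩, fun h => (Finset.mem_filter.1 h).2 hdw⟩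
  · intro v hv
    rw [Finset.mem_filter] at hv ⊢
    refine ⟨hv.1, fun h => hv.2 ?_⟩
    rcases hle v with h1 | h1
    · exact h1
    · rw [h1, h]

theorem exists_irr_aux {B : Submodule (ZMod 2) (X → K)} (v0 : X) : ∀ (n : ℕ) (k : X → K), k ∈ B →
    k v0 ≠ 0 → (Finset.univ.filter fun v => k v ≠ 0).card ≤ n →
    ∃ d ∈ B, (∀ v, d v = 0 ∨ d v = k v) ∧ d v0 ≠ 0 ∧ Irr B d := by
  intro n
  induction n with
  | zero =>
    intro k _ hv hc
    exfalso
    have h1 : (Finset.univ.filter fun v => k v ≠ 0) = ∅ := Finset.card_eq_zero.1 (Nat.le_zero.1 hc)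
    have h2 : v0 ∈ (Finset.univ.filter fun v => k v ≠ 0) :=
      Finset.mem_filter.2 ⟨Finset.mem_univ v0, hv⟩
    rw [h1] at h2
    exact absurd h2 (Finset.notMem_empty _)
  | succ n ih =>
    intro k hk hv hc
    by_cases hi : Irr B k
    · exact ⟨k, hk, fun v => Or.inr rfl, hv, hi⟩
    · unfold Irr at hi
      push Not at hi
      obtain ⟨d, hd, hle, hd0, hdk⟩ := hi
      by_cases hdv : d v0 = 0
      · -- use `k + d`
        obtain ⟨w, hw⟩ : ∃ w, d w ≠ 0 := by
          by_contra hcon
          push Not at hcon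
          exact hd0 (funext hcon)
        have hle' : ∀ v, (k + d) v = 0 ∨ (k + d) v = k v := by
          intro v
          rcases hle v with h1 | h1
          · right; rw [Pi.add_apply, h1, add_zero]
          · left; rw [Pi.add_apply, h1, kadd_self]
        have hw2 : d w = k w := (hle w).resolve_left hw
        have hlt := card_lt hle' (w := w) (by rw [← hw2]; exact hw)
          (by rw [Pi.add_apply, hw2, kadd_self])
        obtain ⟨d', h1, h2, h3, h4⟩ := ih (k + d) (B.add_mem hk hd)
          (by rw [Pi.add_apply, hdv, add_zero]; exact hv) (by omega)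
        refine ⟨d', h1, fun v => ?_, h3, h4⟩
        rcases h2 v with h5 | h5
        · exact Or.inl h5
        · rw [h5]; exact hle' v
      · obtain ⟨w, hw⟩ : ∃ w, d w ≠ k w := by
          by_contra hcon
          push Not at hcon
          exact hdk (funext hcon)
        have hw0 : d w = 0 := (hle w).resolve_right hw
        have hlt := card_lt hle (w := w) (fun h => hw (by rw [hw0, h])) hw0
        obtain ⟨d', h1, h2, h3, h4⟩ := ih d hd hdv (by omega)
        refine ⟨d', h1, fun v => ?_, h3, h4⟩
        rcases h2 v with h5 | h5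
        · exact Or.inl h5
        · rw [h5]; exact hle v

/-- an irreducible subword through a given letter -/
theorem exists_irr {B : Submodule (ZMod 2) (X → K)} {v0 : X} {k : X → K} (hk : k ∈ B)
    (hv : k v0 ≠ 0) : ∃ d ∈ B, (∀ v, d v = 0 ∨ d v = k v) ∧ d v0 ≠ 0 ∧ Irr B d :=
  exists_irr_aux v0 _ k hk hv le_rfl

/-- the summand at `g` of a splitting -/
theorem split_val {B : Submodule (ZMod 2) (X → K)} {u : X → K} {g : X} (h : Splits B u g) :
    ∃ c ∈ B, c g = z ∧ (∀ v, v ≠ g → c v = 0 ∨ c v = u v) ∧ u g = 0 := by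
  obtain ⟨c₁, hc₁, c₂, hc₂, hs, h1, h2, hd⟩ := h
  refine ⟨c₁, hc₁, h1, ?_, ?_⟩
  · intro v hv
    rcases hd v hv with h3 | h3
    · exact Or.inl h3
    · right
      rw [← hs, Pi.add_apply, h3, add_zero]
  · rw [← hs, Pi.add_apply, h1, h2, z_add_z]

/-- a word below a word is determined by its letters -/
theorem splits_of {B : Submodule (ZMod 2) (X → K)} {u c : X → K} (hu : u ∈ B) (hc : c ∈ B) {g : X}
    (hg : c g = z) (hug : u g = 0) (h : ∀ v, v ≠ g → c v = 0 ∨ c v = u v) : Splits B u g := by
  refine ⟨c, hc, u + c, B.add_mem hu hc, ?_, hg, ?_, ?_⟩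
  · funext v
    rw [Pi.add_apply, Pi.add_apply, add_left_comm, kadd_self, add_zero]
  · rw [Pi.add_apply, hug, hg, zero_add]
  · intro v hv
    rcases h v hv with h1 | h1
    · exact Or.inl h1
    · right
      rw [Pi.add_apply, h1, kadd_self]

variable {B : Submodule (ZMod 2) (X → K)} {H : X → X → ZMod 2} {e : X} {M : X → X → ZMod 2}
  {S : (X → K) → Finset X → Prop}

/-- the full word -/
def om (H : X → X → ZMod 2) : X → K := wd H (fun _ => 1)

theorem om_fst (v : X) : (om H v).1 = 1 := rfl

theorem wd_eq_of (f g : X → ZMod 2) (v : X) (h1 : f v = g v) (h2 : Lap H f v = Lap H g v) :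
    wd H f v = wd H g v := by
  rw [lap_wd, lap_wd] at h2
  have h3 : (wd H f v).1 = (wd H g v).1 := h1
  rw [h3] at h2
  exact Prod.ext h1 (add_left_cancel h2)

theorem lap_one (v : X) : Lap H (fun _ => (1 : ZMod 2)) v = 0 := by
  unfold Lap
  refine Finset.sum_eq_zero fun w _ => ?_
  rw [show (1 : ZMod 2) + 1 = 0 from by decide, mul_zero]

theorem wd_zero_or_om {f : X → ZMod 2} {v : X} (h : Lap H f v = 0) :
    wd H f v = 0 ∨ wd H f v = om H v := by
  by_cases h1 : f v = 0
  · exact Or.inl (zero_of_lap h1 h)
  · right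
    refine wd_eq_of f (fun _ => 1) v (ne_one _ h1) ?_
    rw [h, lap_one]

theorem wd_om_of {f : X → ZMod 2} {v : X} (h1 : f v = 1) (h : Lap H f v = 0) :
    wd H f v = om H v := wd_eq_of f (fun _ => 1) v h1 (by rw [h, lap_one])

/-- the word of the first coordinates -/
theorem lap_fst (hH : IsMat B H) {c : X → K} (hc : c ∈ B) : c = wd H (fun v => (c v).1) :=
  eq_wd hH hc

/-- kernel words with sides do not exist -/
theorem ker_aux (hB : IsCode B) (hH : IsMat B H) (hS : RSides B e S) : ∀ (n : ℕ) (u : X → K),
    u ∈ B → (∀ v, u v = 0 ∨ u v = om H v) → u e = 0 → Irr B u → u ≠ 0 → ∀ Y, S u Y →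
    Y.Nonempty → Y.card ≤ n → False := by
  have homB : om H ∈ B := wd_mem hH _
  intro n
  induction n with
  | zero =>
    intro u _ _ _ _ _ Y _ hY hc
    have := Finset.card_pos.2 hY
    omega
  | succ n ih =>
    intro u hu hle hue hirr hu0 Y hSY hY hc
    obtain ⟨y, hy⟩ := hY
    obtain ⟨k', hk', hkY, hkoff, hksub⟩ := hS.part u Y hSY (om H) homB (by
      intro v hv
      exact Or.inr ((hle v).resolve_left hv).symm)
    have hkle : ∀ v, k' v = 0 ∨ k' v = om H v := by
      intro v
      by_cases hv : u v = 0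
      · by_cases hvY : v ∈ Y
        · exact Or.inr (hkY v hvY)
        · exact Or.inl (hkoff v hv hvY)
      · rcases hksub v hv with h1 | h1
        · exact Or.inl h1
        · rw [h1]; exact hle v
    have hky : k' y ≠ 0 := by
      rw [hkY y hy]
      intro h
      have := om_fst (H := H) y
      rw [h] at this
      exact absurd (show (0 : ZMod 2) = 1 from this) (by decide)
    obtain ⟨d, hd, hdle, hdy, hdirr⟩ := exists_irr hk' hky
    have hdom : ∀ v, d v = 0 ∨ d v = om H v := by
      intro v
      rcases hdle v with h1 | h1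
      · exact Or.inl h1
      · rw [h1]; exact hkle v
    have hde : d e = 0 := by
      rcases hdle e with h1 | h1
      · exact h1
      · rw [h1]; exact hkoff e hue (hS.root u Y hSY)
    have hd0 : d ≠ 0 := fun h => hdy (by rw [h]; rfl)
    have hdz : ZFree d := by
      intro v hv
      rcases hdom v with h1 | h1
      · rw [h1] at hv; exact absurd hv (by decide)
      · have := om_fst (H := H) v
        rw [← h1, hv] at this
        exact absurd this (by decide)
    rcases hS.mono u Y hSY hirr d hd hdz hd0 hdirr (by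
        intro v hv
        rcases hdle v with h1 | h1
        · exact Or.inl h1
        · rw [h1]; exact hksub v hv) (by
        intro v hv hvY
        rcases hdle v with h1 | h1
        · exact h1
        · rw [h1]; exact hkoff v hv hvY) with hsp | ⟨Y', hY', hYn, hSY'⟩
    · obtain ⟨g, hg⟩ := hsp
      obtain ⟨c, hc', hcg, hcv, -⟩ := split_val hg
      refine form_contra hB hc' homB hcg (om_fst g) ?_
      intro v hv
      rcases hcv v hv with h1 | h1
      · exact Or.inl h1
      · rcases hdom v with h2 | h2
        · left; rw [h1, h2]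
        · right; right; rw [h1, h2]
    · refine ih d hd hdom hde hdirr hd0 Y' hSY' hYn ?_
      have hyY' : y ∉ Y' := fun h => hdy (hS.zero d Y' hSY' y h)
      have : Y'.card < Y.card := Finset.card_lt_card ⟨hY', fun h => hyY' (h hy)⟩
      omega

/-- the reduced Laplacian is injective -/
theorem ker' (hB : IsCode B) (hH : IsMat B H) (hS : RSides B e S) (f : X → ZMod 2) (he : f e = 0)
    (h : ∀ v, v ≠ e → Lap H f v = 0) : f = 0 := by
  have hle : Lap H f e = 0 := by
    have h1 := sum_lap hH.sym f
    rw [Fintype.sum_eq_single e h] at h1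
    exact h1
  have hall : ∀ v, Lap H f v = 0 := by
    intro v
    by_cases hv : v = e
    · rw [hv, hle]
    · exact h v hv
  by_contra hf
  obtain ⟨v0, hv0⟩ : ∃ v, f v ≠ 0 := by
    by_contra hcon
    push Not at hcon
    exact hf (funext hcon)
  have hk0 : wd H f v0 ≠ 0 := fun h => hv0 (congrArg Prod.fst h)
  obtain ⟨d, hd, hdle, hdy, hdirr⟩ := exists_irr (wd_mem hH f) hk0
  have hdom : ∀ v, d v = 0 ∨ d v = om H v := by
    intro v
    rcases hdle v with h1 | h1
    · exact Or.inl h1
    · rw [h1]; exact wd_zero_or_om (hall v)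
  have hde : d e = 0 := by
    rcases hdle e with h1 | h1
    · exact h1
    · rw [h1]; exact zero_of_lap he (hall e)
  have hd0 : d ≠ 0 := fun h => hdy (by rw [h]; rfl)
  have hdz : ZFree d := by
    intro v hv
    rcases hdom v with h1 | h1
    · rw [h1] at hv; exact absurd hv (by decide)
    · have := om_fst (H := H) v
      rw [← h1, hv] at this
      exact absurd this (by decide)
  rcases hS.ex d hd hdz hde hd0 hdirr with ⟨g, hg⟩ | ⟨Y, hY, hSY⟩
  · obtain ⟨c, hc', hcg, hcv, -⟩ := split_val hg
    refine form_contra hB hc' (wd_mem hH (fun _ => 1)) hcg (om_fst (H := H) g) ?_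
    intro v hv
    rcases hcv v hv with h1 | h1
    · exact Or.inl h1
    · rcases hdom v with h2 | h2
      · left; rw [h1, h2]
      · right; right; rw [h1, h2]; rfl
  · exact ker_aux hB hH hS _ d hd hdom hde hdirr hd0 Y hSY hY le_rfl

/-- the inverse of the reduced Laplacian -/
theorem exists_inv' (hs : ∀ u v, H u v = H v u)
    (hker : ∀ f : X → ZMod 2, f e = 0 → (∀ v, v ≠ e → Lap H f v = 0) → f = 0) :
    ∃ M : X → X → ZMod 2, (∀ x, M x e = 0) ∧
      ∀ x v, Lap H (M x) v = (if v = x then 1 else 0) + (if v = e then 1 else 0) := by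
  set R : (X → ZMod 2) →+ (X → ZMod 2) :=
    { toFun := fun f v => if v = e then f e else Lap H f v
      map_zero' := by
        funext v
        by_cases hv : v = e
        · simp [hv]
        · simp [hv, Lap]
      map_add' := by
        intro f g
        funext v
        by_cases hv : v = e
        · simp [hv]
        · simp [hv, lap_add] } with hR
  have hval : ∀ f v, R f v = if v = e then f e else Lap H f v := fun f v => rfl
  have hinj : Function.Injective R := by
    rw [injective_iff_map_eq_zero]
    intro f hf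
    apply hker f
    · have h1 := congrFun hf e
      rw [hval, if_pos rfl] at h1
      exact h1
    · intro v hv
      have h1 := congrFun hf v
      rw [hval, if_neg hv] at h1
      exact h1
  have hsur : Function.Surjective R := Finite.injective_iff_surjective.1 hinj
  choose M hM using fun x : X => hsur (fun v => if v = e then 0 else if v = x then 1 else 0)
  have h0 : ∀ x, M x e = 0 := by
    intro x
    have h1 := congrFun (hM x) e
    rw [hval, if_pos rfl, if_pos rfl] at h1
    exact h1
  have h1 : ∀ x v, v ≠ e → Lap H (M x) v = if v = x then 1 else 0 := by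
    intro x v hv
    have h2 := congrFun (hM x) v
    rw [hval, if_neg hv, if_neg hv] at h2
    exact h2
  refine ⟨M, h0, fun x v => ?_⟩
  by_cases hv : v = e
  · subst hv
    have h2 := sum_lap hs (M x)
    rw [Fintype.sum_eq_add_sum_subtype_ne _ v] at h2
    have h3 : ∑ i : {w // w ≠ v}, Lap H (M x) i.1 = ∑ i : {w // w ≠ v}, if i.1 = x then 1 else 0 :=
      Finset.sum_congr rfl fun i _ => h1 x i.1 i.2
    have h4 : ∑ w, (if w = x then (1 : ZMod 2) else 0) = 1 := by
      rw [Finset.sum_ite_eq' Finset.univ x, if_pos (Finset.mem_univ x)]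
    rw [Fintype.sum_eq_add_sum_subtype_ne _ v, ← h3] at h4
    rw [if_pos rfl]
    revert h2 h4
    generalize Lap H (M x) v = A
    generalize (∑ i : {w // w ≠ v}, Lap H (M x) i.1) = B
    generalize (if v = x then (1 : ZMod 2) else 0) = C
    revert A B C
    decide
  · rw [h1 x v hv, if_neg hv, add_zero]

end

end Pool.Agent.H67.Q
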