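import Pool.Agent.H67.Q.Side
import Pool.Agent.H41.Q.Tree
import Pool.Agent.H16.FQ.Plug

set_option autoImplicit false

/-!
Critical contra pairs of permutation graphs (MP_a46c6f_co, full Q1): the assembly of the rows.
-/

namespace Pool.Agent.H67.Q

open Pool.Agent.H5.Goddyn Pool.Agent.H98.TC Pool.Agent.H64.Pent

/-- the code side, for every rooted code with sides -/
theorem core : Pool.Agent.H41.Q.Core :=
  fun _ _ _ _ _ _ _ hL hH hS => code_side_sides hL hH hS

/-- the graph of a rooted code with sides is a tree -/
theorem heart : Pool.Agent.H16.FQ.Heart := Pool.Agent.H41.Q.heart_of core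

/-- **critical contra pairs of permutation graphs** -/
theorem goddyn {V : Type*} [Finite V] (G : SimpleGraph V) (M C₁ C₂ : G.Subgraph)
    (h : IsPermutationGraph G M C₁ C₂) (hcrit : IsCriticalContraPair G (wt M)) :
    IsPetersenPair G M :=
  Pool.Agent.H16.FQ.petersen_of_heart heart G M C₁ C₂ h hcrit.2

end Pool.Agent.H67.Q
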