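import Pool.Agent.H67.Q.Defs

/-!
# A nested cut in a connected graph (Dunwoody)

If a connected graph has a finite cut (finite edge boundary, both sides unbounded), then it has
a cut all translates of which are nested with it.  The argument is Dunwoody's and Kroen's:
minimal boundary, then minimal number of crossings.
-/

set_option autoImplicit false

namespace Pool.Agent.QIS

section Q3

variable {V : Type}

/-- `A` cannot be divided in two parts without edges between them -/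
private def q3_Indec (Γ : SimpleGraph V) (A : Set V) : Prop :=
  ∀ P : Set V, (∀ u ∈ A, ∀ w ∈ A, Γ.Adj u w → u ∈ P → w ∈ P) →
    (∀ u ∈ A, u ∈ P) ∨ (∀ u ∈ A, u ∉ P)

/-- a set closed under adjacency is everything -/
private lemma q3_closed {Γ : SimpleGraph V} (hc : Γ.Connected) (P : Set V)
    (h : ∀ u w, Γ.Adj u w → u ∈ P → w ∈ P) {x : V} (hx : x ∈ P) (v : V) : v ∈ P := by
  by_contra hv
  obtain ⟨p⟩ := hc.preconnected x v
  obtain ⟨d, _, h1, h2⟩ := p.exists_boundary_dart P hx hv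
  exact h2 (h _ _ d.adj h1)

private lemma q3_fin (n : ℕ) : ∀ (G : SimpleGraph V), G.Connected → ∀ x y : V, G.Adj x y →
    {A : Set V | (bdry G A).Finite ∧ (bdry G A).ncard = n ∧ x ∈ A ∧ y ∉ A ∧ q3_Indec G A ∧
      q3_Indec G Aᶜ}.Finite := by
  induction n with
  | zero =>
    intro G hG x y hxy
    refine Set.finite_empty.subset ?_
    rintro A ⟨hf, hn, hx, hy, -, -⟩
    have h0 := (Set.ncard_eq_zero hf).1 hn
    have h1 : (x, y) ∈ bdry G A := ⟨hxy, hx, hy⟩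
    rw [h0] at h1
    exact h1
  | succ n ih =>
    intro G hG x y hxy
    set G' := G.deleteEdges {s(x, y)} with hG'
    have hadj : ∀ u w, G.Adj u w → s(u, w) ≠ s(x, y) → G'.Adj u w := by
      intro u w huw hne
      rw [hG', SimpleGraph.deleteEdges_adj]
      exact ⟨huw, hne⟩
    have hadj' : ∀ u w, G'.Adj u w → G.Adj u w ∧ s(u, w) ≠ s(x, y) := by
      intro u w huw
      rw [hG', SimpleGraph.deleteEdges_adj] at huw
      exact huw
    have hA1 : ∀ A : Set V, x ∈ A → y ∉ A → ∀ u ∈ A, ∀ w ∈ A, G.Adj u w → G'.Adj u w := by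
      intro A _ hy u hu w hw huw
      refine hadj u w huw fun h => ?_
      rcases Sym2.eq_iff.1 h with ⟨_, h2⟩ | ⟨h1, _⟩
      · exact hy (h2 ▸ hw)
      · exact hy (h1 ▸ hu)
    have hA2 : ∀ A : Set V, x ∈ A → y ∉ A → ∀ u ∈ Aᶜ, ∀ w ∈ Aᶜ, G.Adj u w → G'.Adj u w := by
      intro A hx _ u hu w hw huw
      refine hadj u w huw fun h => ?_
      rcases Sym2.eq_iff.1 h with ⟨h1, _⟩ | ⟨_, h2⟩
      · exact hu (h1 ▸ hx)
      · exact hw (h2 ▸ hx)
    by_cases hc : G'.Connected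
    · obtain ⟨p⟩ := hc.preconnected x y
      have hfin : (⋃ d ∈ {d | d ∈ p.darts}, {A : Set V | (bdry G' A).Finite ∧
          (bdry G' A).ncard = n ∧ d.fst ∈ A ∧ d.snd ∉ A ∧ q3_Indec G' A ∧
          q3_Indec G' Aᶜ}).Finite :=
        Set.Finite.biUnion (List.finite_toSet p.darts) fun d _ => ih G' hc d.fst d.snd d.adj
      refine hfin.subset ?_
      rintro A ⟨hf, hn, hx, hy, hi1, hi2⟩
      obtain ⟨d, hd, hd1, hd2⟩ := p.exists_boundary_dart A hx hy
      have hb : bdry G' A = bdry G A \ {(x, y)} := by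
        ext ⟨u, w⟩
        constructor
        · rintro ⟨h1, h2, h3⟩
          obtain ⟨h4, h5⟩ := hadj' _ _ h1
          refine ⟨⟨h4, h2, h3⟩, fun h => h5 ?_⟩
          rw [Set.mem_singleton_iff, Prod.mk.injEq] at h
          simp only [h.1, h.2]
        · rintro ⟨⟨h1, h2, h3⟩, h4⟩
          refine ⟨hadj _ _ h1 fun h => ?_, h2, h3⟩
          rcases Sym2.eq_iff.1 h with ⟨h5, h6⟩ | ⟨h5, h6⟩
          · apply h4
            simp only at h5 h6
            rw [h5, h6]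
            rfl
          · simp only at h5 h6
            rw [h5] at h2
            exact hy h2
      have hmem : (x, y) ∈ bdry G A := ⟨hxy, hx, hy⟩
      refine Set.mem_biUnion hd ⟨?_, ?_, hd1, hd2, ?_, ?_⟩
      · rw [hb]
        exact hf.subset Set.diff_subset
      · rw [hb, Set.ncard_diff_singleton_of_mem hmem, hn]
        rfl
      · intro P hP
        exact hi1 P fun u hu w hw huw => hP u hu w hw (hA1 A hx hy u hu w hw huw)
      · intro P hP
        exact hi2 P fun u hu w hw huw => hP u hu w hw (hA2 A hx hy u hu w hw huw)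
    · -- `y` is not reachable from `x`
      have hxy' : ¬ G'.Reachable x y := by
        intro hr
        apply hc
        have hall : ∀ v, G'.Reachable x v := by
          intro v
          refine q3_closed hG {v | G'.Reachable x v} ?_ (SimpleGraph.Reachable.refl x) v
          intro u w huw hu
          by_cases he : s(u, w) = s(x, y)
          · rcases Sym2.eq_iff.1 he with ⟨_, h2⟩ | ⟨_, h2⟩
            · rw [Set.mem_setOf_eq, h2]
              exact hr
            · rw [Set.mem_setOf_eq, h2]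
          · exact SimpleGraph.Reachable.trans hu (hadj u w huw he).reachable
        haveI : Nonempty V := ⟨x⟩
        exact SimpleGraph.Connected.mk fun a b => (hall a).symm.trans (hall b)
      refine (Set.finite_singleton {v | G'.Reachable x v}).subset ?_
      rintro A ⟨hf, hn, hx, hy, hi1, hi2⟩
      rw [Set.mem_singleton_iff]
      have h1 := hi1 {v | G'.Reachable x v} fun u hu w hw huw hr =>
        SimpleGraph.Reachable.trans hr (hA1 A hx hy u hu w hw huw).reachable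
      have h2 := hi2 {v | G'.Reachable x v} fun u hu w hw huw hr =>
        SimpleGraph.Reachable.trans hr (hA2 A hx hy u hu w hw huw).reachable
      have h3 : ∀ u ∈ A, u ∈ {v | G'.Reachable x v} := by
        rcases h1 with h | h
        · exact h
        · exact absurd (SimpleGraph.Reachable.refl x) (h x hx)
      have h4 : ∀ u ∈ Aᶜ, u ∉ {v | G'.Reachable x v} := by
        rcases h2 with h | h
        · exact absurd (h y hy) hxy'
        · exact h
      ext v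
      constructor
      · exact h3 v
      · intro hv
        by_contra hvA
        exact h4 v hvA hv

private lemma q3_unbdd_mono {Γ : SimpleGraph V} {A B : Set V} (h : A ⊆ B) (hA : Unbdd Γ A) :
    Unbdd Γ B := by
  intro x n
  obtain ⟨y, hy, hn⟩ := hA x n
  exact ⟨y, h hy, hn⟩

private lemma q3_unbdd_union {Γ : SimpleGraph V} (hc : Γ.Connected) {A B : Set V}
    (h : Unbdd Γ (A ∪ B)) : Unbdd Γ A ∨ Unbdd Γ B := by
  by_contra hcon
  rw [not_or] at hcon
  obtain ⟨hA, hB⟩ := hcon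
  unfold Unbdd at hA hB
  push Not at hA hB
  obtain ⟨x, n, hx⟩ := hA
  obtain ⟨x', n', hx'⟩ := hB
  obtain ⟨y, hy, hn⟩ := h x (n + n' + Γ.dist x x')
  rcases hy with hy | hy
  · have := hx y hy
    omega
  · have h1 := hx' y hy
    have h2 : Γ.dist x y ≤ Γ.dist x x' + Γ.dist x' y := hc.dist_triangle
    omega

private lemma q3_bdry_compl (Γ : SimpleGraph V) (A : Set V) :
    bdry Γ Aᶜ = Prod.swap '' bdry Γ A := by
  ext ⟨u, w⟩
  constructor
  · rintro ⟨h1, h2, h3⟩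
    refine ⟨(w, u), ⟨h1.symm, ?_, h2⟩, rfl⟩
    by_contra h
    exact h3 h
  · rintro ⟨⟨a, b⟩, ⟨h1, h2, h3⟩, h4⟩
    simp only [Prod.swap_prod_mk, Prod.mk.injEq] at h4
    obtain ⟨rfl, rfl⟩ := h4
    exact ⟨h1.symm, h3, fun h => h h2⟩

/-- cuts with `k` boundary edges -/
private def q3_KK (Γ : SimpleGraph V) (k : ℕ) : Set (Set V) :=
  {A | IsCut Γ A ∧ (bdry Γ A).ncard = k}

private lemma q3_KK_compl {Γ : SimpleGraph V} {k : ℕ} {A : Set V} (hA : A ∈ q3_KK Γ k) :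
    Aᶜ ∈ q3_KK Γ k := by
  obtain ⟨⟨h1, h2, h3⟩, h4⟩ := hA
  refine ⟨⟨?_, h3, by rwa [compl_compl]⟩, ?_⟩
  · rw [q3_bdry_compl]
    exact h1.image _
  · rw [q3_bdry_compl, Set.ncard_image_of_injective _ Prod.swap_injective, h4]

private lemma q3_KK_indec_aux {Γ : SimpleGraph V} (hc : Γ.Connected) {k : ℕ}
    (hmin : ∀ A, IsCut Γ A → k ≤ (bdry Γ A).ncard) {A : Set V} (hA : A ∈ q3_KK Γ k) (P : Set V)
    (hP : ∀ u ∈ A, ∀ w ∈ A, Γ.Adj u w → (u ∈ P ↔ w ∈ P)) (hun : Unbdd Γ (A ∩ P)) :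
    ∀ u ∈ A, u ∈ P := by
  obtain ⟨⟨h1, h2, h3⟩, h4⟩ := hA
  have hsub : bdry Γ (A ∩ P) ⊆ bdry Γ A := by
    rintro ⟨u, w⟩ ⟨g1, g2, g3⟩
    refine ⟨g1, g2.1, fun hw => g3 ⟨hw, ?_⟩⟩
    exact (hP u g2.1 w hw g1).1 g2.2
  have hcut : IsCut Γ (A ∩ P) :=
    ⟨h1.subset hsub, hun, q3_unbdd_mono (Set.compl_subset_compl.2 Set.inter_subset_left) h3⟩
  have heq : bdry Γ (A ∩ P) = bdry Γ A :=
    Set.eq_of_subset_of_ncard_le hsub (by rw [h4]; exact hmin _ hcut) h1
  intro u hu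
  by_contra huP
  obtain ⟨z, hz, _⟩ := h3 u 0
  have := q3_closed hc (A \ P) (x := u) (by
    rintro v w hvw ⟨hv1, hv2⟩
    have hw : w ∈ A := by
      by_contra hw
      have h5 : (v, w) ∈ bdry Γ A := ⟨hvw, hv1, hw⟩
      rw [← heq] at h5
      exact hv2 h5.2.1.2
    exact ⟨hw, fun h => hv2 ((hP v hv1 w hw hvw).2 h)⟩) ⟨hu, huP⟩ z
  exact hz this.1

private lemma q3_KK_indec {Γ : SimpleGraph V} (hc : Γ.Connected) {k : ℕ}
    (hmin : ∀ A, IsCut Γ A → k ≤ (bdry Γ A).ncard) {A : Set V} (hA : A ∈ q3_KK Γ k) :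
    q3_Indec Γ A := by
  intro P hP
  have hP' : ∀ u ∈ A, ∀ w ∈ A, Γ.Adj u w → (u ∈ P ↔ w ∈ P) := fun u hu w hw huw =>
    ⟨hP u hu w hw huw, hP w hw u hu huw.symm⟩
  have hu : Unbdd Γ ((A ∩ P) ∪ (A ∩ Pᶜ)) := by
    rw [Set.inter_union_compl]
    exact hA.1.2.1
  rcases q3_unbdd_union hc hu with h | h
  · exact Or.inl (q3_KK_indec_aux hc hmin hA P hP' h)
  · refine Or.inr (q3_KK_indec_aux hc hmin hA Pᶜ ?_ h)
    intro u hu w hw huw
    exact not_congr (hP' u hu w hw huw)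

private lemma q3_sep_finite {Γ : SimpleGraph V} (hc : Γ.Connected) {k : ℕ}
    (hmin : ∀ A, IsCut Γ A → k ≤ (bdry Γ A).ncard) (x y : V) :
    {A | A ∈ q3_KK Γ k ∧ x ∈ A ∧ y ∉ A}.Finite := by
  obtain ⟨p⟩ := hc.preconnected x y
  have hfin : (⋃ d ∈ {d | d ∈ p.darts}, {A : Set V | (bdry Γ A).Finite ∧
      (bdry Γ A).ncard = k ∧ d.fst ∈ A ∧ d.snd ∉ A ∧ q3_Indec Γ A ∧
      q3_Indec Γ Aᶜ}).Finite :=
    Set.Finite.biUnion (List.finite_toSet p.darts) fun d _ => q3_fin k Γ hc d.fst d.snd d.adj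
  refine hfin.subset ?_
  rintro A ⟨hA, hx, hy⟩
  obtain ⟨d, hd, hd1, hd2⟩ := p.exists_boundary_dart A hx hy
  exact Set.mem_biUnion hd ⟨hA.1.1, hA.2, hd1, hd2, q3_KK_indec hc hmin hA,
    q3_KK_indec hc hmin (q3_KK_compl hA)⟩

/-- the cuts of `KK` that cross `A` -/
private def q3_cr (Γ : SimpleGraph V) (k : ℕ) (A : Set V) : Set (Set V) :=
  {B | B ∈ q3_KK Γ k ∧ ¬ Nested A B}

private lemma q3_cr_finite {Γ : SimpleGraph V} (hc : Γ.Connected) {k : ℕ}
    (hmin : ∀ A, IsCut Γ A → k ≤ (bdry Γ A).ncard) {A : Set V} (hA : A ∈ q3_KK Γ k) :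
    (q3_cr Γ k A).Finite := by
  set F : Set V := Prod.fst '' bdry Γ A ∪ Prod.snd '' bdry Γ A with hF
  have hFf : F.Finite := (hA.1.1.image _).union (hA.1.1.image _)
  have hfin : (⋃ x ∈ F, ⋃ y ∈ F, {B | B ∈ q3_KK Γ k ∧ x ∈ B ∧ y ∉ B}).Finite :=
    Set.Finite.biUnion hFf fun x _ => Set.Finite.biUnion hFf fun y _ =>
      q3_sep_finite hc hmin x y
  refine hfin.subset ?_
  rintro B ⟨hB, hn⟩
  by_contra hcon
  have hsep : ∀ x ∈ F, ∀ y ∈ F, x ∈ B → y ∈ B := by
    intro x hx y hy hxB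
    by_contra hyB
    exact hcon (Set.mem_biUnion hx (Set.mem_biUnion hy ⟨hB, hxB, hyB⟩))
  -- endpoints of a boundary edge
  have hend : ∀ u w, Γ.Adj u w → u ∈ A → w ∉ A → u ∈ F ∧ w ∈ F := by
    intro u w h1 h2 h3
    exact ⟨Or.inl ⟨(u, w), ⟨h1, h2, h3⟩, rfl⟩, Or.inr ⟨(u, w), ⟨h1, h2, h3⟩, rfl⟩⟩
  by_cases hcase : ∃ x ∈ F, x ∈ B
  · -- all of `F` in `B`
    obtain ⟨x, hx, hxB⟩ := hcase
    have hall : ∀ y ∈ F, y ∈ B := fun y hy => hsep x hx y hy hxB
    have h1 := q3_KK_indec hc hmin (q3_KK_compl hB) A (by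
      intro u hu w hw huw huA
      by_contra hwA
      exact hu (hall u (hend u w huw huA hwA).1))
    apply hn
    rcases h1 with h | h
    · -- `Bᶜ ⊆ A`, i.e. `Aᶜ ⊆ B`
      refine Or.inr (Or.inr (Or.inl ?_))
      intro v hv
      by_contra hvB
      exact hv (h v hvB)
    · refine Or.inl ?_
      intro v hv
      by_contra hvB
      exact h v hvB hv
  · have hall : ∀ y ∈ F, y ∉ B := fun y hy hyB => hcase ⟨y, hy, hyB⟩
    have h1 := q3_KK_indec hc hmin hB A (by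
      intro u hu w hw huw huA
      by_contra hwA
      exact hall u (hend u w huw huA hwA).1 hu)
    apply hn
    rcases h1 with h | h
    · -- `B ⊆ A`, i.e. `Aᶜ ⊆ Bᶜ`
      exact Or.inr (Or.inr (Or.inr (Set.compl_subset_compl.2 h)))
    · exact Or.inr (Or.inl fun v hv hvB => h v hvB hv)

private lemma q3_nested_compl_left {A D : Set V} (h : Nested A D) : Nested Aᶜ D := by
  unfold Nested at *
  rw [compl_compl]
  tauto

private lemma q3_nested_compl_right {A D : Set V} (h : Nested A D) : Nested A Dᶜ := by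
  unfold Nested at *
  rw [compl_compl]
  tauto

private lemma q3_nested_symm {A D : Set V} (h : Nested A D) : Nested D A := by
  unfold Nested at *
  rcases h with h | h | h | h
  · exact Or.inr (Or.inr (Or.inr (Set.compl_subset_compl.2 h)))
  · exact Or.inr (Or.inl (Set.subset_compl_comm.1 h))
  · exact Or.inr (Or.inr (Or.inl (Set.compl_subset_comm.1 h)))
  · exact Or.inl (Set.compl_subset_compl.1 h)

/-- a set nested with `A` and `B` is nested with the corner `A ∩ B` if the opposite corner is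
not empty -/
private lemma q3_alg1 {A B D : Set V} (h2 : (Aᶜ ∩ Bᶜ).Nonempty) (hA : Nested A D)
    (hB : Nested B D) : Nested (A ∩ B) D := by
  obtain ⟨z, hz1, hz2⟩ := h2
  rcases hA with h | h | h | h
  · exact Or.inl (Set.inter_subset_left.trans h)
  · exact Or.inr (Or.inl (Set.inter_subset_left.trans h))
  · rcases hB with g | g | g | g
    · exact Or.inl (Set.inter_subset_right.trans g)
    · exact Or.inr (Or.inl (Set.inter_subset_right.trans g))
    · refine Or.inr (Or.inr (Or.inl ?_))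
      rw [Set.compl_inter]
      exact Set.union_subset h g
    · exact absurd (h hz1) (g hz2)
  · rcases hB with g | g | g | g
    · exact Or.inl (Set.inter_subset_right.trans g)
    · exact Or.inr (Or.inl (Set.inter_subset_right.trans g))
    · exact absurd (g hz2) (h hz1)
    · refine Or.inr (Or.inr (Or.inr ?_))
      rw [Set.compl_inter]
      exact Set.union_subset h g

private lemma q3_alg2 {A B D : Set V} (h1 : (A ∩ B).Nonempty) (hA : Nested A D)
    (hB : Nested B D) : Nested (A ∪ B) D := by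
  have h : Nested (Aᶜ ∩ Bᶜ) D :=
    q3_alg1 (by simpa only [compl_compl] using h1) (q3_nested_compl_left hA)
      (q3_nested_compl_left hB)
  have := q3_nested_compl_left h
  rwa [Set.compl_inter, compl_compl, compl_compl] at this

/-- a set nested with `A` is nested with `A ∩ B` or with `A ∪ B` -/
private lemma q3_alg3 {A B D : Set V} (hA : Nested A D) :
    Nested (A ∩ B) D ∨ Nested (A ∪ B) D := by
  rcases hA with h | h | h | h
  · exact Or.inl (Or.inl (Set.inter_subset_left.trans h))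
  · exact Or.inl (Or.inr (Or.inl (Set.inter_subset_left.trans h)))
  · refine Or.inr (Or.inr (Or.inr (Or.inl ?_)))
    exact (Set.compl_subset_compl.2 Set.subset_union_left).trans h
  · refine Or.inr (Or.inr (Or.inr (Or.inr ?_)))
    exact (Set.compl_subset_compl.2 Set.subset_union_left).trans h

/-- the uncrossing step: two crossing cuts with opposite unbounded corners -/
private lemma q3_uncross {Γ : SimpleGraph V} (hc : Γ.Connected) {k : ℕ}
    (hmin : ∀ A, IsCut Γ A → k ≤ (bdry Γ A).ncard) {A B : Set V} (hA : A ∈ q3_KK Γ k)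
    (hB : B ∈ q3_KK Γ k) (hn : ¬ Nested A B) (hu1 : Unbdd Γ (A ∩ B))
    (hu2 : Unbdd Γ (Aᶜ ∩ Bᶜ)) :
    ∃ C₁ ∈ q3_KK Γ k, ∃ C₂ ∈ q3_KK Γ k,
      (q3_cr Γ k C₁).ncard + (q3_cr Γ k C₂).ncard < (q3_cr Γ k A).ncard + (q3_cr Γ k B).ncard := by
  have hfA := hA.1.1
  have hfB := hB.1.1
  have hsub1 : bdry Γ (A ∩ B) ∪ bdry Γ (A ∪ B) ⊆ bdry Γ A ∪ bdry Γ B := by
    rintro ⟨u, w⟩ (⟨h1, h2, h3⟩ | ⟨h1, h2, h3⟩)
    · by_cases hw : w ∈ A
      · exact Or.inr ⟨h1, h2.2, fun h => h3 ⟨hw, h⟩⟩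
      · exact Or.inl ⟨h1, h2.1, hw⟩
    · rcases h2 with h2 | h2
      · exact Or.inl ⟨h1, h2, fun h => h3 (Or.inl h)⟩
      · exact Or.inr ⟨h1, h2, fun h => h3 (Or.inr h)⟩
  have hsub2 : bdry Γ (A ∩ B) ∩ bdry Γ (A ∪ B) ⊆ bdry Γ A ∩ bdry Γ B := by
    rintro ⟨u, w⟩ ⟨⟨h1, h2, _⟩, ⟨_, _, h3⟩⟩
    exact ⟨⟨h1, h2.1, fun h => h3 (Or.inl h)⟩, ⟨h1, h2.2, fun h => h3 (Or.inr h)⟩⟩
  have hfU : (bdry Γ A ∪ bdry Γ B).Finite := hfA.union hfB
  have hf1 : (bdry Γ (A ∩ B)).Finite := hfU.subset (Set.subset_union_left.trans hsub1)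
  have hf2 : (bdry Γ (A ∪ B)).Finite := hfU.subset (Set.subset_union_right.trans hsub1)
  have hcompl : (A ∪ B)ᶜ = Aᶜ ∩ Bᶜ := Set.compl_union A B
  have hcut1 : IsCut Γ (A ∩ B) :=
    ⟨hf1, hu1, q3_unbdd_mono (Set.compl_subset_compl.2 Set.inter_subset_left) hA.1.2.2⟩
  have hcut2 : IsCut Γ (A ∪ B) :=
    ⟨hf2, q3_unbdd_mono Set.subset_union_left hA.1.2.1, by rwa [hcompl]⟩
  have hk1 := hmin _ hcut1
  have hk2 := hmin _ hcut2
  have hcard : (bdry Γ (A ∩ B)).ncard + (bdry Γ (A ∪ B)).ncard ≤ k + k := by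
    rw [← Set.ncard_union_add_ncard_inter _ _ hf1 hf2]
    have h3 := Set.ncard_union_add_ncard_inter _ _ hfA hfB
    rw [hA.2, hB.2] at h3
    rw [← h3]
    exact Nat.add_le_add (Set.ncard_le_ncard hsub1 hfU)
      (Set.ncard_le_ncard hsub2 (hfA.subset Set.inter_subset_left))
  have hC1 : A ∩ B ∈ q3_KK Γ k := ⟨hcut1, by omega⟩
  have hC2 : A ∪ B ∈ q3_KK Γ k := ⟨hcut2, by omega⟩
  refine ⟨A ∩ B, hC1, A ∪ B, hC2, ?_⟩
  have hne1 : (A ∩ B).Nonempty := by
    obtain ⟨x⟩ := hc.nonempty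
    obtain ⟨y, hy, _⟩ := hu1 x 0
    exact ⟨y, hy⟩
  have hne2 : (Aᶜ ∩ Bᶜ).Nonempty := by
    obtain ⟨x⟩ := hc.nonempty
    obtain ⟨y, hy, _⟩ := hu2 x 0
    exact ⟨y, hy⟩
  have hcA := q3_cr_finite hc hmin hA
  have hcB := q3_cr_finite hc hmin hB
  have hc1 := q3_cr_finite hc hmin hC1
  have hc2 := q3_cr_finite hc hmin hC2
  rw [← Set.ncard_union_add_ncard_inter _ _ hc1 hc2, ← Set.ncard_union_add_ncard_inter _ _ hcA hcB]
  have hlt : q3_cr Γ k (A ∩ B) ∪ q3_cr Γ k (A ∪ B) ⊂ q3_cr Γ k A ∪ q3_cr Γ k B := by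
    refine Set.ssubset_iff_of_subset ?_ |>.2 ⟨A, ?_, ?_⟩
    · rintro D (⟨hD, hDn⟩ | ⟨hD, hDn⟩)
      · by_contra hcon
        rw [Set.mem_union, not_or] at hcon
        have h1 : Nested A D := by
          by_contra h
          exact hcon.1 ⟨hD, h⟩
        have h2 : Nested B D := by
          by_contra h
          exact hcon.2 ⟨hD, h⟩
        exact hDn (q3_alg1 hne2 h1 h2)
      · by_contra hcon
        rw [Set.mem_union, not_or] at hcon
        have h1 : Nested A D := by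
          by_contra h
          exact hcon.1 ⟨hD, h⟩
        have h2 : Nested B D := by
          by_contra h
          exact hcon.2 ⟨hD, h⟩
        exact hDn (q3_alg2 hne1 h1 h2)
    · exact Or.inr ⟨hA, fun h => hn (q3_nested_symm h)⟩
    · rintro (⟨_, h⟩ | ⟨_, h⟩)
      · exact h (Or.inl Set.inter_subset_left)
      · exact h (Or.inr (Or.inr (Or.inr (Set.compl_subset_compl.2 Set.subset_union_left))))
  have hle : q3_cr Γ k (A ∩ B) ∩ q3_cr Γ k (A ∪ B) ⊆ q3_cr Γ k A ∩ q3_cr Γ k B := by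
    rintro D ⟨⟨hD, h1⟩, ⟨_, h2⟩⟩
    refine ⟨⟨hD, fun h => ?_⟩, ⟨hD, fun h => ?_⟩⟩
    · rcases q3_alg3 (B := B) h with g | g
      · exact h1 g
      · exact h2 g
    · rcases q3_alg3 (B := A) h with g | g
      · rw [Set.inter_comm] at g
        exact h1 g
      · rw [Set.union_comm] at g
        exact h2 g
  exact Nat.add_lt_add_of_lt_of_le (Set.ncard_lt_ncard hlt (hcA.union hcB))
    (Set.ncard_le_ncard hle (hcA.subset Set.inter_subset_left))

private lemma q3_cr_compl (Γ : SimpleGraph V) (k : ℕ) (A : Set V) :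
    q3_cr Γ k Aᶜ = q3_cr Γ k A := by
  ext D
  constructor
  · rintro ⟨h1, h2⟩
    exact ⟨h1, fun h => h2 (q3_nested_compl_left h)⟩
  · rintro ⟨h1, h2⟩
    refine ⟨h1, fun h => h2 ?_⟩
    have := q3_nested_compl_left h
    rwa [compl_compl] at this

end Q3

section Q3act

variable {H V : Type} [Group H] [MulAction H V]

private lemma q3_tr_mul (h h' : H) (A : Set V) : tr h (tr h' A) = tr (h * h') A := by
  ext x
  simp only [tr, Set.mem_setOf_eq, mul_inv_rev, mul_smul]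

private lemma q3_tr_one (A : Set V) : tr (1 : H) A = A := by
  ext x
  simp [tr]

private lemma q3_tr_mono {h : H} {A B : Set V} (hAB : A ⊆ B) : tr h A ⊆ tr h B :=
  fun _ hx => hAB hx

private lemma q3_nested_tr {h : H} {A B : Set V} (hAB : Nested A B) :
    Nested (tr h A) (tr h B) := by
  rcases hAB with g | g | g | g
  · exact Or.inl (q3_tr_mono g)
  · exact Or.inr (Or.inl (q3_tr_mono (h := h) g))
  · exact Or.inr (Or.inr (Or.inl (q3_tr_mono (h := h) g)))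
  · exact Or.inr (Or.inr (Or.inr (q3_tr_mono (h := h) g)))

private lemma q3_dist (Γ : SimpleGraph V) (hconn : Γ.Connected)
    (hact : ∀ (h : H) {x y : V}, Γ.Adj x y → Γ.Adj (h • x) (h • y)) (h : H) (x y : V) :
    Γ.dist (h • x) (h • y) ≤ Γ.dist x y := by
  obtain ⟨p, hp⟩ := hconn.exists_walk_length_eq_dist x y
  let f : Γ →g Γ := ⟨fun v => h • v, fun hxy => hact h hxy⟩
  have h1 := SimpleGraph.dist_le (p.map f)
  rw [SimpleGraph.Walk.length_map, hp] at h1
  exact h1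

private lemma q3_unbdd_tr (Γ : SimpleGraph V) (hconn : Γ.Connected)
    (hact : ∀ (h : H) {x y : V}, Γ.Adj x y → Γ.Adj (h • x) (h • y)) (h : H) {A : Set V}
    (hA : Unbdd Γ A) : Unbdd Γ (tr h A) := by
  intro x n
  obtain ⟨y, hy, hn⟩ := hA (h⁻¹ • x) n
  refine ⟨h • y, ?_, ?_⟩
  · simpa only [tr, Set.mem_setOf_eq, inv_smul_smul] using hy
  · have h1 := q3_dist Γ hconn hact h⁻¹ x (h • y)
    rw [inv_smul_smul] at h1
    exact hn.trans h1

private lemma q3_bdry_tr (Γ : SimpleGraph V)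
    (hact : ∀ (h : H) {x y : V}, Γ.Adj x y → Γ.Adj (h • x) (h • y)) (h : H) (A : Set V) :
    bdry Γ (tr h A) = (fun p : V × V => (h • p.1, h • p.2)) '' bdry Γ A := by
  ext ⟨u, w⟩
  constructor
  · rintro ⟨h1, h2, h3⟩
    exact ⟨(h⁻¹ • u, h⁻¹ • w), ⟨hact h⁻¹ h1, h2, h3⟩, by simp⟩
  · rintro ⟨⟨a, b⟩, ⟨h1, h2, h3⟩, h4⟩
    simp only [Prod.mk.injEq] at h4
    obtain ⟨rfl, rfl⟩ := h4
    refine ⟨hact h h1, ?_, ?_⟩
    · simpa only [tr, Set.mem_setOf_eq, inv_smul_smul] using h2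
    · simpa only [tr, Set.mem_setOf_eq, inv_smul_smul] using h3

private lemma q3_KK_tr {Γ : SimpleGraph V} (hconn : Γ.Connected)
    (hact : ∀ (h : H) {x y : V}, Γ.Adj x y → Γ.Adj (h • x) (h • y)) {k : ℕ} (h : H) {A : Set V}
    (hA : A ∈ q3_KK Γ k) : tr h A ∈ q3_KK Γ k := by
  obtain ⟨⟨h1, h2, h3⟩, h4⟩ := hA
  refine ⟨⟨?_, q3_unbdd_tr Γ hconn hact h h2, q3_unbdd_tr Γ hconn hact h h3⟩, ?_⟩
  · rw [q3_bdry_tr Γ hact]
    exact h1.image _
  · rw [q3_bdry_tr Γ hact, Set.ncard_image_of_injective, h4]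
    rintro ⟨a, b⟩ ⟨c, d⟩ hab
    simp only [Prod.mk.injEq] at hab
    rw [smul_left_cancel h hab.1, smul_left_cancel h hab.2]

private lemma q3_cr_tr {Γ : SimpleGraph V} (hconn : Γ.Connected)
    (hact : ∀ (h : H) {x y : V}, Γ.Adj x y → Γ.Adj (h • x) (h • y)) {k : ℕ} (h : H) (A : Set V) :
    q3_cr Γ k (tr h A) ⊆ (fun D => tr h D) '' q3_cr Γ k A := by
  rintro D ⟨hD, hn⟩
  refine ⟨tr h⁻¹ D, ⟨q3_KK_tr hconn hact h⁻¹ hD, fun hc => hn ?_⟩, ?_⟩
  · have h1 := q3_nested_tr (h := h) hc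
    rwa [q3_tr_mul, mul_inv_cancel, q3_tr_one] at h1
  · simp only
    rw [q3_tr_mul, mul_inv_cancel, q3_tr_one]

theorem exists_nested_cut (Γ : SimpleGraph V) (hconn : Γ.Connected)
    (hact : ∀ (h : H) {x y : V}, Γ.Adj x y → Γ.Adj (h • x) (h • y))
    (A₀ : Set V) (hA₀ : IsCut Γ A₀) :
    ∃ A : Set V, IsCut Γ A ∧ (∀ h : H, Nested A (tr h A)) ∧
      ∀ x y : V, {B : Set V | (∃ h : H, B = tr h A) ∧ x ∈ B ∧ y ∉ B}.Finite := by
  classical
  -- minimal boundary
  obtain ⟨A₁, hA₁, hmin₁⟩ := (measure fun A : Set V => (bdry Γ A).ncard).wf.has_min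
    {A | IsCut Γ A} ⟨A₀, hA₀⟩
  set k := (bdry Γ A₁).ncard with hk
  have hmin : ∀ A, IsCut Γ A → k ≤ (bdry Γ A).ncard := fun A hA => not_lt.1 (hmin₁ A hA)
  -- minimal number of crossings
  obtain ⟨A, hA, hminA⟩ := (measure fun A : Set V => (q3_cr Γ k A).ncard).wf.has_min
    (q3_KK Γ k) ⟨A₁, hA₁, rfl⟩
  have hminA' : ∀ B ∈ q3_KK Γ k, (q3_cr Γ k A).ncard ≤ (q3_cr Γ k B).ncard :=
    fun B hB => not_lt.1 (hminA B hB)
  refine ⟨A, hA.1, ?_, ?_⟩
  · intro h
    by_contra hn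
    set B := tr h A with hB
    have hBK : B ∈ q3_KK Γ k := q3_KK_tr hconn hact h hA
    have hBc : (q3_cr Γ k B).ncard ≤ (q3_cr Γ k A).ncard := by
      have hf := q3_cr_finite hconn hmin hA
      exact (Set.ncard_le_ncard (q3_cr_tr hconn hact h A) (hf.image _)).trans
        (Set.ncard_image_le hf)
    -- opposite unbounded corners
    have hcorner : (Unbdd Γ (A ∩ B) ∧ Unbdd Γ (Aᶜ ∩ Bᶜ)) ∨
        (Unbdd Γ (A ∩ Bᶜ) ∧ Unbdd Γ (Aᶜ ∩ B)) := by
      have h1 : Unbdd Γ (A ∩ B) ∨ Unbdd Γ (A ∩ Bᶜ) :=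
        q3_unbdd_union hconn (by rw [Set.inter_union_compl]; exact hA.1.2.1)
      have h2 : Unbdd Γ (Aᶜ ∩ B) ∨ Unbdd Γ (Aᶜ ∩ Bᶜ) :=
        q3_unbdd_union hconn (by rw [Set.inter_union_compl]; exact hA.1.2.2)
      have h3 : Unbdd Γ (A ∩ B) ∨ Unbdd Γ (Aᶜ ∩ B) := by
        refine q3_unbdd_union hconn ?_
        rw [← Set.union_inter_distrib_right, Set.union_compl_self, Set.univ_inter]
        exact hBK.1.2.1
      have h4 : Unbdd Γ (A ∩ Bᶜ) ∨ Unbdd Γ (Aᶜ ∩ Bᶜ) := by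
        refine q3_unbdd_union hconn ?_
        rw [← Set.union_inter_distrib_right, Set.union_compl_self, Set.univ_inter]
        exact hBK.1.2.2
      tauto
    rcases hcorner with ⟨h1, h2⟩ | ⟨h1, h2⟩
    · obtain ⟨C₁, hC₁, C₂, hC₂, hlt⟩ := q3_uncross hconn hmin hA hBK hn h1 h2
      have h3 := hminA' C₁ hC₁
      have h4 := hminA' C₂ hC₂
      omega
    · have hn' : ¬ Nested A Bᶜ := fun h => hn (by
        have := q3_nested_compl_right h
        rwa [compl_compl] at this)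
      obtain ⟨C₁, hC₁, C₂, hC₂, hlt⟩ := q3_uncross hconn hmin hA (q3_KK_compl hBK) hn' h1
        (by rwa [compl_compl])
      rw [q3_cr_compl] at hlt
      have h3 := hminA' C₁ hC₁
      have h4 := hminA' C₂ hC₂
      omega
  · intro x y
    refine (q3_sep_finite hconn hmin x y).subset ?_
    rintro B ⟨⟨h, rfl⟩, hx, hy⟩
    exact ⟨q3_KK_tr hconn hact h hA, hx, hy⟩

end Q3act

end Pool.Agent.QIS
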