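import Mathlib

/-!
# Splittings over two-ended groups and quasi-isometries: definitions

Project of MP_bbdce3_al: if a finitely generated one-ended group `G` splits over a two-ended
subgroup `C` and no quasi-isometry of `G` moves a vertex group across `C`, then every finitely
generated group quasi-isometric to `G` splits over a two-ended subgroup (no finite presentation).
-/

namespace Pool.Agent.QIS

/-- Word length of `g` with respect to a set `S` of generators: the least length of a word in the
elements of `S` and their inverses with value `g`. -/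
noncomputable def wlen {G : Type} [Group G] (S : Set G) (g : G) : ℕ :=
  sInf {n | ∃ l : List G, (∀ x ∈ l, x ∈ S ∨ x⁻¹ ∈ S) ∧ l.prod = g ∧ l.length = n}

/-- Word distance `d(g, h) = |g⁻¹ h|`. -/
noncomputable def wdist {G : Type} [Group G] (S : Set G) (g h : G) : ℕ := wlen S (g⁻¹ * h)

/-- The closed `R`-neighbourhood of a subset `L` in the word metric. -/
def nbhd {G : Type} [Group G] (S : Set G) (R : ℕ) (L : Set G) : Set G :=
  {g | ∃ l ∈ L, wdist S g l ≤ R}

/-- `φ` is a quasi-isometry with constant `K` between groups with word metrics. -/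
def IsQI {G H : Type} [Group G] [Group H] (S : Set G) (S' : Set H) (K : ℕ) (φ : G → H) : Prop :=
  (∀ x y, wdist S' (φ x) (φ y) ≤ K * wdist S x y + K) ∧
  (∀ x y, wdist S x y ≤ K * wdist S' (φ x) (φ y) + K) ∧
  (∀ z, ∃ x, wdist S' z (φ x) ≤ K)

/-- Two-ended groups are the infinite virtually cyclic groups: some element of infinite order
generates a subgroup of finite index. -/
def TwoEnded (G : Type) [Group G] : Prop :=
  ∃ z : G, (∀ n : ℕ, 0 < n → z ^ n ≠ 1) ∧ (Subgroup.zpowers z).FiniteIndex

/-- `x` and `y` are joined by a path of the Cayley graph (of `S`) that avoids `F`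
(or `x = y`). -/
def JoinedOff {G : Type} [Group G] (S : Set G) (F : Set G) (x y : G) : Prop :=
  Relation.ReflTransGen (fun g h => (∃ s ∈ S, h = g * s ∨ g = h * s) ∧ g ∉ F ∧ h ∉ F) x y

/-- The Cayley graph of `G` has exactly one end: `G` is infinite, and after removal of a finite set
of vertices all vertices outside some finite set lie in one component. -/
def OneEnded {G : Type} [Group G] (S : Set G) : Prop :=
  Infinite G ∧ ∀ F : Set G, F.Finite → ∃ E : Set G, E.Finite ∧
    ∀ x ∉ E, ∀ y ∉ E, JoinedOff S F x y

/-- A splitting of `G` in the sense of Bass and Serre: an action on a simplicial tree without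
inversions and without a global fixed vertex, with one orbit of edges; `{a, b}` is an edge. -/
structure Splitting (G : Type) [Group G] where
  /-- the vertices of the tree -/
  V : Type
  /-- the action on the vertices -/
  act : MulAction G V
  /-- the tree -/
  T : SimpleGraph V
  /-- one end of the base edge -/
  a : V
  /-- the other end of the base edge -/
  b : V
  tree : T.IsTree
  map_adj : ∀ (g : G) {x y : V}, T.Adj x y → T.Adj (g • x) (g • y)
  no_inv : ∀ (g : G) {x y : V}, T.Adj x y → ¬ (g • x = y ∧ g • y = x)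
  no_fix : ∀ x : V, ∃ g : G, g • x ≠ x
  adj : T.Adj a b
  edge_trans : ∀ {x y : V}, T.Adj x y →
    ∃ g : G, (g • a = x ∧ g • b = y) ∨ (g • a = y ∧ g • b = x)

attribute [instance] Splitting.act

/-- The edge group of a splitting: the stabilizer of the base edge. -/
def Splitting.edgeGroup {G : Type} [Group G] (E : Splitting G) : Subgroup G :=
  MulAction.stabilizer G E.a ⊓ MulAction.stabilizer G E.b

/-- `G` splits over a two-ended subgroup. -/
def SplitsOverTwoEnded (G : Type) [Group G] : Prop :=
  ∃ E : Splitting G, TwoEnded E.edgeGroup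

/-- `x` lies on the side of `a` when the edge `{a, b}` is removed from `T`. -/
def side {V : Type} (T : SimpleGraph V) (a b x : V) : Prop :=
  (T.deleteEdges {s(a, b)}).Reachable a x

/-- No quasi-isometry of `G` moves the vertex group `A` across the edge group: for all constants
`K` there is `R` such that for each quasi-isometry `φ` with constant `K` the points of `φ(A)`
outside the `R`-neighbourhood of the edge group all lie on one side of the base edge (the position
of a point `g` of `G` in the tree is the vertex `g • a`). -/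
def NotCrossed {G : Type} [Group G] (S : Set G) (E : Splitting G) (A : Subgroup G) : Prop :=
  ∀ K : ℕ, ∃ R : ℕ, ∀ φ : G → G, IsQI S S K φ →
    (∀ g ∈ A, φ g ∉ nbhd S R (E.edgeGroup : Set G) → side E.T E.a E.b (φ g • E.a)) ∨
    (∀ g ∈ A, φ g ∉ nbhd S R (E.edgeGroup : Set G) → ¬ side E.T E.a E.b (φ g • E.a))

/-! ## cuts in graphs -/

/-- The boundary of `A` in the graph `Γ`: ordered pairs `(u, w)` of neighbours, `u` in `A`,
`w` outside. -/
def bdry {V : Type} (Γ : SimpleGraph V) (A : Set V) : Set (V × V) :=
  {p | Γ.Adj p.1 p.2 ∧ p.1 ∈ A ∧ p.2 ∉ A}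

/-- `A` is unbounded in the graph metric. -/
def Unbdd {V : Type} (Γ : SimpleGraph V) (A : Set V) : Prop :=
  ∀ (x : V) (n : ℕ), ∃ y ∈ A, n ≤ Γ.dist x y

/-- A cut: finite boundary, both sides unbounded. -/
def IsCut {V : Type} (Γ : SimpleGraph V) (A : Set V) : Prop :=
  (bdry Γ A).Finite ∧ Unbdd Γ A ∧ Unbdd Γ Aᶜ

/-- `A` and `B` are nested. -/
def Nested {V : Type} (A B : Set V) : Prop :=
  A ⊆ B ∨ A ⊆ Bᶜ ∨ Aᶜ ⊆ B ∨ Aᶜ ⊆ Bᶜ

/-- translate of a set of vertices -/
def tr {H V : Type} [Group H] [MulAction H V] (h : H) (A : Set V) : Set V :=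
  {x | h⁻¹ • x ∈ A}

/-! ## length functions and coarse lines -/

/-- a length function with finite balls -/
structure ProperLen {H : Type} [Group H] (len : H → ℕ) : Prop where
  one : len 1 = 0
  inv : ∀ g, len g⁻¹ = len g
  mul : ∀ g h, len (g * h) ≤ len g + len h
  fin : ∀ n, {g | len g ≤ n}.Finite

/-- A coarse line: `γ : ℤ → H` with bounded steps and uniformly proper. -/
def CoarseLine {H : Type} [Group H] (len : H → ℕ) (γ : ℤ → H) : Prop :=
  (∃ D, ∀ n, len ((γ n)⁻¹ * γ (n + 1)) ≤ D) ∧
  (∀ r, ∃ N : ℕ, ∀ n m : ℤ, len ((γ n)⁻¹ * γ m) ≤ r → |n - m| ≤ (N : ℤ))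

end Pool.Agent.QIS
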