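import Pool.Agent.H67.Q.Defs

/-!
# Project QIS (MP_bbdce3_al), row Q6: word metric basics
-/

set_option autoImplicit false
set_option linter.unusedSectionVars false

namespace Pool.Agent.QIS

section Q6
variable {G H : Type} [Group G] [Group H] {S : Set G} {S' : Set H}

theorem q6_wlen_le (S : Set G) {g : G} (l : List G) (hl : ∀ x ∈ l, x ∈ S ∨ x⁻¹ ∈ S)
    (hp : l.prod = g) : wlen S g ≤ l.length :=
  Nat.sInf_le ⟨l, hl, hp, rfl⟩

theorem q6_exists_word (hSg : Subgroup.closure S = ⊤) (g : G) :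
    ∃ l : List G, (∀ x ∈ l, x ∈ S ∨ x⁻¹ ∈ S) ∧ l.prod = g ∧ l.length = wlen S g := by
  have hne : {n | ∃ l : List G, (∀ x ∈ l, x ∈ S ∨ x⁻¹ ∈ S) ∧ l.prod = g ∧ l.length = n}.Nonempty := by
    have hg : g ∈ Subgroup.closure S := by rw [hSg]; exact Subgroup.mem_top g
    rw [← Subgroup.mem_toSubmonoid, Subgroup.closure_toSubmonoid] at hg
    obtain ⟨l, h1, h2⟩ := Submonoid.exists_list_of_mem_closure hg
    exact ⟨l.length, l, fun x hx => by simpa using h1 x hx, h2, rfl⟩
  exact Nat.sInf_mem hne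

theorem q6_words_finite (hS : S.Finite) (n : ℕ) :
    {g : G | ∃ l : List G, (∀ x ∈ l, x ∈ S ∨ x⁻¹ ∈ S) ∧ l.prod = g ∧ l.length ≤ n}.Finite := by
  have hS2 : {x : G | x ∈ S ∨ x⁻¹ ∈ S}.Finite := by
    have h1 : {x : G | x ∈ S ∨ x⁻¹ ∈ S} = S ∪ (fun x => x⁻¹) '' S := by
      ext x
      constructor
      · rintro (h | h)
        · exact Or.inl h
        · exact Or.inr ⟨x⁻¹, h, inv_inv x⟩
      · rintro (h | ⟨y, hy, rfl⟩)
        · exact Or.inl h
        · refine Or.inr ?_
          rw [inv_inv]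
          exact hy
    rw [h1]
    exact hS.union (hS.image _)
  induction n with
  | zero =>
    refine (Set.finite_singleton (1 : G)).subset ?_
    rintro g ⟨l, -, hp, hl⟩
    have : l = [] := List.length_eq_zero_iff.1 (Nat.le_zero.1 hl)
    rw [this] at hp
    rw [Set.mem_singleton_iff, ← hp]
    rfl
  | succ n ih =>
    refine ((Set.finite_singleton (1 : G)).union (Set.Finite.image2 (fun x y => x * y) hS2 ih)).subset ?_
    rintro g ⟨l, hl, hp, hn⟩
    rcases l with _ | ⟨a, l⟩
    · left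
      rw [Set.mem_singleton_iff, ← hp]
      rfl
    · right
      refine ⟨a, hl a (by simp), l.prod, ⟨l, fun x hx => hl x (by simp [hx]), rfl, ?_⟩, ?_⟩
      · simpa using hn
      · rw [← hp, List.prod_cons]

theorem properLen_wlen (hS : S.Finite) (hSg : Subgroup.closure S = ⊤) : ProperLen (wlen S) where
  one := Nat.le_zero.1 (q6_wlen_le S [] (by simp) (by simp))
  inv := by
    have key : ∀ g : G, wlen S g⁻¹ ≤ wlen S g := by
      intro g
      obtain ⟨l, h1, h2, h3⟩ := q6_exists_word hSg g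
      refine (q6_wlen_le S ((l.map fun x => x⁻¹).reverse) ?_ ?_).trans (le_of_eq ?_)
      · intro x hx
        rw [List.mem_reverse, List.mem_map] at hx
        obtain ⟨y, hy, rfl⟩ := hx
        rw [inv_inv]
        exact (h1 y hy).symm
      · rw [← h2, List.prod_inv_reverse]
      · rw [List.length_reverse, List.length_map, h3]
    intro g
    apply le_antisymm (key g)
    have := key g⁻¹
    rwa [inv_inv] at this
  mul := by
    intro g h
    obtain ⟨l, h1, h2, h3⟩ := q6_exists_word hSg g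
    obtain ⟨l', h1', h2', h3'⟩ := q6_exists_word hSg h
    refine (q6_wlen_le S (l ++ l') ?_ ?_).trans (le_of_eq ?_)
    · intro x hx
      rcases List.mem_append.1 hx with h | h
      · exact h1 x h
      · exact h1' x h
    · rw [List.prod_append, h2, h2']
    · rw [List.length_append, h3, h3']
  fin := by
    intro n
    refine (q6_words_finite hS n).subset ?_
    intro g hg
    obtain ⟨l, h1, h2, h3⟩ := q6_exists_word hSg g
    exact ⟨l, h1, h2, h3 ▸ hg⟩

theorem q6_one : wlen S (1 : G) = 0 := Nat.le_zero.1 (q6_wlen_le S [] (by simp) (by simp))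

theorem q6_inv (hSg : Subgroup.closure S = ⊤) (g : G) : wlen S g⁻¹ = wlen S g := by
  have key : ∀ g : G, wlen S g⁻¹ ≤ wlen S g := by
    intro g
    obtain ⟨l, h1, h2, h3⟩ := q6_exists_word hSg g
    refine (q6_wlen_le S ((l.map fun x => x⁻¹).reverse) ?_ ?_).trans (le_of_eq ?_)
    · intro x hx
      rw [List.mem_reverse, List.mem_map] at hx
      obtain ⟨y, hy, rfl⟩ := hx
      rw [inv_inv]
      exact (h1 y hy).symm
    · rw [← h2, List.prod_inv_reverse]
    · rw [List.length_reverse, List.length_map, h3]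
  apply le_antisymm (key g)
  have := key g⁻¹
  rwa [inv_inv] at this

theorem q6_mul (hSg : Subgroup.closure S = ⊤) (g h : G) : wlen S (g * h) ≤ wlen S g + wlen S h := by
  obtain ⟨l, h1, h2, h3⟩ := q6_exists_word hSg g
  obtain ⟨l', h1', h2', h3'⟩ := q6_exists_word hSg h
  refine (q6_wlen_le S (l ++ l') ?_ ?_).trans (le_of_eq ?_)
  · intro x hx
    rcases List.mem_append.1 hx with h | h
    · exact h1 x h
    · exact h1' x h
  · rw [List.prod_append, h2, h2']
  · rw [List.length_append, h3, h3']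

theorem wdist_self (x : G) : wdist S x x = 0 := by
  rw [wdist, inv_mul_cancel, q6_one]

theorem wdist_comm (hSg : Subgroup.closure S = ⊤) (x y : G) : wdist S x y = wdist S y x := by
  rw [wdist, wdist, ← q6_inv hSg (x⁻¹ * y), mul_inv_rev, inv_inv]

theorem wdist_triangle (hSg : Subgroup.closure S = ⊤) (x y z : G) :
    wdist S x z ≤ wdist S x y + wdist S y z := by
  have h := q6_mul hSg (x⁻¹ * y) (y⁻¹ * z)
  have e : x⁻¹ * y * (y⁻¹ * z) = x⁻¹ * z := by group
  rw [e] at h
  exact h

theorem wdist_mul_left (g x y : G) : wdist S (g * x) (g * y) = wdist S x y := by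
  have e : (g * x)⁻¹ * (g * y) = x⁻¹ * y := by group
  rw [wdist, wdist, e]

theorem q6_gen {s : G} (hs : s ∈ S ∨ s⁻¹ ∈ S) (x : G) : wdist S x (x * s) ≤ 1 := by
  rw [wdist, inv_mul_cancel_left]
  refine (q6_wlen_le S [s] ?_ ?_).trans (le_of_eq rfl)
  · intro y hy
    rw [List.mem_singleton] at hy
    rw [hy]
    exact hs
  · simp

theorem wdist_gen {s : G} (hs : s ∈ S) (x : G) : wdist S x (x * s) ≤ 1 := q6_gen (Or.inl hs) x

theorem ball_finite (hS : S.Finite) (hSg : Subgroup.closure S = ⊤) (x : G) (n : ℕ) :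
    {y | wdist S x y ≤ n}.Finite := by
  refine (((properLen_wlen hS hSg).fin n).image (fun g => x * g)).subset ?_
  intro y hy
  exact ⟨x⁻¹ * y, hy, by group⟩

/-- a set with boundary near `L`: a point inside is near `L` if it is close to a point outside -/
theorem near_of_cross (hSg : Subgroup.closure S = ⊤) (W L : Set G) (r : ℕ)
    (hW : ∀ g, ∀ s ∈ S, (¬ (g ∈ W ↔ g * s ∈ W)) → g ∈ nbhd S r L)
    (x y : G) (hxy : ¬ (x ∈ W ↔ y ∈ W)) : x ∈ nbhd S (wdist S x y + r + 1) L := by
  have key : ∀ (l : List G), (∀ a ∈ l, a ∈ S ∨ a⁻¹ ∈ S) → ∀ x : G,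
      (¬ (x ∈ W ↔ x * l.prod ∈ W)) → x ∈ nbhd S (l.length + r + 1) L := by
    intro l
    induction l with
    | nil =>
      intro _ x hx
      exact absurd (by simp) hx
    | cons s l ih =>
      intro hl x hx
      have hs : s ∈ S ∨ s⁻¹ ∈ S := hl s (by simp)
      have hd := q6_gen hs x
      by_cases h : x ∈ W ↔ x * s ∈ W
      · have h2 : ¬ (x * s ∈ W ↔ x * s * l.prod ∈ W) := by
          intro h3
          apply hx
          rw [List.prod_cons, ← mul_assoc]
          exact h.trans h3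
        obtain ⟨p, hp, hp2⟩ := ih (fun a ha => hl a (by simp [ha])) (x * s) h2
        refine ⟨p, hp, ?_⟩
        have h3 := wdist_triangle hSg x (x * s) p
        rw [List.length_cons]
        omega
      · rcases hs with hs | hs
        · obtain ⟨p, hp, hp2⟩ := hW x s hs h
          refine ⟨p, hp, ?_⟩
          omega
        · obtain ⟨p, hp, hp2⟩ := hW (x * s) s⁻¹ hs (by
            intro h3
            apply h
            rw [mul_inv_cancel_right] at h3
            exact h3.symm)
          refine ⟨p, hp, ?_⟩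
          have h3 := wdist_triangle hSg x (x * s) p
          omega
  obtain ⟨l, h1, h2, h3⟩ := q6_exists_word hSg (x⁻¹ * y)
  have h4 := key l h1 x (by rw [h2, mul_inv_cancel_left]; exact hxy)
  rw [h3] at h4
  exact h4

/-- quasi-inverse -/
theorem exists_quasiInverse (hSg : Subgroup.closure S = ⊤) (hS'g : Subgroup.closure S' = ⊤)
    (K : ℕ) (F : G → H) (hF : IsQI S S' K F) :
    ∃ (K' : ℕ) (F' : H → G), IsQI S' S K' F' ∧ (∀ y, wdist S' (F (F' y)) y ≤ K') ∧
      (∀ x, wdist S (F' (F x)) x ≤ K') := by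
  obtain ⟨hF1, hF2, hF3⟩ := hF
  choose F' hF' using hF3
  have hK1 : K ≤ 2 * (K * K) + 3 * K := by nlinarith
  have hback : ∀ x, wdist S (F' (F x)) x ≤ K * K + K := by
    intro x
    refine (hF2 _ _).trans ?_
    have h1 : wdist S' (F (F' (F x))) (F x) ≤ K := by
      rw [wdist_comm hS'g]
      exact hF' (F x)
    exact Nat.add_le_add_right (Nat.mul_le_mul_left K h1) K
  refine ⟨2 * (K * K) + 3 * K, F', ⟨?_, ?_, ?_⟩, ?_, ?_⟩
  · intro x y
    have h1 := hF2 (F' x) (F' y)
    have h2 := wdist_triangle hS'g (F (F' x)) x (F (F' y))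
    have h3 := wdist_triangle hS'g x y (F (F' y))
    have h4 := hF' y
    have h5 : wdist S' (F (F' x)) x ≤ K := by
      rw [wdist_comm hS'g]
      exact hF' x
    have h6 : wdist S' (F (F' x)) (F (F' y)) ≤ K + (wdist S' x y + K) := by omega
    have h7 : K * wdist S' (F (F' x)) (F (F' y)) ≤ K * (K + (wdist S' x y + K)) :=
      Nat.mul_le_mul_left K h6
    have h8 : K * wdist S' x y ≤ (2 * (K * K) + 3 * K) * wdist S' x y := Nat.mul_le_mul_right _ hK1
    have h9 : K * (K + (wdist S' x y + K)) = 2 * (K * K) + K * wdist S' x y := by ring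
    omega
  · intro x y
    have h1 := hF1 (F' x) (F' y)
    have h2 := wdist_triangle hS'g x (F (F' x)) y
    have h3 := wdist_triangle hS'g (F (F' x)) (F (F' y)) y
    have h4 := hF' x
    have h5 : wdist S' (F (F' y)) y ≤ K := by
      rw [wdist_comm hS'g]
      exact hF' y
    have h8 : K * wdist S (F' x) (F' y) ≤ (2 * (K * K) + 3 * K) * wdist S (F' x) (F' y) :=
      Nat.mul_le_mul_right _ hK1
    omega
  · intro z
    refine ⟨F z, ?_⟩
    rw [wdist_comm hSg]
    refine (hback z).trans ?_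
    nlinarith
  · intro y
    rw [wdist_comm hS'g]
    exact (hF' y).trans hK1
  · intro x
    refine (hback x).trans ?_
    nlinarith

theorem IsQI.comp {J : Type} [Group J] {S'' : Set J} {K K' : ℕ} {F : G → H} {F' : H → J}
    (hF : IsQI S S' K F) (hF' : IsQI S' S'' K' F') (hS'' : Subgroup.closure S'' = ⊤) :
    IsQI S S'' (K * K' + K' + K' + K + K') (F' ∘ F) := by
  obtain ⟨a1, a2, a3⟩ := hF
  obtain ⟨b1, b2, b3⟩ := hF'
  refine ⟨?_, ?_, ?_⟩
  · intro x y
    have h1 := b1 (F x) (F y)
    have h2 := a1 x y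
    have h3 : K' * wdist S' (F x) (F y) ≤ K' * (K * wdist S x y + K) := Nat.mul_le_mul_left K' h2
    have h4 : K' * (K * wdist S x y + K) = (K * K') * wdist S x y + K * K' := by ring
    have h5 : (K * K') * wdist S x y ≤ (K * K' + K' + K' + K + K') * wdist S x y :=
      Nat.mul_le_mul_right _ (by omega)
    show wdist S'' (F' (F x)) (F' (F y)) ≤ _
    omega
  · intro x y
    have h1 := b2 (F x) (F y)
    have h2 := a2 x y
    have h3 : K * wdist S' (F x) (F y) ≤ K * (K' * wdist S'' (F' (F x)) (F' (F y)) + K') :=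
      Nat.mul_le_mul_left K h1
    have h4 : K * (K' * wdist S'' (F' (F x)) (F' (F y)) + K') =
      (K * K') * wdist S'' (F' (F x)) (F' (F y)) + K * K' := by ring
    have h5 : (K * K') * wdist S'' (F' (F x)) (F' (F y)) ≤
      (K * K' + K' + K' + K + K') * wdist S'' (F' (F x)) (F' (F y)) :=
      Nat.mul_le_mul_right _ (by omega)
    show wdist S x y ≤ (K * K' + K' + K' + K + K') * wdist S'' (F' (F x)) (F' (F y)) + _
    omega
  · intro z
    obtain ⟨y, hy⟩ := b3 z
    obtain ⟨x, hx⟩ := a3 y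
    refine ⟨x, ?_⟩
    have h1 := b1 y (F x)
    have h2 := wdist_triangle hS'' z (F' y) (F' (F x))
    have h3 : K' * wdist S' y (F x) ≤ K' * K := Nat.mul_le_mul_left K' hx
    have h4 : K' * K = K * K' := Nat.mul_comm _ _
    show wdist S'' z (F' (F x)) ≤ _
    omega

theorem IsQI.left (g : G) : IsQI S S 1 (fun x => g * x) := by
  refine ⟨?_, ?_, ?_⟩
  · intro x y
    rw [wdist_mul_left]
    omega
  · intro x y
    rw [wdist_mul_left]
    omega
  · intro z
    refine ⟨g⁻¹ * z, ?_⟩
    show wdist S z (g * (g⁻¹ * z)) ≤ 1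
    rw [mul_inv_cancel_left, wdist_self]
    omega

end Q6

end Pool.Agent.QIS
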