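import Pool.Agent.H67.Q.Tree
import Pool.Agent.H67.Q.Words

/-!
# Unbounded sides of a splitting; quasi-isometric images of one-ended groups
-/

namespace Pool.Agent.QIS

section Q5

/-! ### leaves of a tree -/

/-- along a walk that avoids `y` the side with respect to an edge at `y` does not change -/
theorem q5_walk_side {V : Type} {T : SimpleGraph V} {y z : V} {x u : V}
    (p : T.Walk x u) (hy : y ∉ p.support) : side T y z x ↔ side T y z u := by
  induction p with
  | nil => exact Iff.rfl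
  | @cons a b c h p ih =>
    rw [SimpleGraph.Walk.support_cons, List.mem_cons, not_or] at hy
    rw [← ih hy.2]
    apply side_adj h
    intro hEq
    have hm : y ∈ (s(a, b) : Sym2 V) := by rw [hEq]; exact Sym2.mem_mk_left y z
    rcases Sym2.mem_iff.1 hm with h1 | h1
    · exact hy.1 h1
    · exact hy.2 (h1 ▸ SimpleGraph.Walk.start_mem_support p)

/-- a second neighbour of `y` is farther from `u` -/
theorem q5_dist {V : Type} {T : SimpleGraph V} (hT : T.IsTree) {u y z z' : V}
    (hz : T.Adj y z) (hzu : ¬ side T y z u) (hz' : T.Adj y z') (hne : z' ≠ z) :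
    T.dist u y + 1 ≤ T.dist u z' := by
  have hs : side T y z z' := by
    rw [← side_adj hz' _]
    · exact side_self y z
    · intro hEq
      rcases Sym2.eq_iff.1 hEq with h | h
      · exact hne h.2
      · exact hz.ne h.1
  obtain ⟨p, hp⟩ := hT.connected.exists_walk_length_eq_dist z' u
  have hy : y ∈ p.support := by
    by_contra hy
    exact hzu ((q5_walk_side p hy).1 hs)
  classical
  have h1 := congrArg SimpleGraph.Walk.length (p.take_spec hy)
  rw [SimpleGraph.Walk.length_append] at h1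
  have h2 : T.dist z' y ≤ (p.takeUntil y hy).length := SimpleGraph.dist_le _
  have h3 : T.dist y u ≤ (p.dropUntil y hy).length := SimpleGraph.dist_le _
  have h4 : 0 < T.dist z' y := hT.connected.pos_dist_of_ne hz'.ne'
  rw [SimpleGraph.dist_comm (u := u) (v := y), SimpleGraph.dist_comm (u := u) (v := z')]
  omega

/-- `y` has exactly one neighbour -/
def q5_leaf {V : Type} (T : SimpleGraph V) (y : V) : Prop :=
  ∃ w, T.Adj y w ∧ ∀ z, T.Adj y z → z = w

theorem q5_leaf_smul {G : Type} [Group G] (E : Splitting G) (g : G) {y : E.V}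
    (hy : q5_leaf E.T y) : q5_leaf E.T (g • y) := by
  obtain ⟨w, hw, h⟩ := hy
  refine ⟨g • w, E.map_adj g hw, fun z hz => ?_⟩
  have h1 := E.map_adj g⁻¹ hz
  rw [inv_smul_smul] at h1
  rw [← h _ h1, smul_inv_smul]

/-- some edge of a splitting has two ends that are not leaves -/
theorem q5_no_leaf {G : Type} [Group G] (E : Splitting G)
    (hl : ∀ x y : E.V, E.T.Adj x y → q5_leaf E.T x ∨ q5_leaf E.T y) : False := by
  by_cases hall : ∀ x : E.V, q5_leaf E.T x
  · obtain ⟨w, hw, h⟩ := hall E.a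
    obtain ⟨w', hw', h'⟩ := hall E.b
    have hbw : E.b = w := h _ E.adj
    have haw : E.a = w' := h' _ E.adj.symm
    have hab : ∀ x : E.V, x = E.a ∨ x = E.b := by
      intro x
      by_cases hx : E.a = x
      · exact Or.inl hx.symm
      · obtain ⟨z, hz, hzx⟩ := exists_first E.tree hx
        have hzb : z = E.b := by rw [hbw]; exact h z hz
        right
        by_contra hxb
        obtain ⟨y, hy, hyx⟩ := exists_first E.tree (Ne.symm hxb)
        have hya : y = E.a := by rw [haw]; exact h' y hy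
        rw [hzb] at hzx
        rw [hya] at hyx
        exact hyx ((side_swap E.tree E.adj x).2 hzx)
    obtain ⟨g, hg⟩ := E.no_fix E.a
    have hgb : g • E.a = E.b := (hab _).resolve_left hg
    have hadj := E.map_adj g E.adj
    rw [hgb] at hadj
    have hgb' : g • E.b = E.a := (hab _).resolve_right (fun h0 => hadj.ne h0.symm)
    exact E.no_inv g E.adj ⟨hgb, hgb'⟩
  · push Not at hall
    obtain ⟨w, hw⟩ := hall
    have huniq : ∀ x, ¬ q5_leaf E.T x → x = w := by
      intro x hx
      by_contra hne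
      obtain ⟨z, hz, hzw⟩ := exists_first E.tree hne
      have hzl : q5_leaf E.T z := (hl x z hz).resolve_left hx
      have hzw' : z ≠ w := fun h0 => hw (h0 ▸ hzl)
      obtain ⟨y, hy, hyw⟩ := exists_first E.tree hzw'
      obtain ⟨v, hv, huniq⟩ := hzl
      have h1 : y = x := (huniq y hy).trans (huniq x hz.symm).symm
      rw [h1] at hyw
      exact hyw ((side_swap E.tree hz w).2 hzw)
    obtain ⟨g, hg⟩ := E.no_fix w
    apply hg
    apply huniq
    intro hgl
    have := q5_leaf_smul E g⁻¹ hgl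
    rw [inv_smul_smul] at this
    exact hw this

theorem q5_unbdd {G : Type} [Group G] (E : Splitting G) {u v : E.V}
    (huv : E.T.Adj u v) : Unbdd E.T {x | ¬ side E.T u v x} := by
  intro x0 n
  by_contra hcon
  push Not at hcon
  have hb : ¬ side E.T u v v := not_side_other E.tree huv
  have hbd : ∀ y, ¬ side E.T u v y → E.T.dist u y ≤ E.T.dist u x0 + n := by
    intro y hy
    have h1 := hcon y hy
    have h2 := E.tree.connected.dist_triangle (u := u) (v := x0) (w := y)
    omega
  -- a farthest vertex beyond the edge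
  obtain ⟨y, hy, hmax⟩ : ∃ y, ¬ side E.T u v y ∧
      ∀ y', ¬ side E.T u v y' → E.T.dist u y' ≤ E.T.dist u y := by
    classical
    let P : ℕ → Prop := fun m => ∃ y, ¬ side E.T u v y ∧ E.T.dist u y = m
    have hP : P (E.T.dist u v) := ⟨v, hb, rfl⟩
    have hle := hbd v hb
    have hs := Nat.findGreatest_spec (P := P) hle hP
    obtain ⟨y, hy, hyd⟩ := hs
    refine ⟨y, hy, fun y' hy' => ?_⟩
    rw [hyd]
    exact Nat.le_findGreatest (hbd y' hy') ⟨y', hy', rfl⟩
  have hyu : y ≠ u := by
    rintro rfl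
    exact hy (side_self _ _)
  obtain ⟨z, hz, hzu⟩ := exists_first E.tree hyu
  -- y is a leaf
  have hleaf : q5_leaf E.T y := by
    refine ⟨z, hz, fun z' hz' => ?_⟩
    by_contra hne
    have h1 := q5_dist E.tree hz hzu hz' hne
    have h2 : ¬ side E.T u v z' := by
      rw [← side_adj hz' _]
      · exact hy
      · intro hEq
        rcases Sym2.eq_iff.1 hEq with h | h
        · exact hyu h.1
        · rw [h.2, SimpleGraph.dist_self] at h1
          omega
    have h3 := hmax z' h2
    omega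
  apply q5_no_leaf E
  -- every edge is a translate of the edge {y, z}
  intro p q hpq
  obtain ⟨g, hg⟩ := E.edge_trans hpq
  obtain ⟨k, hk⟩ := E.edge_trans hz
  have key : q5_leaf E.T (g • E.a) ∨ q5_leaf E.T (g • E.b) := by
    rcases hk with ⟨h1, _⟩ | ⟨_, h2⟩
    · left
      have h3 := q5_leaf_smul E (g * k⁻¹) hleaf
      rw [← h1, mul_smul, inv_smul_smul] at h3
      exact h3
    · right
      have h3 := q5_leaf_smul E (g * k⁻¹) hleaf
      rw [← h2, mul_smul, inv_smul_smul] at h3
      exact h3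
  rcases hg with ⟨h1, h2⟩ | ⟨h1, h2⟩
  · rw [h1, h2] at key
    exact key
  · rw [h1, h2] at key
    exact key.symm

/-- both sides of the base edge of a splitting are unbounded -/
theorem Splitting.unbdd {G : Type} [Group G] (E : Splitting G) :
    Unbdd E.T {x | side E.T E.a E.b x} ∧ Unbdd E.T {x | ¬ side E.T E.a E.b x} := by
  refine ⟨?_, q5_unbdd E E.adj⟩
  have h := q5_unbdd E E.adj.symm
  intro x n
  obtain ⟨y, hy, hd⟩ := h x n
  refine ⟨y, ?_, hd⟩
  have hy' : ¬ side E.T E.b E.a y := hy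
  rw [side_swap E.tree E.adj] at hy'
  exact not_not.1 hy'

/-! ### sets with finite boundary -/

/-- the boundary of `W` in the Cayley graph -/
def q5_bd {G : Type} [Group G] (S : Set G) (W : Set G) : Set G :=
  {g | ∃ s ∈ S, ¬ (g ∈ W ↔ g * s ∈ W)}

theorem q5_bd_compl {G : Type} [Group G] (S : Set G) (W : Set G) :
    q5_bd S Wᶜ = q5_bd S W := by
  ext g
  unfold q5_bd
  simp only [Set.mem_ofPred_eq, Set.mem_compl_iff, not_iff_not]

/-- a set with finite boundary in a one-ended group is finite or cofinite -/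
theorem q5_crit {G : Type} [Group G] {S : Set G} (hone : OneEnded S) (W : Set G)
    (hW : (q5_bd S W).Finite) : W.Finite ∨ Wᶜ.Finite := by
  obtain ⟨E, hE, hj⟩ := hone.2 _ hW
  have hconst : ∀ x y : G, JoinedOff S (q5_bd S W) x y → (x ∈ W ↔ y ∈ W) := by
    intro x y h
    induction h with
    | refl => exact Iff.rfl
    | @tail b c _ h ih =>
      rw [ih]
      obtain ⟨⟨s, hs, h1⟩, hb, hc⟩ := h
      rcases h1 with rfl | rfl
      · by_contra hne
        exact hb ⟨s, hs, hne⟩
      · by_contra hne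
        exact hc ⟨s, hs, fun h0 => hne h0.symm⟩
  by_cases hx : ∃ x, x ∉ E ∧ x ∈ W
  · obtain ⟨x, hxE, hxW⟩ := hx
    right
    refine hE.subset fun y hy => ?_
    by_contra hyE
    exact hy ((hconst x y (hj x hxE y hyE)).1 hxW)
  · left
    refine hE.subset fun y hy => ?_
    by_contra hyE
    exact hx ⟨y, hyE, hy⟩

variable {G H : Type} [Group G] [Group H]

theorem q5_nbhd_finite {S : Set G} (hS : S.Finite) (hSg : Subgroup.closure S = ⊤)
    {L : Set G} (hL : L.Finite) (R : ℕ) : (nbhd S R L).Finite := by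
  have h : nbhd S R L ⊆ ⋃ l ∈ L, {y | wdist S l y ≤ R} := by
    rintro g ⟨l, hl, hd⟩
    simp only [Set.mem_iUnion]
    exact ⟨l, hl, by rw [Set.mem_ofPred_eq, wdist_comm hSg]; exact hd⟩
  exact (hL.biUnion fun l _ => ball_finite hS hSg l R).subset h

/-- pull back of a set with finite boundary by a quasi-isometry has finite boundary -/
theorem q5_pull {S : Set G} {S' : Set H} (hS : S.Finite) (hS' : S'.Finite)
    (hSg : Subgroup.closure S = ⊤) (hS'g : Subgroup.closure S' = ⊤)
    {K : ℕ} {F : G → H} (hF : IsQI S S' K F) (W : Set H) (hW : (q5_bd S' W).Finite) :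
    (q5_bd S (F ⁻¹' W)).Finite := by
  have hN : (nbhd S' (K + K + 0 + 1) (q5_bd S' W)).Finite := q5_nbhd_finite hS' hS'g hW _
  -- F is finite-to-one
  have hpre : (F ⁻¹' nbhd S' (K + K + 0 + 1) (q5_bd S' W)).Finite := by
    apply hN.preimage' 
    intro h _
    by_cases hne : ∃ g0, F g0 = h
    · obtain ⟨g0, hg0⟩ := hne
      refine (ball_finite hS hSg g0 K).subset fun g hg => ?_
      have h1 := hF.2.1 g0 g
      have h2 : F g = h := hg
      rw [hg0, h2, wdist_self, mul_zero, zero_add] at h1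
      exact h1
    · convert Set.finite_empty
      ext g
      simp only [Set.mem_preimage, Set.mem_singleton_iff, Set.mem_empty_iff_false, iff_false]
      exact fun h0 => hne ⟨g, h0⟩
  refine hpre.subset ?_
  rintro g ⟨s, hs, hgs⟩
  have h1 := near_of_cross hS'g W (q5_bd S' W) 0 (fun g s hs hne =>
    ⟨g, ⟨s, hs, hne⟩, (wdist_self g).le⟩) (F g) (F (g * s)) hgs
  obtain ⟨l, hl, hd⟩ := h1
  refine ⟨l, hl, hd.trans ?_⟩
  have h2 := hF.1 g (g * s)
  have h3 := wdist_gen hs g
  have h4 : K * wdist S g (g * s) ≤ K * 1 := Nat.mul_le_mul_left K h3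
  omega

theorem q5_push {S : Set G} {S' : Set H} (hS' : S'.Finite)
    (hS'g : Subgroup.closure S' = ⊤)
    {K : ℕ} {F : G → H} (hF : IsQI S S' K F) (W : Set H) (hW : (q5_bd S' W).Finite)
    (hfin : (F ⁻¹' W).Finite) : W.Finite := by
  have h1 : (nbhd S' K (F '' (F ⁻¹' W))).Finite := q5_nbhd_finite hS' hS'g (hfin.image F) K
  have h2 : (nbhd S' (K + 0 + 1) (q5_bd S' W)).Finite := q5_nbhd_finite hS' hS'g hW _
  refine (h1.union h2).subset fun w hw => ?_
  obtain ⟨x, hx⟩ := hF.2.2 w
  by_cases hxW : F x ∈ W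
  · left
    exact ⟨F x, ⟨x, hxW, rfl⟩, hx⟩
  · right
    obtain ⟨l, hl, hd⟩ := near_of_cross hS'g W (q5_bd S' W) 0 (fun g s hs hne =>
      ⟨g, ⟨s, hs, hne⟩, (wdist_self g).le⟩) w (F x) (fun h0 => hxW (h0.1 hw))
    exact ⟨l, hl, by omega⟩

/-- in a group quasi-isometric to a one-ended group sets with finite boundary are finite or
cofinite -/
theorem q5_crit' {S : Set G} {S' : Set H} (hS : S.Finite) (hS' : S'.Finite)
    (hSg : Subgroup.closure S = ⊤) (hS'g : Subgroup.closure S' = ⊤)
    (hone : OneEnded S) {K : ℕ} {F : G → H} (hF : IsQI S S' K F) (W : Set H)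
    (hW : (q5_bd S' W).Finite) : W.Finite ∨ Wᶜ.Finite := by
  rcases q5_crit hone _ (q5_pull hS hS' hSg hS'g hF W hW) with h | h
  · exact Or.inl (q5_push hS' hS'g hF W hW h)
  · right
    apply q5_push hS' hS'g hF Wᶜ
    · rw [q5_bd_compl]; exact hW
    · rw [Set.preimage_compl]; exact h

/-! ### the edge group is infinite -/

/-- near each vertex there is a translate of the base vertex -/
theorem q5_near (E : Splitting H) (y : E.V) :
    ∃ g : H, g • E.a = y ∨ E.T.Adj (g • E.a) y := by
  by_cases hy : E.a = y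
  · exact ⟨1, Or.inl (by rw [one_smul]; exact hy)⟩
  · obtain ⟨z, hz, _⟩ := exists_first E.tree (Ne.symm hy)
    obtain ⟨g, hg⟩ := E.edge_trans hz
    rcases hg with ⟨h1, _⟩ | ⟨h1, _⟩
    · exact ⟨g, Or.inl h1⟩
    · exact ⟨g, Or.inr (by rw [h1]; exact hz.symm)⟩

/-- a set of group elements which contains everything on one side is infinite -/
theorem q5_inf (E : Splitting H) (P : E.V → Prop) (hP : Unbdd E.T {x | P x})
    (hadj : ∀ x y, E.T.Adj x y → s(x, y) ≠ s(E.a, E.b) → (P x ↔ P y)) :
    ¬ {h : H | P (h • E.a)}.Finite := by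
  intro hfin
  obtain ⟨M, hM⟩ := (hfin.image fun h => E.T.dist E.a (h • E.a)).bddAbove
  obtain ⟨y, hy, hd⟩ := hP E.a (M + 3)
  obtain ⟨g, hg⟩ := q5_near E y
  have hPg : P (g • E.a) ∧ M + 2 ≤ E.T.dist E.a (g • E.a) := by
    rcases hg with h | h
    · rw [h]
      exact ⟨hy, by omega⟩
    · have h1 : E.T.dist E.a y ≤ E.T.dist E.a (g • E.a) + E.T.dist (g • E.a) y :=
        E.tree.connected.dist_triangle
      have h2 : E.T.dist (g • E.a) y = 1 := SimpleGraph.dist_eq_one_iff_adj.2 h
      refine ⟨(hadj _ _ h ?_).2 hy, by omega⟩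
      intro hEq
      have h3 : y = E.a ∨ y = E.b := by
        rcases Sym2.eq_iff.1 hEq with h4 | h4
        · exact Or.inr h4.2
        · exact Or.inl h4.2
      have h5 : E.T.dist E.a E.b = 1 := SimpleGraph.dist_eq_one_iff_adj.2 E.adj
      rcases h3 with h4 | h4
      · rw [h4, SimpleGraph.dist_self] at hd
        omega
      · rw [h4] at hd
        omega
  have h6 := hM ⟨g, hPg.1, rfl⟩
  have h7 : E.T.dist E.a (g • E.a) ≤ M := h6
  omega

theorem q5_bd_finite (E : Splitting H) {S' : Set H} (hS' : S'.Finite)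
    (hfin : Finite E.edgeGroup) :
    (q5_bd S' {h : H | side E.T E.a E.b (h • E.a)}).Finite := by
  -- finitely many elements move the base edge to a given edge
  have hcos : ∀ p : E.V × E.V, {h : H | (h⁻¹ • E.a, h⁻¹ • E.b) = p}.Finite := by
    intro p
    by_cases hne : ∃ h0 : H, (h0⁻¹ • E.a, h0⁻¹ • E.b) = p
    · obtain ⟨h0, hh0⟩ := hne
      have hset : {h : H | (h⁻¹ • E.a, h⁻¹ • E.b) = p} ⊆
          (fun k : H => k * h0) '' (E.edgeGroup : Set H) := by
        intro h hh
        have h1 : (h⁻¹ • E.a, h⁻¹ • E.b) = (h0⁻¹ • E.a, h0⁻¹ • E.b) := by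
          rw [hh0]; exact hh
        rw [Prod.mk.injEq] at h1
        refine ⟨h * h0⁻¹, ?_, by simp⟩
        refine Subgroup.mem_inf.2 ⟨?_, ?_⟩
        · rw [MulAction.mem_stabilizer_iff, mul_smul, ← h1.1, smul_inv_smul]
        · rw [MulAction.mem_stabilizer_iff, mul_smul, ← h1.2, smul_inv_smul]
      exact ((Set.toFinite (E.edgeGroup : Set H)).image _).subset hset
    · convert Set.finite_empty
      ext h
      simp only [Set.mem_ofPred_eq, Set.mem_empty_iff_false, iff_false]
      exact fun h0 => hne ⟨h, h0⟩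
  have hbig : (⋃ s ∈ S', ⋃ p ∈ ({p : E.V × E.V | E.T.Adj p.1 p.2 ∧ side E.T p.1 p.2 E.a ∧
      ¬ side E.T p.1 p.2 (s • E.a)} ∪ {p : E.V × E.V | E.T.Adj p.1 p.2 ∧
      side E.T p.1 p.2 (s • E.a) ∧ ¬ side E.T p.1 p.2 E.a}),
      {h : H | (h⁻¹ • E.a, h⁻¹ • E.b) = p}).Finite := by
    refine hS'.biUnion fun s _ => ?_
    exact ((side_finite E.tree _ _).union (side_finite E.tree _ _)).biUnion fun p _ => hcos p
  refine hbig.subset ?_
  rintro h ⟨s, hs, hne⟩
  have h1 : ∀ x : E.V, side E.T E.a E.b (h • x) ↔ side E.T (h⁻¹ • E.a) (h⁻¹ • E.b) x := by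
    intro x
    have := side_map (T := E.T) (fun (g : H) {x y : E.V} hxy => E.map_adj g hxy) h⁻¹ E.a E.b
      (h • x)
    rw [inv_smul_smul] at this
    exact this.symm
  simp only [Set.mem_ofPred_eq, mul_smul, h1] at hne
  simp only [Set.mem_iUnion]
  refine ⟨s, hs, (h⁻¹ • E.a, h⁻¹ • E.b), ?_, rfl⟩
  have hadj := E.map_adj h⁻¹ E.adj
  by_cases hc : side E.T (h⁻¹ • E.a) (h⁻¹ • E.b) E.a
  · left
    exact ⟨hadj, hc, fun h0 => hne ⟨fun _ => h0, fun _ => hc⟩⟩
  · right
    refine ⟨hadj, ?_, hc⟩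
    by_contra h0
    exact hne ⟨fun h2 => absurd h2 hc, fun h2 => absurd h2 h0⟩

/-- edge group of a splitting of a group quasi-isometric to a one-ended group is infinite -/
theorem infinite_edgeGroup (S : Set G) (S' : Set H) (hS : S.Finite) (hS' : S'.Finite)
    (hSg : Subgroup.closure S = ⊤) (hS'g : Subgroup.closure S' = ⊤)
    (hone : OneEnded S) (K : ℕ) (F : G → H) (hF : IsQI S S' K F) (E : Splitting H) :
    Infinite E.edgeGroup := by
  by_contra hinf
  have hfin : Finite E.edgeGroup := not_infinite_iff_finite.1 hinf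
  have hub := E.unbdd
  rcases q5_crit' hS hS' hSg hS'g hone hF _ (q5_bd_finite E hS' hfin) with h | h
  · exact q5_inf E (fun x => side E.T E.a E.b x) hub.1 (fun x y hxy hne => side_adj hxy hne) h
  · exact q5_inf E (fun x => ¬ side E.T E.a E.b x) hub.2
      (fun x y hxy hne => not_congr (side_adj hxy hne)) h

end Q5

end Pool.Agent.QIS
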