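import Pool.Agent.H67.Q.Alpha

set_option autoImplicit false
set_option linter.unusedSectionVars false

/-!
Rooted codes with sides (MP_a46c6f_co): families of points.
-/

namespace Pool.Agent.H67.Q

open Pool.Agent.H98.Code Pool.Agent.H17.TR Pool.Agent.H6.P4 Pool.Agent.H77.Q

section
variable {X : Type} [Fintype X] [DecidableEq X]
variable {B : Submodule (ZMod 2) (X → K)} {H : X → X → ZMod 2} {e : X} {M : X → X → ZMod 2}
  {S : (X → K) → Finset X → Prop}

/-- the first coordinates of the word of a family of points -/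
def sm (M : X → X → ZMod 2) {n : ℕ} (p : Fin n → X) : X → ZMod 2 := fun y => ∑ i, M (p i) y

/-- a closed family of points -/
structure Fam (M : X → X → ZMod 2) (e : X) {n : ℕ} (p : Fin n → X) : Prop where
  even : ((n : ℕ) : ZMod 2) = 0
  pos : 0 < n
  inj : Function.Injective p
  ne : ∀ i, p i ≠ e
  cl : ∀ j, ∑ i, M (p i) (p j) = 1

/-- the hypotheses on `M` -/
structure Inv (H : X → X → ZMod 2) (e : X) (M : X → X → ZMod 2) : Prop where
  hs : ∀ u v, H u v = H v u
  h0 : ∀ x, M x e = 0
  hl : ∀ x v, Lap H (M x) v = (if v = x then 1 else 0) + (if v = e then 1 else 0)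

theorem lap_comb (hI : Inv H e M) {n : ℕ} (p : Fin n → X) (α : Fin n → ZMod 2) (v : X) :
    Lap H (fun y => ∑ i, α i * M (p i) y) v =
      ∑ i, α i * ((if v = p i then 1 else 0) + (if v = e then 1 else 0)) := by
  have h1 : ∀ v, Lap H (fun y => ∑ i, α i * M (p i) y) v = ∑ i, α i * Lap H (M (p i)) v := by
    intro v
    unfold Lap
    have h2 : ∀ w, H v w * ((∑ i, α i * M (p i) v) + ∑ i, α i * M (p i) w) =
        ∑ i, α i * (H v w * (M (p i) v + M (p i) w)) := by
      intro w
      rw [← Finset.sum_add_distrib, Finset.mul_sum]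
      exact Finset.sum_congr rfl fun i _ => by ring
    rw [Finset.sum_congr rfl fun w _ => h2 w, Finset.sum_comm]
    exact Finset.sum_congr rfl fun i _ => (Finset.mul_sum _ _ _).symm
  rw [h1]
  exact Finset.sum_congr rfl fun i _ => by rw [hI.hl]

theorem lap_sm (hI : Inv H e M) {n : ℕ} {p : Fin n → X} (hF : Fam M e p) (v : X) :
    Lap H (sm M p) v = ∑ i, (if v = p i then 1 else 0) := by
  have h1 := lap_comb hI p (fun _ => 1) v
  simp only [one_mul, Finset.sum_add_distrib] at h1
  have h2 : ∑ _i : Fin n, (if v = e then (1 : ZMod 2) else 0) = 0 := by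
    rw [Finset.sum_const, Finset.card_univ, Fintype.card_fin, nsmul_eq_mul, hF.even, zero_mul]
  rw [h2, add_zero] at h1
  exact h1

theorem lap_sm_at (hI : Inv H e M) {n : ℕ} {p : Fin n → X} (hF : Fam M e p) (j : Fin n) :
    Lap H (sm M p) (p j) = 1 := by
  rw [lap_sm hI hF, Finset.sum_eq_single j]
  · rw [if_pos rfl]
  · intro i _ hi
    rw [if_neg]
    intro h
    exact hi (hF.inj h).symm
  · intro h
    exact absurd (Finset.mem_univ j) h

theorem lap_sm_off (hI : Inv H e M) {n : ℕ} {p : Fin n → X} (hF : Fam M e p) {v : X}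
    (hv : ∀ j, v ≠ p j) : Lap H (sm M p) v = 0 := by
  rw [lap_sm hI hF]
  exact Finset.sum_eq_zero fun i _ => by rw [if_neg (hv i)]

theorem sm_at {n : ℕ} {p : Fin n → X} (hF : Fam M e p) (j : Fin n) : sm M p (p j) = 1 := hF.cl j

theorem sm_e (hI : Inv H e M) {n : ℕ} (p : Fin n → X) : sm M p e = 0 :=
  Finset.sum_eq_zero fun i _ => hI.h0 (p i)

theorem w_at (hI : Inv H e M) {n : ℕ} {p : Fin n → X} (hF : Fam M e p) (j : Fin n) :
    wd H (sm M p) (p j) ≠ 0 := by
  intro h
  have := congrArg Prod.fst h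
  have h2 : sm M p (p j) = 0 := this
  rw [sm_at hF] at h2
  exact one_ne_zero h2

theorem w_e (hI : Inv H e M) {n : ℕ} {p : Fin n → X} (hF : Fam M e p) : wd H (sm M p) e = 0 :=
  zero_of_lap (sm_e hI p) (lap_sm_off hI hF fun j h => hF.ne j h.symm)

theorem w_off (hI : Inv H e M) {n : ℕ} {p : Fin n → X} (hF : Fam M e p) {v : X}
    (hv : ∀ j, v ≠ p j) (h : wd H (sm M p) v ≠ 0) : wd H (sm M p) v = om H v :=
  (wd_zero_or_om (lap_sm_off hI hF hv)).resolve_left h

theorem w_zfree (hI : Inv H e M) {n : ℕ} {p : Fin n → X} (hF : Fam M e p) :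
    ZFree (wd H (sm M p)) := by
  intro v hv
  have h3 := lap_of_z hv
  by_cases h : ∃ j, v = p j
  · obtain ⟨j, rfl⟩ := h
    rw [sm_at hF] at h3
    exact one_ne_zero h3.1
  · push Not at h
    rw [lap_sm_off hI hF h] at h3
    exact zero_ne_one h3.2

theorem w_ne (hI : Inv H e M) {n : ℕ} {p : Fin n → X} (hF : Fam M e p) : wd H (sm M p) ≠ 0 := by
  intro h
  exact w_at hI hF ⟨0, hF.pos⟩ (by rw [h]; rfl)

theorem w_zero_iff (hI : Inv H e M) {n : ℕ} {p : Fin n → X} (hF : Fam M e p) {v : X}
    (h : wd H (sm M p) v = 0) : ∀ j, v ≠ p j := by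
  intro j hj
  rw [hj] at h
  exact w_at hI hF j h

/-- sums over `X` of a function which is supported in `g` and the points -/
theorem sum_pts {n : ℕ} {p : Fin n → X} (hp : Function.Injective p) {g : X} (hgp : ∀ j, g ≠ p j)
    (F : X → ZMod 2) (hF : ∀ v, v ≠ g → (∀ j, v ≠ p j) → F v = 0) :
    ∑ v, F v = F g + ∑ i, F (p i) := by
  have h1 : ∑ v ∈ insert g (Finset.univ.image p), F v = ∑ v, F v := by
    apply Finset.sum_subset (Finset.subset_univ _)
    intro v _ hv
    rw [Finset.mem_insert, not_or, Finset.mem_image] at hv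
    apply hF v hv.1
    intro j hj
    exact hv.2 ⟨j, Finset.mem_univ j, hj.symm⟩
  rw [← h1, Finset.sum_insert, Finset.sum_image]
  · intro i _ j _ h
    exact hp h
  · rw [Finset.mem_image]
    rintro ⟨j, _, hj⟩
    exact hgp j hj.symm

theorem sum_pts0 {n : ℕ} {p : Fin n → X} (hp : Function.Injective p)
    (F : X → ZMod 2) (hF : ∀ v, (∀ j, v ≠ p j) → F v = 0) : ∑ v, F v = ∑ i, F (p i) := by
  have h1 : ∑ v ∈ Finset.univ.image p, F v = ∑ v, F v := by
    apply Finset.sum_subset (Finset.subset_univ _)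
    intro v _ hv
    rw [Finset.mem_image] at hv
    apply hF v
    intro j hj
    exact hv ⟨j, Finset.mem_univ j, hj.symm⟩
  rw [← h1, Finset.sum_image]
  intro i _ j _ h
  exact hp h

/-- the words below the word of a closed family -/
theorem sub_fam (hH : IsMat B H) (hI : Inv H e M) {n : ℕ} {p : Fin n → X} (hF : Fam M e p)
    {d : X → K} (hd : d ∈ B) (hle : ∀ v, d v = 0 ∨ d v = wd H (sm M p) v) :
    ∃ α : Fin n → ZMod 2, ∑ i, α i = 0 ∧ (∀ j, ∑ i, α i * M (p i) (p j) = α j) ∧
      ∀ y, (d y).1 = ∑ i, α i * M (p i) y := by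
  set f : X → ZMod 2 := fun v => (d v).1 with hf
  have hdf : d = wd H f := eq_wd hH hd
  have hde : d e = 0 := by
    rcases hle e with h | h
    · exact h
    · rw [h]; exact w_e hI hF
  have hfe : f e = 0 := by show (d e).1 = 0; rw [hde]; rfl
  have hoff : ∀ v, (∀ j, v ≠ p j) → Lap H f v = 0 := by
    intro v hv
    rcases hle v with h | h
    · rw [hdf] at h; exact (lap_of_zero h).2
    · rw [hdf] at h
      have h1 : f v = sm M p v := congrArg Prod.fst h
      have h2 := lap_wd H f v
      rw [h, ← lap_wd, lap_sm_off hI hF hv] at h2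
      exact h2
  have hat : ∀ j, f (p j) = Lap H f (p j) := by
    intro j
    rcases hle (p j) with h | h
    · rw [hdf] at h; rw [(lap_of_zero h).1, (lap_of_zero h).2]
    · rw [hdf] at h
      have h1 : f (p j) = sm M p (p j) := congrArg Prod.fst h
      have h2 := lap_wd H f (p j)
      rw [h, ← lap_wd, lap_sm_at hI hF j] at h2
      rw [h1, h2, sm_at hF]
  have hrec : ∀ y, f y = ∑ i, Lap H f (p i) * M (p i) y := by
    intro y
    rw [recon hI.hs hI.h0 hI.hl f hfe y, sum_pts0 hF.inj (fun v => Lap H f v * M v y)]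
    intro v hv
    rw [hoff v hv, zero_mul]
  refine ⟨fun i => Lap H f (p i), ?_, ?_, hrec⟩
  · have h1 := sum_lap hI.hs f
    rw [sum_pts0 hF.inj (fun v => Lap H f v) hoff] at h1
    exact h1
  · intro j
    rw [← hrec (p j)]
    exact hat j

/-- the facts at a splitting point, or at an own place -/
structure Al (M : X → X → ZMod 2) {n : ℕ} (p : Fin n → X) (g : X) (α : Fin n → ZMod 2) : Prop where
  sum : ∑ i, α i = 1
  at' : ∀ j, M g (p j) = α j + ∑ i, α i * M (p i) (p j)

/-- the splitting of a closed family of points -/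
theorem core' (hH : IsMat B H) (hI : Inv H e M) {n : ℕ} {p : Fin n → X} (hF : Fam M e p) {g : X}
    (hsp : Splits B (wd H (sm M p)) g) :
    ∃ α : Fin n → ZMod 2, Al M p g α ∧ (M g g = ∑ i, α i * M (p i) g) ∧
      ∀ y, ∑ i, M (p i) y = 0 → M g y = ∑ i, α i * M (p i) y := by
  obtain ⟨c₁, hc₁, c₂, hc₂, hs0, hg1', hg2', hd'⟩ := hsp
  set f₁ : X → ZMod 2 := fun v => (c₁ v).1 with hf1def
  set f₂ : X → ZMod 2 := fun v => (c₂ v).1 with hf2def
  have e1 : c₁ = wd H f₁ := eq_wd hH hc₁
  have e2 : c₂ = wd H f₂ := eq_wd hH hc₂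
  have hg1 : wd H f₁ g = z := by rw [← e1]; exact hg1'
  have hg2 : wd H f₂ g = z := by rw [← e2]; exact hg2'
  have hd : ∀ v, v ≠ g → wd H f₁ v = 0 ∨ wd H f₂ v = 0 := by rw [← e1, ← e2]; exact hd'
  have hs : f₁ + f₂ = sm M p := by
    funext v
    exact congrArg Prod.fst (congrFun hs0 v)
  have hsum : ∀ v, f₁ v + f₂ v = sm M p v := fun v => congrFun hs v
  have hlsum : ∀ v, Lap H f₁ v + Lap H f₂ v = Lap H (sm M p) v := by
    intro v
    rw [← hs, lap_add]
  have hgp : ∀ j, g ≠ p j := by
    intro j hj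
    have h1 := hsum g
    rw [(lap_of_z hg1).1, (lap_of_z hg2).1, hj] at h1
    have h2 : sm M p (p j) = 1 := hF.cl j
    rw [← h1] at h2
    exact absurd h2 (by decide)
  have hout : ∀ v, v ≠ g → (∀ j, v ≠ p j) → Lap H f₁ v = 0 := by
    intro v hv hvp
    rcases hd v hv with h1 | h1
    · exact (lap_of_zero h1).2
    · have h2 := hlsum v
      rw [(lap_of_zero h1).2, lap_sm_off hI hF hvp, add_zero] at h2
      exact h2
  have hfe : f₁ e = 0 := by
    by_cases hge : e = g
    · rw [hge]
      exact (lap_of_z hg1).1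
    · rcases hd e hge with h1 | h1
      · exact (lap_of_zero h1).1
      · have h2 := hsum e
        rw [(lap_of_zero h1).1, sm_e hI, add_zero] at h2
        exact h2
  have hf1 : ∀ y, f₁ y = M g y + ∑ i, Lap H f₁ (p i) * M (p i) y := by
    intro y
    rw [recon hI.hs hI.h0 hI.hl f₁ hfe y, sum_pts hF.inj hgp (fun v => Lap H f₁ v * M v y),
      (lap_of_z hg1).2, one_mul]
    intro v hv hvp
    rw [hout v hv hvp, zero_mul]
  refine ⟨fun i => Lap H f₁ (p i), ⟨?_, ?_⟩, ?_, ?_⟩
  · have h1 := sum_lap hI.hs f₁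
    rw [sum_pts hF.inj hgp (fun v => Lap H f₁ v) hout, (lap_of_z hg1).2] at h1
    revert h1
    generalize (∑ i, Lap H f₁ (p i)) = A
    revert A
    decide
  · intro j
    have h1 := hf1 (p j)
    have h2 : sm M p (p j) = 1 := hF.cl j
    have h3 := hsum (p j)
    have h4 := hlsum (p j)
    rw [lap_sm_at hI hF] at h4
    rcases hd (p j) (hgp j).symm with h5 | h5
    · rw [(lap_of_zero h5).1] at h1
      beta_reduce
      rw [(lap_of_zero h5).2, zero_add]
      exact (CharTwo.add_eq_zero.1 h1.symm)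
    · rw [(lap_of_zero h5).1, add_zero, h2] at h3
      rw [(lap_of_zero h5).2, add_zero] at h4
      rw [h3] at h1
      beta_reduce
      rw [h4]
      revert h1
      generalize (∑ i, Lap H f₁ (p i) * M (p i) (p j)) = A
      generalize M g (p j) = B
      revert A B
      decide
  · have h1 := hf1 g
    rw [(lap_of_z hg1).1] at h1
    exact (CharTwo.add_eq_zero.1 h1.symm)
  · intro y hy
    have h1 := hf1 y
    have h2 : f₁ y = 0 := by
      by_cases hyg : y = g
      · rw [hyg]
        exact (lap_of_z hg1).1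
      · rcases hd y hyg with h3 | h3
        · exact (lap_of_zero h3).1
        · have h4 := hsum y
          have h5 : sm M p y = 0 := hy
          rw [(lap_of_zero h3).1, h5, add_zero] at h4
          exact h4
    rw [h2] at h1
    exact (CharTwo.add_eq_zero.1 h1.symm)

/-- the facts at an own place of the side -/
theorem side_al (hH : IsMat B H) (hI : Inv H e M) (hS : RSides B e S) {n : ℕ} {p : Fin n → X}
    (hF : Fam M e p) {Y : Finset X} (hY : S (wd H (sm M p)) Y) {y : X} (hy : y ∈ Y)
    (J : Fin n → ZMod 2) (t : ZMod 2)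
    (hJ : ∀ j, M y (p j) + ∑ i, J i * M (p i) (p j) + t = J j) :
    ∃ α : Fin n → ZMod 2, Al M p y α ∧
      ∀ v, wd H (sm M p) v = 0 → v ∉ Y → M y v = ∑ i, α i * M (p i) v := by
  set u := wd H (sm M p) with hu
  have hye : y ≠ e := fun h => hS.root u Y hY (h ▸ hy)
  have huy : u y = 0 := hS.zero u Y hY y hy
  have hyp : ∀ j, y ≠ p j := w_zero_iff hI hF huy
  set f : X → ZMod 2 := M y + (fun v => ∑ i, J i * M (p i) v) + (fun _ => t) with hf
  have hlt : ∀ v, Lap H (fun _ => t) v = 0 := by
    intro v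
    unfold Lap
    refine Finset.sum_eq_zero fun w _ => ?_
    rw [CharTwo.add_self_eq_zero, mul_zero]
  have hlap : ∀ v, v ≠ e → Lap H f v = (if v = y then 1 else 0) + ∑ i, J i * (if v = p i then 1 else 0) := by
    intro v hv
    rw [hf, lap_add, lap_add, hI.hl, lap_comb hI, hlt, if_neg hv, add_zero, add_zero]
    simp
  have hk : wd H f ∈ B := wd_mem hH f
  have hksub : ∀ v, u v ≠ 0 → wd H f v = 0 ∨ wd H f v = u v := by
    intro v hv
    have hve : v ≠ e := by
      rintro rfl
      exact hv (w_e hI hF)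
    have hvy : v ≠ y := by
      rintro rfl
      exact hv huy
    by_cases hvp : ∃ j, v = p j
    · obtain ⟨j, rfl⟩ := hvp
      have h1 : f (p j) = J j := hJ j
      have h2 : Lap H f (p j) = J j := by
        rw [hlap _ hve, if_neg hvy, zero_add, Finset.sum_eq_single j]
        · rw [if_pos rfl, mul_one]
        · intro i _ hi
          rw [if_neg (fun h => hi (hF.inj h).symm), mul_zero]
        · intro h
          exact absurd (Finset.mem_univ j) h
      by_cases hJj : J j = 0
      · exact Or.inl (zero_of_lap (by rw [h1, hJj]) (by rw [h2, hJj]))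
      · right
        have h3 := ne_one _ hJj
        exact wd_eq_of f (sm M p) (p j) (by rw [h1, h3, sm_at hF])
          (by rw [h2, h3, lap_sm_at hI hF])
    · push Not at hvp
      have h1 : Lap H f v = 0 := by
        rw [hlap v hve, if_neg hvy, zero_add]
        exact Finset.sum_eq_zero fun i _ => by rw [if_neg (hvp i), mul_zero]
      rcases wd_zero_or_om h1 with h2 | h2
      · exact Or.inl h2
      · exact Or.inr (by rw [h2]; exact (w_off hI hF hvp hv).symm)
  obtain ⟨k', hk', hkY, hkoff, hks⟩ := hS.part u Y hY (wd H f) hk hksub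
  set f' : X → ZMod 2 := fun v => (k' v).1 with hf'
  have hkf : k' = wd H f' := eq_wd hH hk'
  have lapeq : ∀ v (a : X → ZMod 2), k' v = wd H a v → Lap H f' v = Lap H a v := by
    intro v a h
    rw [lap_wd, lap_wd, ← hkf, h]
  have hYv : ∀ v ∈ Y, Lap H f' v = if v = y then 1 else 0 := by
    intro v hv
    have hve : v ≠ e := fun h => hS.root u Y hY (h ▸ hv)
    rw [lapeq v f (hkY v hv), hlap v hve]
    have hvp := w_zero_iff hI hF (hS.zero u Y hY v hv)
    rw [Finset.sum_eq_zero fun i _ => by rw [if_neg (hvp i), mul_zero], add_zero]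
  have hout : ∀ v, v ≠ y → (∀ j, v ≠ p j) → Lap H f' v = 0 := by
    intro v hvy hvp
    by_cases huv : u v = 0
    · by_cases hvY : v ∈ Y
      · rw [hYv v hvY, if_neg hvy]
      · have := hkoff v huv hvY
        rw [hkf] at this
        exact (lap_of_zero this).2
    · rcases hks v huv with h1 | h1
      · rw [hkf] at h1
        exact (lap_of_zero h1).2
      · rw [lapeq v (sm M p) h1, lap_sm_off hI hF hvp]
  have hyl : Lap H f' y = 1 := by rw [hYv y hy, if_pos rfl]
  have hke : k' e = 0 := hkoff e (w_e hI hF) (hS.root u Y hY)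
  have hfe : f' e = 0 := by show (k' e).1 = 0; rw [hke]; rfl
  have hrec : ∀ v, f' v = M y v + ∑ i, Lap H f' (p i) * M (p i) v := by
    intro v
    rw [recon hI.hs hI.h0 hI.hl f' hfe v, sum_pts hF.inj hyp (fun w => Lap H f' w * M w v), hyl,
      one_mul]
    intro w hw hwp
    rw [hout w hw hwp, zero_mul]
  refine ⟨fun i => Lap H f' (p i), ⟨?_, ?_⟩, ?_⟩
  · have h1 := sum_lap hI.hs f'
    rw [sum_pts hF.inj hyp (fun v => Lap H f' v) hout, hyl] at h1
    revert h1
    generalize (∑ i, Lap H f' (p i)) = A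
    revert A
    decide
  · intro j
    have h1 := hrec (p j)
    have h2 : f' (p j) = Lap H f' (p j) := by
      rcases hks (p j) (w_at hI hF j) with h3 | h3
      · rw [hkf] at h3
        rw [(lap_of_zero h3).1, (lap_of_zero h3).2]
      · rw [lapeq _ _ h3, lap_sm_at hI hF]
        have : f' (p j) = sm M p (p j) := congrArg Prod.fst h3
        rw [this, sm_at hF]
    rw [h2] at h1
    beta_reduce
    rw [h1]
    generalize M y (p j) = A
    generalize (∑ i, Lap H f' (p i) * M (p i) (p j)) = C
    revert A C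
    decide
  · intro v huv hvY
    have h1 := hkoff v huv hvY
    have h2 : f' v = 0 := by show (k' v).1 = 0; rw [h1]; rfl
    have h3 := hrec v
    rw [h2] at h3
    exact (CharTwo.add_eq_zero.1 h3.symm)

/-- a splitting point of a word inside the side is an own place, or the word itself splits -/
theorem loc (hB : IsCode B) (hS : RSides B e S) {u : X → K} {Y : Finset X} (hu : u ∈ B)
    (hz : ZFree u) (hY : S u Y) {w : X → K} (hsub : ∀ v, u v ≠ 0 → w v = 0 ∨ w v = u v)
    (hoff : ∀ v, u v = 0 → v ∉ Y → w v = 0) {g : X} (hg : Splits B w g) :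
    g ∈ Y ∨ Splits B u g := by
  by_cases hgY : g ∈ Y
  · exact Or.inl hgY
  right
  obtain ⟨c, hc, hcg, hcv, hwg⟩ := split_val hg
  by_cases hug : u g = 0
  · obtain ⟨k', hk', hkY, hkoff, hks⟩ := hS.part u Y hY c hc (by
      intro v hv
      by_cases hvg : v = g
      · exact absurd hug (hvg ▸ hv)
      · rcases hcv v hvg with h1 | h1
        · exact Or.inl h1
        · rw [h1]; exact hsub v hv)
    refine splits_of hu (B.add_mem hc hk') ?_ hug ?_
    · rw [Pi.add_apply, hcg, hkoff g hug hgY, add_zero]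
    · intro v hv
      rw [Pi.add_apply]
      by_cases huv : u v = 0
      · left
        by_cases hvY : v ∈ Y
        · rw [hkY v hvY, kadd_self]
        · rw [hkoff v huv hvY, add_zero]
          rcases hcv v hv with h1 | h1
          · exact h1
          · rw [h1, hoff v huv hvY]
      · have h1 : c v = 0 ∨ c v = u v := by
          rcases hcv v hv with h1 | h1
          · exact Or.inl h1
          · rw [h1]; exact hsub v huv
        rcases h1 with h1 | h1 <;> rcases hks v huv with h2 | h2
        · left; rw [h1, h2, add_zero]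
        · right; rw [h1, h2, zero_add]
        · right; rw [h1, h2, add_zero]
        · left; rw [h1, h2, kadd_self]
  · exfalso
    have h1 : (u g).1 = 1 := by
      have h2 := hz g
      have h3 : ∀ a : K, a ≠ 0 → a ≠ z → a.1 = 1 := by decide
      exact h3 _ hug h2
    refine form_contra hB hc hu hcg h1 ?_
    intro v hv
    rcases hcv v hv with h2 | h2
    · exact Or.inl h2
    · by_cases huv : u v = 0
      · exact Or.inr (Or.inl huv)
      · rcases hsub v huv with h3 | h3
        · left; rw [h2, h3]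
        · right; right; rw [h2, h3]

end

end Pool.Agent.H67.Q
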