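import Pool.Agent.H67.Q.Defs

set_option autoImplicit false

/-! Coarse lines and two-ended groups. -/

namespace Pool.Agent.QIS

section Q2
variable {H : Type} [Group H] {len : H → ℕ}

/-- finite index through a finite covering by cosets -/
theorem q2_finiteIndex_of_cover (L : Subgroup H) (F : Set H) (hF : F.Finite)
    (h : ∀ g : H, ∃ f ∈ F, f⁻¹ * g ∈ L) : L.FiniteIndex := by
  have hfin : Finite (H ⧸ L) := by
    have : Finite F := hF
    refine Finite.of_surjective (fun f : F => (QuotientGroup.mk (f : H) : H ⧸ L)) ?_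
    intro q
    induction q using QuotientGroup.induction_on with
    | H g =>
      obtain ⟨f, hf, hfg⟩ := h g
      exact ⟨⟨f, hf⟩, QuotientGroup.eq.2 hfg⟩
  exact Subgroup.finiteIndex_of_finite_quotient

/-- covering by finitely many cosets of a subgroup of finite index -/
theorem q2_cover (L : Subgroup H) (hL : L.FiniteIndex) :
    ∃ F : Set H, F.Finite ∧ ∀ g : H, ∃ f ∈ F, f⁻¹ * g ∈ L := by
  have : Finite (H ⧸ L) := Subgroup.finite_quotient_of_finiteIndex
  refine ⟨Set.range (fun q : H ⧸ L => q.out), Set.finite_range _, fun g => ?_⟩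
  refine ⟨(QuotientGroup.mk g : H ⧸ L).out, ⟨_, rfl⟩, ?_⟩
  exact QuotientGroup.eq.1 (Quotient.out_eq' _)

theorem q2_zpow_ne {z : H} (hinf : ∀ n : ℕ, 0 < n → z ^ n ≠ 1) {m : ℤ} (hm : m ≠ 0) :
    z ^ m ≠ 1 := by
  intro h
  have h1 : z ^ m.natAbs = 1 := by
    rcases Int.natAbs_eq m with h2 | h2
    · rw [h2, zpow_natCast] at h
      exact h
    · rw [h2, zpow_neg, zpow_natCast, inv_eq_one] at h
      exact h
  exact hinf _ (Int.natAbs_pos.2 hm) h1

theorem q2_zpow_inj {z : H} (hinf : ∀ n : ℕ, 0 < n → z ^ n ≠ 1) :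
    Function.Injective (fun j : ℤ => z ^ j) := by
  intro i j h
  by_contra hne
  have h1 : z ^ (i - j) = 1 := by
    have h2 : z ^ i = z ^ j := h
    rw [zpow_sub, h2, mul_inv_cancel]
  exact q2_zpow_ne hinf (sub_ne_zero.2 hne) h1

/-- powers of `z` still generate a subgroup of finite index -/
theorem q2_pow_index (z : H) (hz : (Subgroup.zpowers z).FiniteIndex) (n : ℕ) (hn : 0 < n) :
    (Subgroup.zpowers (z ^ n)).FiniteIndex := by
  obtain ⟨F, hF, hcov⟩ := q2_cover _ hz
  refine q2_finiteIndex_of_cover _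
    (Set.image2 (fun f (i : ℕ) => f * z ^ i) F (Set.Iio n)) (hF.image2 _ (Set.finite_Iio n)) ?_
  intro g
  obtain ⟨f, hf, hfg⟩ := hcov g
  obtain ⟨k, hk⟩ := Subgroup.mem_zpowers_iff.1 hfg
  have hn' : (0 : ℤ) < n := by exact_mod_cast hn
  have h0 : 0 ≤ k % n := Int.emod_nonneg _ hn'.ne'
  have h1 : k % n < n := Int.emod_lt_of_pos _ hn'
  refine ⟨f * z ^ (k % n).toNat, ⟨f, hf, (k % n).toNat, ?_, rfl⟩, ?_⟩
  · simp only [Set.mem_Iio]
    omega
  · refine Subgroup.mem_zpowers_iff.2 ⟨k / n, ?_⟩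
    have h2 : g = f * z ^ k := by rw [hk]; group
    have h3 : z ^ (k % n).toNat = z ^ (k % (n : ℤ)) := by
      rw [← zpow_natCast, Int.toNat_of_nonneg h0]
    rw [h2, h3, ← zpow_natCast, ← zpow_mul]
    have h4 : k = k % n + n * (k / n) := (Int.emod_add_mul_ediv k n).symm
    have h5 : z ^ k = z ^ (k % (n : ℤ)) * z ^ ((n : ℤ) * (k / n)) := by
      rw [← zpow_add, ← h4]
    rw [h5]
    group

/-- an infinite subgroup of a two-ended group is two-ended and of finite index -/
theorem TwoEnded.of_infinite (hH : TwoEnded H) (K : Subgroup H) (hK : Infinite K) :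
    TwoEnded K ∧ K.FiniteIndex := by
  obtain ⟨z, hinf, hz⟩ := hH
  have : Finite (H ⧸ Subgroup.zpowers z) := Subgroup.finite_quotient_of_finiteIndex
  obtain ⟨x, y, hxy, hq⟩ := Finite.exists_ne_map_eq_of_infinite
    (fun k : K => (QuotientGroup.mk (k : H) : H ⧸ Subgroup.zpowers z))
  have h1 : (x : H)⁻¹ * y ∈ Subgroup.zpowers z := QuotientGroup.eq.1 hq
  obtain ⟨k, hk⟩ := Subgroup.mem_zpowers_iff.1 h1
  have hk0 : k ≠ 0 := by
    rintro rfl
    rw [zpow_zero] at hk
    apply hxy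
    have : (x : H) = y := by
      have := hk.symm
      rwa [inv_mul_eq_one] at this
    exact Subtype.ext this
  have hkK : z ^ k ∈ K := by
    rw [hk]
    exact K.mul_mem (K.inv_mem x.2) y.2
  have hwK : z ^ k.natAbs ∈ K := by
    rcases Int.natAbs_eq k with h2 | h2
    · rw [h2, zpow_natCast] at hkK
      exact hkK
    · rw [h2, zpow_neg, zpow_natCast] at hkK
      exact (K.inv_mem_iff).1 hkK
  have hpos : 0 < k.natAbs := Int.natAbs_pos.2 hk0
  have hidx := q2_pow_index z hz k.natAbs hpos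
  have hle : Subgroup.zpowers (z ^ k.natAbs) ≤ K := by
    rw [Subgroup.zpowers_le]
    exact hwK
  refine ⟨⟨⟨z ^ k.natAbs, hwK⟩, fun n hn h => ?_, ?_⟩, ?_⟩
  · have h2 : (z ^ k.natAbs) ^ n = 1 := by
      have := congrArg (fun t : K => (t : H)) h
      simpa using this
    rw [← pow_mul] at h2
    exact hinf _ (Nat.mul_pos hpos hn) h2
  · obtain ⟨F, hF, hcov⟩ := q2_cover _ hidx
    -- cosets of the subgroup inside `K`
    classical
    have key : ∀ f : H, ∃ t : K, (∃ g : K, f⁻¹ * (g : H) ∈ Subgroup.zpowers (z ^ k.natAbs)) →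
        f⁻¹ * (t : H) ∈ Subgroup.zpowers (z ^ k.natAbs) := by
      intro f
      by_cases hf : ∃ g : K, f⁻¹ * (g : H) ∈ Subgroup.zpowers (z ^ k.natAbs)
      · obtain ⟨g, hg⟩ := hf
        exact ⟨g, fun _ => hg⟩
      · exact ⟨1, fun h => absurd h hf⟩
    choose t ht using key
    refine q2_finiteIndex_of_cover _ (t '' F) (hF.image _) fun g => ?_
    obtain ⟨f, hf, hfg⟩ := hcov (g : H)
    refine ⟨t f, ⟨f, hf, rfl⟩, ?_⟩
    have h3 := ht f ⟨g, hfg⟩
    have h4 : ((t f : K) : H)⁻¹ * (g : H) ∈ Subgroup.zpowers (z ^ k.natAbs) := by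
      have := Subgroup.mul_mem _ (Subgroup.inv_mem _ h3) hfg
      have e : (f⁻¹ * ((t f : K) : H))⁻¹ * (f⁻¹ * (g : H)) = ((t f : K) : H)⁻¹ * g := by group
      rwa [e] at this
    obtain ⟨l, hl⟩ := Subgroup.mem_zpowers_iff.1 h4
    refine Subgroup.mem_zpowers_iff.2 ⟨l, ?_⟩
    apply Subtype.ext
    push_cast
    exact hl
  · exact Subgroup.finiteIndex_of_le hle

theorem TwoEnded.of_finiteIndex (K : Subgroup H) [K.FiniteIndex] (hK : TwoEnded K) :
    TwoEnded H := by
  obtain ⟨z, hinf, hz⟩ := hK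
  refine ⟨(z : H), fun n hn h => hinf n hn ?_, ?_⟩
  · apply Subtype.ext
    push_cast
    exact h
  · obtain ⟨F, hF, hcov⟩ := q2_cover K inferInstance
    obtain ⟨F', hF', hcov'⟩ := q2_cover _ hz
    refine q2_finiteIndex_of_cover _ (Set.image2 (fun f (f' : K) => f * (f' : H)) F F')
      (hF.image2 _ hF') fun g => ?_
    obtain ⟨f, hf, hfg⟩ := hcov g
    obtain ⟨f', hf', hfg'⟩ := hcov' ⟨f⁻¹ * g, hfg⟩
    refine ⟨f * (f' : H), ⟨f, hf, f', hf', rfl⟩, ?_⟩
    obtain ⟨l, hl⟩ := Subgroup.mem_zpowers_iff.1 hfg'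
    refine Subgroup.mem_zpowers_iff.2 ⟨l, ?_⟩
    have := congrArg (fun t : K => (t : H)) hl
    push_cast at this
    rw [this]
    group

theorem TwoEnded.infinite (hH : TwoEnded H) : Infinite H := by
  obtain ⟨z, hinf, _⟩ := hH
  exact Infinite.of_injective _ (q2_zpow_inj hinf)

/-- A map of `ℤ` with bounded steps which is uniformly proper is coarsely surjective (one side). -/
theorem q2_dense_aux (a : ℤ → ℤ) (D : ℕ) (c : ℕ → ℕ) (h1 : ∀ j, |a (j + 1) - a j| ≤ (D : ℤ))
    (h2 : ∀ (t : ℕ) (i j : ℤ), |a i - a j| ≤ (t : ℤ) → |i - j| ≤ (c t : ℤ)) (n : ℤ)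
    (hn : ∀ j, n < a j) : False := by
  set C : ℕ := c (2 * D) with hC
  set v : ℤ := a 0 + D * (C + 2) with hv
  have hv0 : a 0 ≤ v := by
    have : (0 : ℤ) ≤ D * (C + 2) := by positivity
    omega
  set j0 : ℕ := c (v - n).toNat + 1 with hj0
  have hvn : 0 < v - n := by
    have := hn 0
    omega
  have hcast : ((v - n).toNat : ℤ) = v - n := Int.toNat_of_nonneg hvn.le
  -- far points are above `v`
  have hfar : ∀ i : ℤ, |i| = j0 → v < a i := by
    intro i hi
    by_contra hcon
    have h3 : |a i - a 0| ≤ ((v - n).toNat : ℤ) := by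
      rw [hcast, abs_le]
      have := hn i
      have := hn 0
      constructor <;> omega
    have h4 := h2 _ _ _ h3
    rw [sub_zero, hi] at h4
    omega
  -- steps
  have hstep : ∀ (k : ℕ) (i : ℤ), |a (i + k) - a i| ≤ D * k := by
    intro k i
    induction k with
    | zero => simp
    | succ k ih =>
      have h3 := h1 (i + k)
      have e : i + ((k + 1 : ℕ) : ℤ) = i + k + 1 := by push_cast; ring
      rw [e]
      calc |a (i + k + 1) - a i| ≤ |a (i + k + 1) - a (i + k)| + |a (i + k) - a i| :=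
            abs_sub_le _ _ _
        _ ≤ D + D * k := add_le_add h3 ih
        _ = D * ((k + 1 : ℕ) : ℤ) := by push_cast; ring
  -- intermediate values to the right
  have hright : ∃ j : ℕ, a j ≤ v ∧ v < a (j + 1) := by
    by_contra hcon
    push Not at hcon
    have : ∀ j : ℕ, a j ≤ v := by
      intro j
      induction j with
      | zero => simpa using hv0
      | succ j ih =>
        have := hcon j ih
        exact_mod_cast this
    have h3 := this j0
    have h4 := hfar j0 (by simp)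
    omega
  have hleft : ∃ j : ℕ, a (-(j : ℤ)) ≤ v ∧ v < a (-((j : ℤ) + 1)) := by
    by_contra hcon
    push Not at hcon
    have : ∀ j : ℕ, a (-(j : ℤ)) ≤ v := by
      intro j
      induction j with
      | zero => simpa using hv0
      | succ j ih =>
        have := hcon j ih
        exact_mod_cast this
    have h3 := this j0
    have h4 := hfar (-(j0 : ℤ)) (by simp)
    omega
  obtain ⟨j, hj1, hj2⟩ := hright
  obtain ⟨k, hk1, hk2⟩ := hleft
  have hj3 := h1 j
  have hk3 := h1 (-((k : ℤ) + 1))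
  have e : -((k : ℤ) + 1) + 1 = -(k : ℤ) := by ring
  rw [e] at hk3
  have h5 : |a j - a (-(k : ℤ))| ≤ ((2 * D : ℕ) : ℤ) := by
    rw [abs_le] at hj3 hk3 ⊢
    push_cast
    constructor <;> omega
  have h6 := h2 _ _ _ h5
  have h7 : (j : ℤ) ≤ C := by
    rw [abs_le] at h6
    omega
  have h8 := hstep j 0
  rw [zero_add] at h8
  have h9 : (D : ℤ) * j ≤ D * C := mul_le_mul_of_nonneg_left h7 (by positivity)
  rw [abs_le] at h8 hj3
  have e2 : (D : ℤ) * (C + 2) = D * C + 2 * D := by ring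
  omega

/-- A map of `ℤ` with bounded steps which is uniformly proper is coarsely surjective. -/
theorem q2_dense (a : ℤ → ℤ) (D : ℕ) (c : ℕ → ℕ) (h1 : ∀ j, |a (j + 1) - a j| ≤ (D : ℤ))
    (h2 : ∀ (t : ℕ) (i j : ℤ), |a i - a j| ≤ (t : ℤ) → |i - j| ≤ (c t : ℤ)) (n : ℤ) :
    ∃ j, |a j - n| ≤ D := by
  by_contra hcon
  push Not at hcon
  have hup : ∀ j, n < a j ↔ n < a (j + 1) := by
    intro j
    have h3 := hcon j
    have h4 := hcon (j + 1)
    have h5 := h1 j
    rw [lt_abs] at h3 h4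
    rw [abs_le] at h5
    constructor
    · intro h6
      omega
    · intro h6
      omega
  have hall : ∀ j, (n < a 0 ↔ n < a j) := by
    intro j
    induction j using Int.induction_on with
    | zero => exact Iff.rfl
    | succ i ih => exact ih.trans (hup _)
    | pred i ih =>
      refine ih.trans ?_
      have := hup (-(i : ℤ) - 1)
      rw [sub_add_cancel] at this
      exact this.symm
  by_cases h0 : n < a 0
  · exact q2_dense_aux a D c h1 h2 n fun j => (hall j).1 h0
  · refine q2_dense_aux (fun j => -a j) D c ?_ ?_ (-n) ?_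
    · intro j
      have := h1 j
      rw [abs_le] at this ⊢
      constructor <;> omega
    · intro t i j h
      refine h2 t i j ?_
      rw [abs_le] at h ⊢
      constructor <;> omega
    · intro j
      have h3 : ¬ n < a j := fun h => h0 ((hall j).2 h)
      have h4 := hcon j
      rw [lt_abs] at h4
      have h5 : (0 : ℤ) ≤ D := by positivity
      show -n < -a j
      omega

theorem q2_tri (hlen : ProperLen len) (x y z : H) :
    len (x⁻¹ * z) ≤ len (x⁻¹ * y) + len (y⁻¹ * z) := by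
  have e : x⁻¹ * z = (x⁻¹ * y) * (y⁻¹ * z) := by group
  rw [e]
  exact hlen.mul _ _

theorem q2_symm (hlen : ProperLen len) (x y : H) : len (x⁻¹ * y) = len (y⁻¹ * x) := by
  rw [← hlen.inv (x⁻¹ * y)]
  congr 1
  group

theorem q2_gamma (hlen : ProperLen len) (γ : ℤ → H) (D : ℕ)
    (hD : ∀ n, len ((γ n)⁻¹ * γ (n + 1)) ≤ D) (n m : ℤ) :
    (len ((γ n)⁻¹ * γ m) : ℤ) ≤ D * |n - m| := by
  have key : ∀ (k : ℕ) (i : ℤ), len ((γ i)⁻¹ * γ (i + k)) ≤ D * k := by
    intro k i
    induction k with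
    | zero => simp [hlen.one]
    | succ k ih =>
      have h3 := hD (i + k)
      have e : i + ((k + 1 : ℕ) : ℤ) = i + k + 1 := by push_cast; ring
      rw [e]
      calc len ((γ i)⁻¹ * γ (i + k + 1)) ≤ len ((γ i)⁻¹ * γ (i + k)) +
            len ((γ (i + k))⁻¹ * γ (i + k + 1)) := q2_tri hlen _ _ _
        _ ≤ D * k + D := add_le_add ih h3
        _ = D * (k + 1) := by ring
  rcases le_total n m with h | h
  · have h1 := key (m - n).toNat n
    have e : ((m - n).toNat : ℤ) = m - n := Int.toNat_of_nonneg (by omega)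
    rw [e, add_sub_cancel] at h1
    rw [abs_sub_comm, abs_of_nonneg (by omega : (0 : ℤ) ≤ m - n), ← e]
    exact_mod_cast h1
  · have h1 := key (n - m).toNat m
    have e : ((n - m).toNat : ℤ) = n - m := Int.toNat_of_nonneg (by omega)
    rw [e, add_sub_cancel, q2_symm hlen] at h1
    rw [abs_of_nonneg (by omega : (0 : ℤ) ≤ n - m), ← e]
    exact_mod_cast h1

/-- a subgroup that lies near a coarse line and contains an element of infinite order -/
theorem twoEnded_of_near (hlen : ProperLen len) (K : Subgroup H) (z : H) (hz : z ∈ K)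
    (hinf : ∀ n : ℕ, 0 < n → z ^ n ≠ 1) (γ : ℤ → H) (hγ : CoarseLine len γ) (R : ℕ)
    (hK : ∀ k ∈ K, ∃ n, len (k⁻¹ * γ n) ≤ R) : TwoEnded K := by
  obtain ⟨⟨D, hD⟩, hprop⟩ := hγ
  choose N hN using hprop
  choose! n hn using hK
  have hzj : ∀ j : ℤ, z ^ j ∈ K := fun j => K.zpow_mem hz j
  -- comparison of the length with the index
  have hA : ∀ x ∈ K, ∀ y ∈ K, ∀ r : ℕ, len (x⁻¹ * y) ≤ r → |n x - n y| ≤ (N (2 * R + r) : ℤ) := by
    intro x hx y hy r hr
    refine hN _ _ _ ?_
    have h1 := q2_tri hlen (γ (n x)) x (γ (n y))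
    have h2 := q2_tri hlen x y (γ (n y))
    have h3 := hn x hx
    have h4 := hn y hy
    have h5 := q2_symm hlen (γ (n x)) x
    omega
  have hB : ∀ x ∈ K, ∀ y ∈ K, (len (x⁻¹ * y) : ℤ) ≤ 2 * R + D * |n x - n y| := by
    intro x hx y hy
    have h1 := q2_tri hlen x (γ (n x)) y
    have h2 := q2_tri hlen (γ (n x)) (γ (n y)) y
    have h3 := hn x hx
    have h4 := hn y hy
    have h5 := q2_symm hlen (γ (n y)) y
    have h6 := q2_gamma hlen γ D hD (n x) (n y)
    omega
  -- bounded exponents in balls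
  have hball : ∀ s : ℕ, ∃ B : ℕ, ∀ j : ℤ, len (z ^ j) ≤ s → |j| ≤ (B : ℤ) := by
    intro s
    have hfin : {j : ℤ | len (z ^ j) ≤ s}.Finite := by
      have := (hlen.fin s).preimage (f := fun j : ℤ => z ^ j) (q2_zpow_inj hinf).injOn
      exact this
    obtain ⟨B, hB'⟩ := (hfin.image (fun j : ℤ => j.natAbs)).bddAbove
    refine ⟨B, fun j hj => ?_⟩
    have h1 : j.natAbs ≤ B := hB' ⟨j, hj, rfl⟩
    rw [Int.abs_eq_natAbs]
    exact_mod_cast h1
  choose b hb using hball
  have hdense := q2_dense (fun j => n (z ^ j)) (N (2 * R + len z)) (fun t => b (2 * R + D * t))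
    (by
      intro j
      rw [abs_sub_comm]
      refine hA _ (hzj j) _ (hzj (j + 1)) _ ?_
      rw [zpow_add, zpow_one, inv_mul_cancel_left])
    (by
      intro t i j h
      rw [abs_sub_comm]
      refine hb _ _ ?_
      have h1 := hB _ (hzj i) _ (hzj j)
      have e : (z ^ i)⁻¹ * z ^ j = z ^ (j - i) := by
        rw [← zpow_neg, ← zpow_add]
        congr 1
        ring
      rw [e] at h1
      have h2 : (D : ℤ) * |n (z ^ i) - n (z ^ j)| ≤ D * t :=
        mul_le_mul_of_nonneg_left h (by positivity)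
      have h3 : (len (z ^ (j - i)) : ℤ) ≤ ((2 * R + D * t : ℕ) : ℤ) := by
        push_cast
        omega
      exact_mod_cast h3)
  set E : ℕ := 2 * R + D * N (2 * R + len z) with hE
  refine ⟨⟨z, hz⟩, fun m hm h => hinf m hm ?_, ?_⟩
  · have := congrArg (fun t : K => (t : H)) h
    simpa using this
  · have hF : {g : K | len ((g : H)) ≤ E}.Finite := by
      have := (hlen.fin E).preimage (f := fun g : K => (g : H)) Subtype.val_injective.injOn
      exact this
    refine q2_finiteIndex_of_cover _ {g : K | len ((g : H)) ≤ E} hF fun g => ?_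
    obtain ⟨j, hj⟩ := hdense (n ((g : H)⁻¹))
    have hgK : ((g : H)⁻¹) ∈ K := K.inv_mem g.2
    have h1 := hB _ (hzj j) _ hgK
    have h2 : (len ((z ^ j)⁻¹ * (g : H)⁻¹) : ℤ) ≤ E := by
      have h3 : (D : ℤ) * |n (z ^ j) - n ((g : H)⁻¹)| ≤ D * N (2 * R + len z) :=
        mul_le_mul_of_nonneg_left hj (by positivity)
      rw [hE]
      push_cast
      omega
    have h4 : len ((g : H) * z ^ j) ≤ E := by
      have h5 := hlen.inv ((z ^ j)⁻¹ * (g : H)⁻¹)
      have e : ((z ^ j)⁻¹ * (g : H)⁻¹)⁻¹ = (g : H) * z ^ j := by group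
      rw [e] at h5
      rw [h5]
      exact_mod_cast h2
    refine ⟨g * ⟨z, hz⟩ ^ j, ?_, ?_⟩
    · show len (((g * ⟨z, hz⟩ ^ j : K)) : H) ≤ E
      push_cast
      exact h4
    · refine Subgroup.mem_zpowers_iff.2 ⟨-j, ?_⟩
      group

/-- A map of `ℤ` with bounded steps which is uniformly proper is coarsely monotone. -/
theorem q2_mono (a : ℤ → ℤ) (D : ℕ) (c : ℕ → ℕ) (h1 : ∀ j, |a (j + 1) - a j| ≤ (D : ℤ))
    (h2 : ∀ (t : ℕ) (i j : ℤ), |a i - a j| ≤ (t : ℤ) → |i - j| ≤ (c t : ℤ)) :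
    (∀ i j : ℤ, i + ((c D + 1 : ℕ) : ℤ) ≤ j → a i < a j) ∨
      (∀ i j : ℤ, i + ((c D + 1 : ℕ) : ℤ) ≤ j → a j < a i) := by
  set M : ℕ := c D + 1 with hM
  have hbig : ∀ i j, i + (M : ℤ) ≤ j → (D : ℤ) < |a i - a j| := by
    intro i j hij
    by_contra hcon
    push Not at hcon
    have := h2 _ _ _ hcon
    rw [abs_le] at this
    omega
  have hs1 : ∀ i j, i + (M : ℤ) ≤ j → (a i < a j ↔ a i < a (j + 1)) := by
    intro i j hij
    have h3 := hbig i j hij
    have h4 := hbig i (j + 1) (by omega)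
    have h5 := h1 j
    rw [lt_abs] at h3 h4
    rw [abs_le] at h5
    constructor <;> intro h6 <;> omega
  have hs2 : ∀ i j, i + 1 + (M : ℤ) ≤ j → (a i < a j ↔ a (i + 1) < a j) := by
    intro i j hij
    have h3 := hbig i j (by omega)
    have h4 := hbig (i + 1) j hij
    have h5 := h1 i
    rw [lt_abs] at h3 h4
    rw [abs_le] at h5
    constructor <;> intro h6 <;> omega
  have hs3 : ∀ i, (a i < a (i + M) ↔ a (i + 1) < a (i + 1 + M)) := by
    intro i
    have h3 := hs1 i (i + M) le_rfl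
    have h4 := hs2 i (i + M + 1) (by omega)
    have e : i + 1 + (M : ℤ) = i + M + 1 := by ring
    rw [e]
    exact h3.trans h4
  have hs4 : ∀ i, (a 0 < a M ↔ a i < a (i + M)) := by
    intro i
    induction i using Int.induction_on with
    | zero => rw [zero_add]
    | succ i ih => exact ih.trans (hs3 _)
    | pred i ih =>
      refine ih.trans ?_
      have := hs3 (-(i : ℤ) - 1)
      rw [sub_add_cancel] at this
      exact this.symm
  have hs5 : ∀ (i : ℤ) (k : ℕ), (a i < a (i + M) ↔ a i < a (i + M + k)) := by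
    intro i k
    induction k with
    | zero => simp
    | succ k ih =>
      refine ih.trans ?_
      have := hs1 i (i + M + k) (by omega)
      push_cast
      rw [← add_assoc]
      exact this
  have hs6 : ∀ i j, i + (M : ℤ) ≤ j → (a 0 < a M ↔ a i < a j) := by
    intro i j hij
    have h3 := hs5 i (j - (i + M)).toNat
    have e : i + (M : ℤ) + ((j - (i + M)).toNat : ℤ) = j := by
      rw [Int.toNat_of_nonneg (by omega)]
      ring
    rw [e] at h3
    exact (hs4 i).trans h3
  by_cases h0 : a 0 < a M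
  · exact Or.inl fun i j hij => (hs6 i j hij).1 h0
  · refine Or.inr fun i j hij => ?_
    have h3 : ¬ a i < a j := fun h => h0 ((hs6 i j hij).2 h)
    have h4 := hbig i j hij
    rw [lt_abs] at h4
    have h5 : (0 : ℤ) ≤ D := by positivity
    omega

/-- a subgroup at finite Hausdorff distance from a coarse line -/
theorem twoEnded_of_coarse (hlen : ProperLen len) (K : Subgroup H)
    (γ : ℤ → H) (hγ : CoarseLine len γ) (R : ℕ)
    (hK : ∀ k ∈ K, ∃ n, len (k⁻¹ * γ n) ≤ R) (hγK : ∀ n, ∃ k ∈ K, len (k⁻¹ * γ n) ≤ R) :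
    TwoEnded K := by
  have hγ0 := hγ
  have hK0 := hK
  obtain ⟨⟨D, hD⟩, hprop⟩ := hγ
  choose N hN using hprop
  choose! n hn using hK
  choose m hmK hm using hγK
  have hA : ∀ x ∈ K, ∀ y ∈ K, ∀ r : ℕ, len (x⁻¹ * y) ≤ r → |n x - n y| ≤ (N (2 * R + r) : ℤ) := by
    intro x hx y hy r hr
    refine hN _ _ _ ?_
    have h1 := q2_tri hlen (γ (n x)) x (γ (n y))
    have h2 := q2_tri hlen x y (γ (n y))
    have h3 := hn x hx
    have h4 := hn y hy
    have h5 := q2_symm hlen (γ (n x)) x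
    omega
  have hB : ∀ x ∈ K, ∀ y ∈ K, ∀ t : ℕ, |n x - n y| ≤ (t : ℤ) → len (x⁻¹ * y) ≤ 2 * R + D * t := by
    intro x hx y hy t ht
    have h1 := q2_tri hlen x (γ (n x)) y
    have h2 := q2_tri hlen (γ (n x)) (γ (n y)) y
    have h3 := hn x hx
    have h4 := hn y hy
    have h5 := q2_symm hlen (γ (n y)) y
    have h6 := q2_gamma hlen γ D hD (n x) (n y)
    have h7 : (D : ℤ) * |n x - n y| ≤ D * t := mul_le_mul_of_nonneg_left ht (by positivity)
    have h8 : (len (x⁻¹ * y) : ℤ) ≤ ((2 * R + D * t : ℕ) : ℤ) := by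
      push_cast
      omega
    exact_mod_cast h8
  -- left multiplication does not change differences
  have hmul : ∀ k x y : H, (k * x)⁻¹ * (k * y) = x⁻¹ * y := by
    intro k x y
    group
  -- uniform properness of left multiplication
  set c : ℕ → ℕ := fun t => N (2 * R + (2 * R + D * t)) with hc
  have hP : ∀ k ∈ K, ∀ x ∈ K, ∀ y ∈ K, ∀ t : ℕ, |n (k * x) - n (k * y)| ≤ (t : ℤ) →
      |n x - n y| ≤ (c t : ℤ) := by
    intro k hk x hx y hy t ht
    have h1 := hB _ (K.mul_mem hk hx) _ (K.mul_mem hk hy) t ht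
    rw [hmul] at h1
    exact hA x hx y hy _ h1
  have hnm : ∀ i, |n (m i) - i| ≤ (N (2 * R) : ℤ) := by
    intro i
    refine hN _ _ _ ?_
    have h1 := q2_tri hlen (γ (n (m i))) (m i) (γ i)
    have h2 := hn _ (hmK i)
    have h3 := hm i
    have h4 := q2_symm hlen (γ (n (m i))) (m i)
    omega
  set S : ℕ := N (2 * R) with hS
  set D1 : ℕ := N (2 * R + (2 * R + D)) with hD1
  set c1 : ℕ → ℕ := fun t => c t + 2 * S with hc1
  have hphi1 : ∀ k ∈ K, ∀ j : ℤ, |n (k * m (j + 1)) - n (k * m j)| ≤ (D1 : ℤ) := by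
    intro k hk j
    rw [abs_sub_comm]
    refine hA _ (K.mul_mem hk (hmK j)) _ (K.mul_mem hk (hmK (j + 1))) _ ?_
    rw [hmul]
    have h1 := q2_tri hlen (m j) (γ j) (m (j + 1))
    have h2 := q2_tri hlen (γ j) (γ (j + 1)) (m (j + 1))
    have h3 := hm j
    have h4 := hm (j + 1)
    have h5 := q2_symm hlen (γ (j + 1)) (m (j + 1))
    have h6 := hD j
    omega
  have hphi2 : ∀ k ∈ K, ∀ (t : ℕ) (i j : ℤ), |n (k * m i) - n (k * m j)| ≤ (t : ℤ) →
      |i - j| ≤ (c1 t : ℤ) := by
    intro k hk t i j h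
    have h1 := hP k hk _ (hmK i) _ (hmK j) t h
    have h2 := hnm i
    have h3 := hnm j
    rw [abs_le] at h1 h2 h3 ⊢
    simp only [hc1]
    push_cast
    constructor <;> omega
  -- coarse monotonicity of left multiplications
  set S1 : ℕ := N (2 * R + 2 * R) with hS1
  set M2 : ℕ := c1 D1 + 1 + (c1 (2 * S1) + 1) with hM2
  have hnear : ∀ k ∈ K, ∀ x ∈ K, |n (k * x) - n (k * m (n x))| ≤ (S1 : ℤ) := by
    intro k hk x hx
    refine hA _ (K.mul_mem hk hx) _ (K.mul_mem hk (hmK _)) _ ?_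
    rw [hmul]
    have h1 := q2_tri hlen x (γ (n x)) (m (n x))
    have h2 := hn x hx
    have h3 := hm (n x)
    have h4 := q2_symm hlen (γ (n x)) (m (n x))
    omega
  have hsgn : ∀ k ∈ K, (∀ x ∈ K, ∀ y ∈ K, n x + (M2 : ℤ) ≤ n y → n (k * x) < n (k * y)) ∨
      (∀ x ∈ K, ∀ y ∈ K, n x + (M2 : ℤ) ≤ n y → n (k * y) < n (k * x)) := by
    intro k hk
    have hfar : ∀ x y : H, n x + (M2 : ℤ) ≤ n y →
        (2 * S1 : ℤ) < |n (k * m (n x)) - n (k * m (n y))| := by
      intro x y hxy
      by_contra hcon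
      push Not at hcon
      have h1 := hphi2 k hk (2 * S1) (n x) (n y) (by push_cast; exact hcon)
      rw [abs_le] at h1
      rw [hM2] at hxy
      push_cast at hxy
      omega
    rcases q2_mono (fun j => n (k * m j)) D1 c1 (hphi1 k hk) (hphi2 k hk) with h | h
    · left
      intro x hx y hy hxy
      have h1 := h (n x) (n y) (by rw [hM2] at hxy; push_cast at hxy ⊢; omega)
      have h2 := hfar x y hxy
      have h3 := hnear k hk x hx
      have h4 := hnear k hk y hy
      rw [lt_abs] at h2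
      rw [abs_le] at h3 h4
      omega
    · right
      intro x hx y hy hxy
      have h1 := h (n x) (n y) (by rw [hM2] at hxy; push_cast at hxy ⊢; omega)
      have h2 := hfar x y hxy
      have h3 := hnear k hk x hx
      have h4 := hnear k hk y hy
      rw [lt_abs] at h2
      rw [abs_le] at h3 h4
      omega
  -- far apart pairs exist
  have hex : ∀ i : ℤ, ∃ x ∈ K, i ≤ n x := by
    intro i
    refine ⟨m (i + S), hmK _, ?_⟩
    have := hnm (i + S)
    rw [abs_le] at this
    omega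
  -- far pairs stay far
  have hfar2 : ∀ k ∈ K, ∀ x ∈ K, ∀ y ∈ K, ∀ t : ℕ, n x + (c t : ℤ) < n y →
      (t : ℤ) < |n (k * x) - n (k * y)| := by
    intro k hk x hx y hy t h
    by_contra hcon
    push Not at hcon
    have := hP k hk x hx y hy t hcon
    rw [abs_le] at this
    omega
  -- product of two elements of the same sign
  have hprod : ∀ k ∈ K, ∀ l ∈ K,
      ((∀ x ∈ K, ∀ y ∈ K, n x + (M2 : ℤ) ≤ n y → n (k * x) < n (k * y)) ↔
        (∀ x ∈ K, ∀ y ∈ K, n x + (M2 : ℤ) ≤ n y → n (l * x) < n (l * y))) →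
      (∀ x ∈ K, ∀ y ∈ K, n x + (M2 : ℤ) ≤ n y → n (k * l * x) < n (k * l * y)) := by
    intro k hk l hl hkl
    rcases hsgn (k * l) (K.mul_mem hk hl) with h | h
    · exact h
    · exfalso
      -- choose a far pair
      obtain ⟨y, hyK, hy⟩ := hex (n 1 + M2 + c M2 + 1)
      have h1K : (1 : H) ∈ K := K.one_mem
      have hfar3 := hfar2 l hl 1 h1K y hyK M2 (by omega)
      have h3 := h 1 h1K y hyK (by omega)
      by_cases hl1 : ∀ x ∈ K, ∀ y ∈ K, n x + (M2 : ℤ) ≤ n y → n (l * x) < n (l * y)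
      · have h4 := hl1 1 h1K y hyK (by omega)
        have h5 := (hkl.2 hl1) (l * 1) (K.mul_mem hl h1K) (l * y) (K.mul_mem hl hyK) (by
          rw [lt_abs] at hfar3
          omega)
        rw [← mul_assoc, ← mul_assoc] at h5
        omega
      · have hk1 : ¬ ∀ x ∈ K, ∀ y ∈ K, n x + (M2 : ℤ) ≤ n y → n (k * x) < n (k * y) :=
          fun h => hl1 (hkl.1 h)
        have hl2 := (hsgn l hl).resolve_left hl1
        have hk2 := (hsgn k hk).resolve_left hk1
        have h4 := hl2 1 h1K y hyK (by omega)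
        have h5 := hk2 (l * y) (K.mul_mem hl hyK) (l * 1) (K.mul_mem hl h1K) (by
          rw [lt_abs] at hfar3
          omega)
        rw [← mul_assoc, ← mul_assoc] at h5
        omega
  -- an orientation preserving element that moves `1` far has infinite order
  have hinf : ∀ k ∈ K, (∀ x ∈ K, ∀ y ∈ K, n x + (M2 : ℤ) ≤ n y → n (k * x) < n (k * y)) →
      (M2 : ℤ) ≤ |n k - n 1| → ∀ j : ℕ, 0 < j → k ^ j ≠ 1 := by
    intro k hk hpos hfar4
    have hpow : ∀ j : ℕ, ∀ x ∈ K, ∀ y ∈ K, n x + (M2 : ℤ) ≤ n y →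
        n (k ^ (j + 1) * x) < n (k ^ (j + 1) * y) := by
      intro j
      induction j with
      | zero => simpa using hpos
      | succ j ih =>
        rw [pow_succ]
        exact hprod _ (K.pow_mem hk _) _ hk ⟨fun _ => hpos, fun _ => ih⟩
    have hM2pos : 0 < M2 := by omega
    rcases le_abs'.1 hfar4 with h | h
    · -- decreasing
      have hdec : ∀ j : ℕ, n (k ^ (j + 1)) < n 1 := by
        intro j
        induction j with
        | zero => rw [zero_add, pow_one]; omega
        | succ j ih =>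
          have h1 := hpow j k hk 1 K.one_mem (by omega)
          rw [mul_one, ← pow_succ] at h1
          exact h1.trans ih
      intro j hj hj1
      obtain ⟨i, rfl⟩ : ∃ i, j = i + 1 := ⟨j - 1, by omega⟩
      have := hdec i
      rw [hj1] at this
      exact lt_irrefl _ this
    · have hinc : ∀ j : ℕ, n 1 < n (k ^ (j + 1)) := by
        intro j
        induction j with
        | zero => rw [zero_add, pow_one]; omega
        | succ j ih =>
          have h1 := hpow j 1 K.one_mem k hk (by omega)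
          rw [mul_one, ← pow_succ] at h1
          exact ih.trans h1
      intro j hj hj1
      obtain ⟨i, rfl⟩ : ∃ i, j = i + 1 := ⟨j - 1, by omega⟩
      have := hinc i
      rw [hj1] at this
      exact lt_irrefl _ this
  -- existence
  obtain ⟨k1, hk1, hk1'⟩ := hex (n 1 + M2)
  by_cases hs1 : ∀ x ∈ K, ∀ y ∈ K, n x + (M2 : ℤ) ≤ n y → n (k1 * x) < n (k1 * y)
  · refine twoEnded_of_near hlen K k1 hk1 (hinf k1 hk1 hs1 ?_) γ hγ0 R hK0
    rw [le_abs]
    omega
  · obtain ⟨k2, hk2, hk2'⟩ := hex (n 1 + M2 + c (M2 + (n k1 - n 1).toNat) + 1)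
    by_cases hs2 : ∀ x ∈ K, ∀ y ∈ K, n x + (M2 : ℤ) ≤ n y → n (k2 * x) < n (k2 * y)
    · refine twoEnded_of_near hlen K k2 hk2 (hinf k2 hk2 hs2 ?_) γ hγ0 R hK0
      rw [le_abs]
      omega
    · have hp := hprod k1 hk1 k2 hk2 ⟨fun h => absurd h hs1, fun h => absurd h hs2⟩
      refine twoEnded_of_near hlen K (k1 * k2) (K.mul_mem hk1 hk2)
        (hinf _ (K.mul_mem hk1 hk2) hp ?_) γ hγ0 R hK0
      have h1 := hfar2 k1 hk1 1 K.one_mem k2 hk2 (M2 + (n k1 - n 1).toNat) (by omega)
      rw [mul_one, lt_abs] at h1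
      have h2 : ((n k1 - n 1).toNat : ℤ) = n k1 - n 1 := Int.toNat_of_nonneg (by omega)
      push_cast at h1
      rw [h2] at h1
      rw [le_abs]
      omega

end Q2

end Pool.Agent.QIS
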