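import Pool.Agent.H67.Q.Tree
import Pool.Agent.H67.Q.Lines
import Pool.Agent.H67.Q.Words

/-!
# Geometry of a splitting inside the Cayley graph
-/

namespace Pool.Agent.QIS

open MulAction

variable {G : Type} [Group G] {S : Set G}

/-- side of the translate by `k` of the base edge -/
def sd (E : Splitting G) (k : G) (x : E.V) : Prop := side E.T (k • E.a) (k • E.b) x

/-- the vertex space of `v` -/
def VS (E : Splitting G) (v : E.V) : Set G := {g | g • E.a = v ∨ g • E.b = v}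

/-- the edge space of `k`: the left coset of `k` modulo the edge group -/
def ES (E : Splitting G) (k : G) : Set G := {g | g • E.a = k • E.a ∧ g • E.b = k • E.b}

theorem adj_k (E : Splitting G) (k : G) : E.T.Adj (k • E.a) (k • E.b) := E.map_adj k E.adj

theorem sd_smul (E : Splitting G) (g k : G) (x : E.V) : sd E (g * k) (g • x) ↔ sd E k x := by
  unfold sd
  rw [mul_smul, mul_smul]
  exact side_map (fun g {x y} h => E.map_adj g h) g _ _ _

theorem sd_a (E : Splitting G) (k : G) : sd E k (k • E.a) := side_self _ _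

theorem not_sd_b (E : Splitting G) (k : G) : ¬ sd E k (k • E.b) :=
  not_side_other E.tree (adj_k E k)

theorem mem_ES_self (E : Splitting G) (k : G) : k ∈ ES E k := ⟨rfl, rfl⟩

theorem mem_ES_iff (E : Splitting G) (k g : G) : g ∈ ES E k ↔ k⁻¹ * g ∈ E.edgeGroup := by
  unfold ES Splitting.edgeGroup
  rw [Subgroup.mem_inf, mem_stabilizer_iff, mem_stabilizer_iff, mul_smul, mul_smul,
    inv_smul_eq_iff, inv_smul_eq_iff]
  rfl

theorem mem_ES_mul (E : Splitting G) (k : G) {c : G} (hc : c ∈ E.edgeGroup) : k * c ∈ ES E k := by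
  rw [mem_ES_iff]; simpa using hc

theorem mem_ES_smul (E : Splitting G) (g k x : G) : g * x ∈ ES E (g * k) ↔ x ∈ ES E k := by
  rw [mem_ES_iff, mem_ES_iff]; simp [mul_assoc]

theorem mem_VS_smul (E : Splitting G) (g x : G) (v : E.V) : g * x ∈ VS E (g • v) ↔ x ∈ VS E v := by
  unfold VS
  simp only [Set.mem_ofPred_eq, mul_smul, smul_left_cancel_iff]

theorem ES_sub_VS_a (E : Splitting G) (k : G) : ES E k ⊆ VS E (k • E.a) := fun _ h => Or.inl h.1

theorem ES_sub_VS_b (E : Splitting G) (k : G) : ES E k ⊆ VS E (k • E.b) := fun _ h => Or.inr h.2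

/-- unordered edges agree only if the elements lie in the same coset -/
theorem sym2_eq_iff (E : Splitting G) (x k : G) :
    s(x • E.a, x • E.b) = s(k • E.a, k • E.b) ↔ x ∈ ES E k := by
  rw [Sym2.eq_iff]
  constructor
  · rintro (h | h)
    · exact h
    · exfalso
      refine E.no_inv (k⁻¹ * x) E.adj ⟨?_, ?_⟩
      · rw [mul_smul, h.1, inv_smul_smul]
      · rw [mul_smul, h.2, inv_smul_smul]
  · exact fun h => Or.inl h

theorem ES_eq_of_mem (E : Splitting G) {x k : G} (h : x ∈ ES E k) : ES E x = ES E k := by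
  ext g
  unfold ES at *
  simp only [Set.mem_ofPred_eq] at *
  rw [h.1, h.2]

theorem sd_eq_of_mem (E : Splitting G) {x k : G} (h : x ∈ ES E k) (v : E.V) :
    sd E x v ↔ sd E k v := by
  unfold sd
  rw [h.1, h.2]

/-- neighbours lie on the same side of every other edge -/
theorem sd_adj (E : Splitting G) (k : G) {x y : E.V} (h : E.T.Adj x y)
    (hne : s(x, y) ≠ s(k • E.a, k • E.b)) : sd E k x ↔ sd E k y := side_adj h hne

/-- a point of the vertex space of `v` is on the side of `v` -/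
theorem sd_of_mem_VS (E : Splitting G) (k : G) {v : E.V} {x : G} (hx : x ∈ VS E v)
    (hk : x ∉ ES E k) : sd E k (x • E.a) ↔ sd E k v := by
  rcases hx with h | h
  · rw [h]
  · rw [← h]
    refine sd_adj E k (adj_k E x) ?_
    intro h'
    exact hk ((sym2_eq_iff E x k).1 h')

/-- every edge is a translate of the base edge -/
theorem exists_edge (E : Splitting G) {x y : E.V} (h : E.T.Adj x y) :
    ∃ k : G, (k • E.a = x ∧ k • E.b = y) ∨ (k • E.a = y ∧ k • E.b = x) := E.edge_trans h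

/-- every vertex lies on an edge -/
theorem exists_vertex (E : Splitting G) (v : E.V) : (VS E v).Nonempty := by
  by_cases hv : v = E.a
  · exact ⟨1, Or.inl (by rw [one_smul, hv])⟩
  · obtain ⟨z, hz, -⟩ := exists_first E.tree hv
    obtain ⟨k, h | h⟩ := exists_edge E hz
    · exact ⟨k, Or.inl h.1⟩
    · exact ⟨k, Or.inr h.2⟩

/-- distinct vertices are separated by an edge at the first of them -/
theorem exists_sep (E : Splitting G) {v w : E.V} (hne : v ≠ w) :
    ∃ k : G, (k • E.a = v ∨ k • E.b = v) ∧ ¬ (sd E k v ↔ sd E k w) := by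
  obtain ⟨z, hz, hs⟩ := exists_first E.tree hne
  obtain ⟨k, ⟨h1, h2⟩ | ⟨h1, h2⟩⟩ := exists_edge E hz
  · refine ⟨k, Or.inl h1, ?_⟩
    have h3 : sd E k v := by rw [← h1]; exact sd_a E k
    have h4 : ¬ sd E k w := by unfold sd; rw [h1, h2]; exact hs
    tauto
  · refine ⟨k, Or.inr h2, ?_⟩
    have h3 : ¬ sd E k v := by rw [← h2]; exact not_sd_b E k
    have h4 : sd E k w := by
      unfold sd; rw [h1, h2]; exact (side_swap E.tree hz w).2 hs
    tauto

theorem nbhd_mono {R R' : ℕ} (h : R ≤ R') (L : Set G) : nbhd S R L ⊆ nbhd S R' L :=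
  fun _ ⟨l, hl, hd⟩ => ⟨l, hl, hd.trans h⟩

theorem mem_nbhd_of_dist (hSg : Subgroup.closure S = ⊤) {x y : G} {L : Set G} {r R : ℕ}
    (hy : y ∈ nbhd S R L) (h : wdist S x y ≤ r) : x ∈ nbhd S (r + R) L := by
  obtain ⟨l, hl, hd⟩ := hy
  exact ⟨l, hl, (wdist_triangle hSg x y l).trans (by omega)⟩

theorem self_mem_nbhd {x : G} {L : Set G} (h : x ∈ L) (R : ℕ) : x ∈ nbhd S R L :=
  ⟨x, h, by rw [wdist_self]; exact Nat.zero_le _⟩

theorem nbhd_smul (g x : G) (R : ℕ) (E : Splitting G) (k : G) :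
    g * x ∈ nbhd S R (ES E (g * k)) ↔ x ∈ nbhd S R (ES E k) := by
  constructor
  · rintro ⟨l, hl, hd⟩
    refine ⟨g⁻¹ * l, ?_, ?_⟩
    · rw [← mem_ES_smul E g]; simpa using hl
    · rw [← wdist_mul_left g]; simpa using hd
  · rintro ⟨l, hl, hd⟩
    exact ⟨g * l, (mem_ES_smul E g k l).2 hl, by rw [wdist_mul_left]; exact hd⟩

/-- crossing an edge of the tree takes place near its edge space -/
theorem exists_cross (hS : S.Finite) (hSg : Subgroup.closure S = ⊤) (E : Splitting G) :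
    ∃ r₀ : ℕ, ∀ k x y : G, ¬ (sd E k (x • E.a) ↔ sd E k (y • E.a)) →
      x ∈ nbhd S (wdist S x y + r₀) (ES E k) := by
  classical
  -- the finite set of oriented edges which separate a from a neighbour point
  have hfin : ({p : E.V × E.V | ∃ s ∈ S, E.T.Adj p.1 p.2 ∧
      ¬ (side E.T p.1 p.2 E.a ↔ side E.T p.1 p.2 (s • E.a))}).Finite := by
    have h1 : ∀ s ∈ S, ({p : E.V × E.V | E.T.Adj p.1 p.2 ∧
        ¬ (side E.T p.1 p.2 E.a ↔ side E.T p.1 p.2 (s • E.a))}).Finite := by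
      intro s _
      refine ((side_finite E.tree E.a (s • E.a)).union
        (side_finite E.tree (s • E.a) E.a)).subset ?_
      rintro p ⟨hp, hn⟩
      by_cases h : side E.T p.1 p.2 E.a
      · left; exact ⟨hp, h, fun h' => hn ⟨fun _ => h', fun _ => h⟩⟩
      · right
        refine ⟨hp, ?_, h⟩
        by_contra h'
        exact hn ⟨fun h2 => absurd h2 h, fun h2 => absurd h2 h'⟩
    refine (hS.biUnion h1).subset ?_
    rintro p ⟨s, hs, hp⟩
    exact Set.mem_biUnion hs hp
  -- representatives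
  have hrep : ∃ m : E.V × E.V → G, ∀ k : G, m (k • E.a, k • E.b) ∈ ES E k := by
    refine ⟨fun p => if h : ∃ k : G, (k • E.a, k • E.b) = p then h.choose else 1, fun k => ?_⟩
    have h : ∃ k' : G, (k' • E.a, k' • E.b) = (k • E.a, k • E.b) := ⟨k, rfl⟩
    have h' := h.choose_spec
    rw [Prod.mk.injEq] at h'
    simp only [dif_pos h]
    exact h'
  obtain ⟨m, hm⟩ := hrep
  obtain ⟨r, hr⟩ : ∃ r : ℕ, ∀ p ∈ {p : E.V × E.V | ∃ s ∈ S, E.T.Adj p.1 p.2 ∧
      ¬ (side E.T p.1 p.2 E.a ↔ side E.T p.1 p.2 (s • E.a))}, wlen S (m p) ≤ r := by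
    obtain ⟨r, hr⟩ := (hfin.image (fun p => wlen S (m p))).bddAbove
    exact ⟨r, fun p hp => hr ⟨p, hp, rfl⟩⟩
  refine ⟨r + 1, fun k x y hxy => ?_⟩
  have key := near_of_cross hSg {g | sd E k (g • E.a)} (ES E k) r ?_ x y hxy
  · refine nbhd_mono ?_ _ key
    omega
  · intro g s hs hgs
    have h2 : (g⁻¹ * k) • E.a = ((g⁻¹ * k) • E.a, (g⁻¹ * k) • E.b).1 := rfl
    have hmem : ((g⁻¹ * k) • E.a, (g⁻¹ * k) • E.b) ∈ {p : E.V × E.V | ∃ s ∈ S, E.T.Adj p.1 p.2 ∧
      ¬ (side E.T p.1 p.2 E.a ↔ side E.T p.1 p.2 (s • E.a))} := by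
      refine ⟨s, hs, adj_k E _, ?_⟩
      have e1 : side E.T ((g⁻¹ * k) • E.a) ((g⁻¹ * k) • E.b) E.a ↔ sd E k (g • E.a) := by
        have := sd_smul E g (g⁻¹ * k) E.a
        rw [mul_inv_cancel_left] at this
        exact this.symm
      have e2 : side E.T ((g⁻¹ * k) • E.a) ((g⁻¹ * k) • E.b) (s • E.a) ↔
          sd E k ((g * s) • E.a) := by
        have := sd_smul E g (g⁻¹ * k) (s • E.a)
        rw [mul_inv_cancel_left, ← mul_smul g s] at this
        exact this.symm
      simp only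
      rw [e1, e2]
      exact hgs
    refine ⟨g * m ((g⁻¹ * k) • E.a, (g⁻¹ * k) • E.b), ?_, ?_⟩
    · have := (mem_ES_smul E g (g⁻¹ * k) _).2 (hm (g⁻¹ * k))
      rwa [mul_inv_cancel_left] at this
    · unfold wdist
      rw [inv_mul_cancel_left]
      exact hr _ hmem

/-- points of vertex spaces on different sides of an edge -/
theorem exists_near_sep (hS : S.Finite) (hSg : Subgroup.closure S = ⊤) (E : Splitting G) :
    ∃ r₀ : ℕ, ∀ (k : G) (v w : E.V), ¬ (sd E k v ↔ sd E k w) → ∀ x ∈ VS E v, ∀ y ∈ VS E w,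
      x ∈ nbhd S (wdist S x y + r₀) (ES E k) := by
  obtain ⟨r₀, h₀⟩ := exists_cross hS hSg E
  refine ⟨r₀, fun k v w hvw x hx y hy => ?_⟩
  by_cases hxk : x ∈ ES E k
  · exact self_mem_nbhd hxk _
  by_cases hyk : y ∈ ES E k
  · exact ⟨y, hyk, Nat.le_add_right _ _⟩
  refine h₀ k x y ?_
  rw [sd_of_mem_VS E k hx hxk, sd_of_mem_VS E k hy hyk]
  exact hvw

end Pool.Agent.QIS
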