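import Pool.Agent.H67.Q.Action
import Pool.Agent.H67.Q.Ends

/-!
# The graph on the big vertices: connected, unbounded sides
-/

namespace Pool.Agent.QIS

open MulAction

namespace Dat

variable {G H : Type} [Group G] [Group H] (D : Dat G H)

/-- vertex spaces of small vertices are uniformly near each edge space in them -/
theorem small_near : ∃ d : ℕ, ∀ (k : G) (u : D.E.V), k ∈ VS D.E u → ¬ Big D.E u →
    VS D.E u ⊆ nbhd D.S d (ES D.E k) := by
  have aux : ∀ c : D.E.V, (∃ k₀ : G, k₀ ∈ VS D.E c ∧ True) → ∃ d : ℕ, ¬ Big D.E c →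
      VS D.E c ⊆ nbhd D.S d (ES D.E 1) ∨ (1 : G) ∉ VS D.E c := by
    intro c _
    by_cases h : (1 : G) ∈ VS D.E c
    · by_cases hb : Big D.E c
      · exact ⟨0, fun h' => absurd hb h'⟩
      · obtain ⟨d, hd⟩ := VS_small D.gS D.hC (not_not.1 hb) h
        exact ⟨d, fun _ => Or.inl hd⟩
    · exact ⟨0, fun _ => Or.inr h⟩
  obtain ⟨d₁, h₁⟩ := aux D.E.a ⟨1, Or.inl (one_smul _ _), trivial⟩
  obtain ⟨d₂, h₂⟩ := aux D.E.b ⟨1, Or.inr (one_smul _ _), trivial⟩
  refine ⟨max d₁ d₂, fun k u hk hu => ?_⟩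
  rcases hk with hk | hk
  · have hb : ¬ Big D.E D.E.a := by rw [← big_smul D.E k, hk]; exact hu
    intro x hx
    have h3 : k⁻¹ * x ∈ VS D.E D.E.a := by
      rw [← mem_VS_smul D.E k, mul_inv_cancel_left, hk]; exact hx
    rcases h₁ hb with h4 | h4
    · have h5 := (nbhd_smul k _ d₁ D.E 1).2 (h4 h3)
      rw [mul_inv_cancel_left, mul_one] at h5
      exact nbhd_mono (le_max_left _ _) _ h5
    · exact absurd (Or.inl (one_smul _ _)) h4
  · have hb : ¬ Big D.E D.E.b := by rw [← big_smul D.E k, hk]; exact hu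
    intro x hx
    have h3 : k⁻¹ * x ∈ VS D.E D.E.b := by
      rw [← mem_VS_smul D.E k, mul_inv_cancel_left, hk]; exact hx
    rcases h₂ hb with h4 | h4
    · have h5 := (nbhd_smul k _ d₂ D.E 1).2 (h4 h3)
      rw [mul_inv_cancel_left, mul_one] at h5
      exact nbhd_mono (le_max_right _ _) _ h5
    · exact absurd (Or.inr (one_smul _ _)) h4

theorem adj_of_common {r d : ℕ} (hr : D.cc (D.K + d) ≤ r) {v w : D.VV} (hne : v ≠ w) (k : G)
    (hv : ES D.E k ⊆ nbhd D.S d (VS D.E v.1)) (hw : ES D.E k ⊆ nbhd D.S d (VS D.E w.1)) :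
    (D.Γ r).Adj v w := by
  rw [Γ_adj]
  refine ⟨hne, (D.inf_image (D.ES_infinite k)).mono ?_⟩
  rintro _ ⟨x, hx, rfl⟩
  have h1 : D.Nr (D.K + d) (D.F x) v := mem_nbhd_of_dist D.gS (hv hx) (D.h2 x)
  have h2 : D.Nr (D.K + d) (D.F x) w := mem_nbhd_of_dist D.gS (hw hx) (D.h2 x)
  exact ⟨(Nr.toOne D h1).mono D hr, (Nr.toOne D h2).mono D hr⟩

theorem big_or {z z' : D.E.V} (h : D.E.T.Adj z z') : Big D.E z ∨ Big D.E z' := by
  obtain ⟨k, ⟨h1, h2⟩ | ⟨h1, h2⟩⟩ := exists_edge D.E h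
  · rw [← h1, ← h2, big_smul, big_smul]; exact D.hbig
  · rw [← h1, ← h2, big_smul, big_smul]; exact D.hbig.symm

theorem exists_connected : ∃ r₁ : ℕ, ∀ r, r₁ ≤ r → (D.Γ r).Connected := by
  obtain ⟨d, hd⟩ := D.small_near
  refine ⟨D.cc (D.K + d), fun r hr => ?_⟩
  have hr' : D.cc (D.K + d) ≤ r := hr
  -- adjacent big vertices
  have h1 : ∀ (z z' : D.E.V) (hz : Big D.E z) (hz' : Big D.E z'), D.E.T.Adj z z' →
      (D.Γ r).Reachable ⟨z, hz⟩ ⟨z', hz'⟩ := by
    intro z z' hz hz' hadj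
    obtain ⟨k, hk⟩ := exists_edge D.E hadj
    refine SimpleGraph.Adj.reachable (D.adj_of_common hr' ?_ k ?_ ?_)
    · intro h
      exact hadj.ne (congrArg Subtype.val h)
    · exact fun x hx => self_mem_nbhd (mem_VS_of_edge D.E hk hx) d
    · exact fun x hx => self_mem_nbhd (mem_VS_of_edge D.E hk.symm hx) d
  -- two neighbours of a small vertex
  have h2 : ∀ (z u z' : D.E.V) (hz : Big D.E z) (hz' : Big D.E z'), ¬ Big D.E u →
      D.E.T.Adj u z → D.E.T.Adj u z' → (D.Γ r).Reachable ⟨z, hz⟩ ⟨z', hz'⟩ := by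
    intro z u z' hz hz' hu h3 h4
    by_cases hne : z = z'
    · subst hne; exact SimpleGraph.Reachable.refl _
    obtain ⟨k, hk⟩ := exists_edge D.E h3
    obtain ⟨k', hk'⟩ := exists_edge D.E h4
    refine SimpleGraph.Adj.reachable (D.adj_of_common hr' ?_ k ?_ ?_)
    · exact fun h => hne (congrArg Subtype.val h)
    · exact fun x hx => self_mem_nbhd (mem_VS_of_edge D.E hk.symm hx) d
    · intro x hx
      have h5 : x ∈ VS D.E u := mem_VS_of_edge D.E hk hx
      have h6 : k' ∈ VS D.E u := mem_VS_of_edge D.E hk' (mem_ES_self D.E k')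
      obtain ⟨l, hl, hd'⟩ := hd k' u h6 hu h5
      exact ⟨l, mem_VS_of_edge D.E hk'.symm hl, hd'⟩
  -- induction along a walk
  have h3 : ∀ (w : D.E.V) (hw : Big D.E w) (u : D.E.V) (p : D.E.T.Walk u w),
      (∀ hu : Big D.E u, (D.Γ r).Reachable ⟨u, hu⟩ ⟨w, hw⟩) ∧
      (¬ Big D.E u → ∀ (u' : D.E.V) (hu' : Big D.E u'), D.E.T.Adj u u' →
        (D.Γ r).Reachable ⟨u', hu'⟩ ⟨w, hw⟩) := by
    intro w hw u p
    induction p with
    | nil =>
      exact ⟨fun _ => SimpleGraph.Reachable.refl _, fun h => absurd hw h⟩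
    | @cons u u₁ w' hadj p ih =>
      obtain ⟨ih1, ih2⟩ := ih hw
      constructor
      · intro hu
        by_cases hb : Big D.E u₁
        · exact (h1 u u₁ hu hb hadj).trans (ih1 hb)
        · exact ih2 hb u hu hadj.symm
      · intro hu u' hu' hadj'
        have hb : Big D.E u₁ := (D.big_or hadj).resolve_left hu
        exact (h2 u' u u₁ hu' hb hu hadj' hadj).trans (ih1 hb)
  have hne : Nonempty D.VV := by
    rcases D.hbig with h | h
    · exact ⟨⟨_, h⟩⟩
    · exact ⟨⟨_, h⟩⟩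
  refine ⟨fun v w => ?_⟩
  obtain ⟨p⟩ := D.E.tree.connected.preconnected v.1 w.1
  exact (h3 w.1 w.2 v.1 p).1 v.2

/-- the action preserves distances in the tree -/
theorem dist_smul_le (g : G) (x y : D.E.V) : D.E.T.dist (g • x) (g • y) ≤ D.E.T.dist x y := by
  obtain ⟨p, hp⟩ := (D.E.tree.connected.preconnected x y).exists_walk_length_eq_dist
  let f : D.E.T →g D.E.T := ⟨fun x => g • x, fun h => D.E.map_adj g h⟩
  have := SimpleGraph.dist_le (p.map f)
  rw [SimpleGraph.Walk.length_map, hp] at this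
  exact this

theorem dist_smul (g : G) (x y : D.E.V) : D.E.T.dist (g • x) (g • y) = D.E.T.dist x y := by
  refine le_antisymm (D.dist_smul_le g x y) ?_
  have := D.dist_smul_le g⁻¹ (g • x) (g • y)
  rwa [inv_smul_smul, inv_smul_smul] at this

/-- orbit maps are Lipschitz -/
theorem exists_lip : ∃ L : ℕ, ∀ x y : G,
    D.E.T.dist (x • D.E.a) (y • D.E.a) ≤ L * wdist D.S x y := by
  obtain ⟨L, hL⟩ := (D.hS.image (fun s => D.E.T.dist D.E.a (s • D.E.a))).bddAbove
  have hL' : ∀ s ∈ D.S, D.E.T.dist D.E.a (s • D.E.a) ≤ L := fun s hs => hL ⟨s, hs, rfl⟩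
  have h1 : ∀ s, (s ∈ D.S ∨ s⁻¹ ∈ D.S) → D.E.T.dist D.E.a (s • D.E.a) ≤ L := by
    rintro s (hs | hs)
    · exact hL' s hs
    · have := hL' _ hs
      rw [← D.dist_smul s, smul_inv_smul, SimpleGraph.dist_comm] at this
      exact this
  have h2 : ∀ l : List G, (∀ x ∈ l, x ∈ D.S ∨ x⁻¹ ∈ D.S) →
      D.E.T.dist D.E.a (l.prod • D.E.a) ≤ L * l.length := by
    intro l
    induction l with
    | nil => intro _; simp
    | cons s l ih =>
      intro hl
      have h3 := ih (fun x hx => hl x (List.mem_cons_of_mem _ hx))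
      have h4 := h1 s (hl s List.mem_cons_self)
      rw [List.prod_cons, mul_smul, List.length_cons]
      calc D.E.T.dist D.E.a (s • l.prod • D.E.a)
          ≤ D.E.T.dist D.E.a (s • D.E.a) + D.E.T.dist (s • D.E.a) (s • l.prod • D.E.a) :=
            D.E.tree.connected.dist_triangle
        _ ≤ L + L * l.length := by rw [D.dist_smul]; exact add_le_add h4 h3
        _ = L * (l.length + 1) := by ring
  refine ⟨L, fun x y => ?_⟩
  obtain ⟨l, hl, hprod, hlen⟩ := q6_exists_word D.gS (x⁻¹ * y)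
  have h5 := h2 l hl
  rw [hprod, ← D.dist_smul x, ← mul_smul, mul_inv_cancel_left] at h5
  have h6 : l.length = wdist D.S x y := hlen
  rw [← h6]
  exact h5

theorem dist_VS {v : D.E.V} {x : G} (hx : x ∈ VS D.E v) :
    D.E.T.dist v (x • D.E.a) ≤ 1 := by
  rcases hx with h | h
  · rw [h]; simp
  · rw [← h]
    exact (SimpleGraph.dist_eq_one_iff_adj.2 (adj_k D.E x).symm).le

theorem exists_dist_bound (r : ℕ) : ∃ B : ℕ, ∀ v w : D.VV, (D.Γ r).Adj v w →
    D.E.T.dist v.1 w.1 ≤ B := by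
  obtain ⟨L, hL⟩ := D.exists_lip
  refine ⟨1 + L * (D.cc r + D.cc r) + 1, fun v w hvw => ?_⟩
  obtain ⟨y, hy1, hy2⟩ := ((D.Γ_adj r v w).1 hvw).2.nonempty
  obtain ⟨x, hx, hd⟩ := Nr.ofOne D hy1
  obtain ⟨x', hx', hd'⟩ := Nr.ofOne D hy2
  have h1 : wdist D.S x x' ≤ D.cc r + D.cc r := by
    refine (wdist_triangle D.gS x (D.F' y) x').trans ?_
    rw [wdist_comm D.gS x]
    exact add_le_add hd hd'
  have h2 : D.E.T.dist (x • D.E.a) (x' • D.E.a) ≤ L * (D.cc r + D.cc r) :=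
    (hL x x').trans (by gcongr)
  have h3 := D.dist_VS hx
  have h4 := D.dist_VS hx'
  rw [SimpleGraph.dist_comm] at h4
  calc D.E.T.dist v.1 w.1 ≤ D.E.T.dist v.1 (x • D.E.a) + D.E.T.dist (x • D.E.a) w.1 :=
        D.E.tree.connected.dist_triangle
    _ ≤ D.E.T.dist v.1 (x • D.E.a) + (D.E.T.dist (x • D.E.a) (x' • D.E.a) +
          D.E.T.dist (x' • D.E.a) w.1) := by
        gcongr; exact D.E.tree.connected.dist_triangle
    _ ≤ 1 + L * (D.cc r + D.cc r) + 1 := by omega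

theorem dist_le_mul {r B : ℕ} (hB : ∀ v w : D.VV, (D.Γ r).Adj v w → D.E.T.dist v.1 w.1 ≤ B)
    (hconn : (D.Γ r).Connected) (v w : D.VV) :
    D.E.T.dist v.1 w.1 ≤ B * (D.Γ r).dist v w := by
  obtain ⟨p, hp⟩ := (hconn.preconnected v w).exists_walk_length_eq_dist
  rw [← hp]
  clear hp
  induction p with
  | nil => simp
  | @cons u u₁ w' hadj p ih =>
    rw [SimpleGraph.Walk.length_cons]
    calc D.E.T.dist u.1 w'.1 ≤ D.E.T.dist u.1 u₁.1 + D.E.T.dist u₁.1 w'.1 :=
          D.E.tree.connected.dist_triangle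
      _ ≤ B + B * p.length := add_le_add (hB _ _ hadj) ih
      _ = B * (p.length + 1) := by ring

/-- a set of vertices that is unbounded in the tree has an unbounded trace on the big vertices -/
theorem unbdd_of_tree {r : ℕ} (hconn : (D.Γ r).Connected) (k : G) (P : D.E.V → Prop)
    (hP : Unbdd D.E.T {x | P x})
    (hadj : ∀ {x y : D.E.V}, D.E.T.Adj x y → s(x, y) ≠ s(k • D.E.a, k • D.E.b) → (P x ↔ P y)) :
    Unbdd (D.Γ r) {v : D.VV | P v.1} := by
  obtain ⟨B, hB⟩ := D.exists_dist_bound r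
  intro v n
  obtain ⟨u, hu, hd⟩ := hP (k • D.E.a) (B * n + D.E.T.dist (k • D.E.a) v.1 + 3)
  -- distance of u from v
  have h1 : B * n + 3 ≤ D.E.T.dist v.1 u := by
    have := D.E.tree.connected.dist_triangle (u := k • D.E.a) (v := v.1) (w := u)
    omega
  -- a big vertex u' equal or adjacent to u
  have h2 : ∃ u' : D.E.V, Big D.E u' ∧ P u' ∧ D.E.T.dist u u' ≤ 1 := by
    by_cases hb : Big D.E u
    · exact ⟨u, hb, hu, by simp⟩
    · have hne : u ≠ k • D.E.a := by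
        rintro rfl
        simp at hd
      obtain ⟨z, hz, -⟩ := exists_first D.E.tree hne
      refine ⟨z, (D.big_or hz).resolve_left hb, ?_, ?_⟩
      · refine (hadj hz ?_).1 hu
        intro h3
        rw [Sym2.eq_iff] at h3
        rcases h3 with ⟨h3, -⟩ | ⟨h3, h4⟩
        · exact hne h3
        · have : D.E.T.dist (k • D.E.a) u = 1 := by
            rw [h3]
            exact SimpleGraph.dist_eq_one_iff_adj.2 (adj_k D.E k)
          omega
      · exact (SimpleGraph.dist_eq_one_iff_adj.2 hz).le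
  obtain ⟨u', hb, hPu, hd'⟩ := h2
  refine ⟨⟨u', hb⟩, hPu, ?_⟩
  by_contra hlt
  push Not at hlt
  have h4 := D.dist_le_mul hB hconn v ⟨u', hb⟩
  have h5 : B * (D.Γ r).dist v ⟨u', hb⟩ ≤ B * n := by gcongr
  have h6 := D.E.tree.connected.dist_triangle (u := v.1) (v := u') (w := u)
  rw [SimpleGraph.dist_comm (u := u') (v := u)] at h6
  have h7 : D.E.T.dist v.1 u' ≤ B * n := h4.trans h5
  omega

end Dat

end Pool.Agent.QIS
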