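import Pool.Agent.H67.Q.StructB

/-!
# The tree of a nested cut gives a splitting
-/

set_option autoImplicit false

namespace Pool.Agent.QIS

namespace Q4

variable {H V : Type} [Group H] [MulAction H V]

lemma tr_one (A : Set V) : tr (1 : H) A = A := by
  ext x
  simp [tr]

lemma tr_mul (g h : H) (A : Set V) : tr (g * h) A = tr g (tr h A) := by
  ext x
  simp [tr, mul_smul]

lemma tr_mono (g : H) {A B : Set V} (h : A ⊆ B) : tr g A ⊆ tr g B := fun _ hx => h hx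

lemma tr_compl (g : H) (A : Set V) : tr g Aᶜ = (tr g A)ᶜ := rfl

lemma mem_tr (g : H) (A : Set V) (x : V) : g • x ∈ tr g A ↔ x ∈ A := by
  simp [tr]

/-- the half-spaces -/
def Hs (H : Type) {V : Type} [Group H] [MulAction H V] (A : Set V) : Type :=
  {C : Set V // ∃ h : H, C = tr h A ∨ C = (tr h A)ᶜ}

instance (A : Set V) : PartialOrder (Hs H A) := inferInstanceAs (PartialOrder (Subtype _))

/-- the complement -/
def cp {A : Set V} (C : Hs H A) : Hs H A :=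
  ⟨C.1ᶜ, by
    obtain ⟨h, hh | hh⟩ := C.2
    · exact ⟨h, Or.inr (by rw [hh])⟩
    · exact ⟨h, Or.inl (by rw [hh, compl_compl])⟩⟩

instance (A : Set V) : MulAction H (Hs H A) where
  smul g C := ⟨tr g C.1, by
    obtain ⟨h, hh | hh⟩ := C.2
    · exact ⟨g * h, Or.inl (by rw [hh, tr_mul])⟩
    · exact ⟨g * h, Or.inr (by rw [hh, tr_compl, tr_mul])⟩⟩
  one_smul C := Subtype.ext (tr_one C.1)
  mul_smul g h C := Subtype.ext (tr_mul g h C.1)

lemma smul_val {A : Set V} (g : H) (C : Hs H A) : (g • C).1 = tr g C.1 := rfl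

lemma act (A : Set V) : Act H (cp : Hs H A → Hs H A) where
  le g _ _ h := tr_mono g h
  c _ _ := rfl

lemma nested_compl {A B : Set V} (h : Nested A B) : Nested A Bᶜ := by
  simp only [Nested, compl_compl] at h ⊢
  tauto

lemma nested_compl' {A B : Set V} (h : Nested A B) : Nested Aᶜ B := by
  simp only [Nested, compl_compl] at h ⊢
  tauto

lemma nested_tr (g : H) {A B : Set V} (h : Nested A B) : Nested (tr g A) (tr g B) := by
  simp only [Nested, ← tr_compl] at h ⊢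
  rcases h with h | h | h | h
  · exact Or.inl (tr_mono g h)
  · exact Or.inr (Or.inl (tr_mono g h))
  · exact Or.inr (Or.inr (Or.inl (tr_mono g h)))
  · exact Or.inr (Or.inr (Or.inr (tr_mono g h)))

lemma ne_tr {A : Set V} (hA : A.Nonempty) (g : H) : (tr g A).Nonempty := by
  obtain ⟨x, hx⟩ := hA
  exact ⟨g • x, (mem_tr g A x).mpr hx⟩

lemma np (A : Set V) (hne : A.Nonempty) (hne' : Aᶜ.Nonempty)
    (hnest : ∀ h : H, Nested A (tr h A))
    (hfin : ∀ x y : V, {B : Set V | (∃ h : H, B = tr h A) ∧ x ∈ B ∧ y ∉ B}.Finite) :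
    NP (cp : Hs H A → Hs H A) := by
  have hn : ∀ C : Hs H A, C.1.Nonempty := by
    rintro ⟨C, h, rfl | rfl⟩
    · exact ne_tr hne h
    · exact ne_tr hne' h
  have hcc : ∀ C : Hs H A, cp (cp C) = C := fun C => Subtype.ext (compl_compl C.1)
  refine ⟨hcc, fun h => Set.compl_subset_compl.mpr h, ?_, ?_, ?_⟩
  · intro x y h1 h2
    obtain ⟨v, hv⟩ := hn x
    exact h2 hv (h1 hv)
  · have key : ∀ g h : H, Nested (tr g A) (tr h A) := by
      intro g h
      have := nested_tr g (hnest (g⁻¹ * h))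
      rwa [← tr_mul, mul_inv_cancel_left] at this
    have key2 : ∀ x y : Hs H A, Nested x.1 y.1 := by
      rintro ⟨x, g, hx⟩ ⟨y, h, hy⟩
      have h0 := key g h
      rcases hx with rfl | rfl
      · rcases hy with rfl | rfl
        · exact h0
        · exact nested_compl h0
      · rcases hy with rfl | rfl
        · exact nested_compl' h0
        · exact nested_compl' (nested_compl h0)
    intro x y
    exact key2 x y
  · intro C D
    obtain ⟨x, hx⟩ := hn C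
    obtain ⟨y, hy⟩ := hn (cp D)
    have h1 := hfin x y
    have h2 := (hfin y x).image (fun B => Bᶜ)
    have hinj : Function.Injective (fun C : Hs H A => C.1) := Subtype.val_injective
    refine Set.Finite.subset ((h1.union h2).preimage (f := fun C : Hs H A => C.1)
      (fun a _ b _ hab => hinj hab)) ?_
    rintro ⟨Z, h, hZ⟩ ⟨hCZ, hZD⟩
    have hxZ : x ∈ Z := hCZ hx
    have hyZ : y ∉ Z := fun hh => hy (hZD hh)
    rcases hZ with rfl | rfl
    · exact Or.inl ⟨⟨h, rfl⟩, hxZ, hyZ⟩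
    · refine Or.inr ⟨tr h A, ⟨⟨h, rfl⟩, ?_, hxZ⟩, rfl⟩
      by_contra hh
      exact hyZ hh

/-! ### far translates -/

variable (Γ : SimpleGraph V) (hact : ∀ (h : H) {x y : V}, Γ.Adj x y → Γ.Adj (h • x) (h • y))

include hact in
lemma dist_smul_le (hconn : Γ.Connected) (h : H) (x y : V) :
    Γ.dist (h • x) (h • y) ≤ Γ.dist x y := by
  obtain ⟨p, hp⟩ := hconn.exists_walk_length_eq_dist x y
  let f : Γ →g Γ := ⟨fun v => h • v, fun hxy => hact h hxy⟩
  have := SimpleGraph.dist_le (p.map f)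
  rw [SimpleGraph.Walk.length_map, hp] at this
  exact this

lemma cross_near (hconn : Γ.Connected) (B : Set V) {v y : V} (hv : v ∈ B) (hy : y ∉ B) :
    ∃ u w, Γ.Adj u w ∧ u ∈ B ∧ w ∉ B ∧ Γ.dist v u ≤ Γ.dist v y := by
  classical
  obtain ⟨p, hp⟩ := hconn.exists_walk_length_eq_dist v y
  obtain ⟨d, hd, h1, h2⟩ := p.exists_boundary_dart B hv hy
  refine ⟨d.fst, d.snd, d.adj, h1, h2, ?_⟩
  have hmem : d.fst ∈ p.support := p.dart_fst_mem_support_of_mem_darts hd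
  calc Γ.dist v d.fst ≤ (p.takeUntil _ hmem).length := SimpleGraph.dist_le _
    _ ≤ p.length := p.length_takeUntil_le_length hmem
    _ = Γ.dist v y := hp

include hact in
/-- some translate of the finite set `F` lies inside the unbounded set `B` with boundary in `F` -/
lemma exists_far (hconn : Γ.Connected) (P : Set V) (hP : P.Finite)
    (hcof : ∀ v : V, ∃ h : H, h • v ∈ P) (B F : Set V) (hF : F.Finite)
    (hBF : ∀ u w, Γ.Adj u w → u ∈ B → w ∉ B → u ∈ F) (hB : Unbdd Γ B) :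
    ∃ h : H, ∀ f ∈ F, h • f ∈ B := by
  rcases F.eq_empty_or_nonempty with rfl | ⟨x₀, hx₀⟩
  · exact ⟨1, fun f hf => absurd hf (by simp)⟩
  obtain ⟨D, hD⟩ : ∃ D : ℕ, ∀ p ∈ P, ∀ f ∈ F, Γ.dist p f ≤ D := by
    obtain ⟨D, hD⟩ := ((hP.prod hF).image (fun q : V × V => Γ.dist q.1 q.2)).bddAbove
    exact ⟨D, fun p hp f hf => hD ⟨(p, f), ⟨hp, hf⟩, rfl⟩⟩
  obtain ⟨D', hD'⟩ : ∃ D' : ℕ, ∀ f ∈ F, Γ.dist x₀ f ≤ D' := by
    obtain ⟨D', hD'⟩ := (hF.image (fun f => Γ.dist x₀ f)).bddAbove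
    exact ⟨D', fun f hf => hD' ⟨f, hf, rfl⟩⟩
  obtain ⟨v, hv, hfar⟩ := hB x₀ (D + D' + 1)
  obtain ⟨g, hg⟩ := hcof v
  refine ⟨g⁻¹, fun f hf => ?_⟩
  by_contra hcon
  obtain ⟨u, w, hadj, hu, hw, hle⟩ := cross_near Γ hconn B hv hcon
  have huF := hBF u w hadj hu hw
  have h1 : Γ.dist v (g⁻¹ • f) ≤ D := by
    have h2 := dist_smul_le Γ hact hconn g⁻¹ (g • v) f
    rw [inv_smul_smul] at h2
    exact h2.trans (hD _ hg f hf)
  have h3 : Γ.dist x₀ v ≤ Γ.dist x₀ u + Γ.dist u v := hconn.dist_triangle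
  have h4 := hD' u huF
  rw [SimpleGraph.dist_comm (u := u)] at h3
  omega

end Q4

open Q4

theorem splitting_of_nested_cut {H V : Type} [Group H] [MulAction H V]
    (Γ : SimpleGraph V) (hconn : Γ.Connected)
    (hact : ∀ (h : H) {x y : V}, Γ.Adj x y → Γ.Adj (h • x) (h • y))
    (P : Set V) (hP : P.Finite) (hcof : ∀ v : V, ∃ h : H, h • v ∈ P)
    (A : Set V) (hA : IsCut Γ A) (hnest : ∀ h : H, Nested A (tr h A))
    (hfin : ∀ x y : V, {B : Set V | (∃ h : H, B = tr h A) ∧ x ∈ B ∧ y ∉ B}.Finite) :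
    ∃ E : Splitting H, ∀ h : H, h ∈ E.edgeGroup ↔ tr h A = A := by
  obtain ⟨hbd, hub, hub'⟩ := hA
  obtain ⟨v₀⟩ := hconn.nonempty
  have hne : A.Nonempty := by
    obtain ⟨y, hy, -⟩ := hub v₀ 0
    exact ⟨y, hy⟩
  have hne' : Aᶜ.Nonempty := by
    obtain ⟨y, hy, -⟩ := hub' v₀ 0
    exact ⟨y, hy⟩
  have hNP : NP (cp : Hs H A → Hs H A) := np A hne hne' hnest hfin
  let A' : Hs H A := ⟨A, 1, Or.inl (tr_one A).symm⟩
  have htrans : ∀ C : Hs H A, ∃ g : H, C = g • A' ∨ C = cp (g • A') := by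
    rintro ⟨C, g, hC | hC⟩
    · exact ⟨g, Or.inl (Subtype.ext hC)⟩
    · exact ⟨g, Or.inr (Subtype.ext hC)⟩
  -- the ends of the boundary edges
  let F : Set V := Prod.fst '' bdry Γ A ∪ Prod.snd '' bdry Γ A
  have hFfin : F.Finite := (hbd.image _).union (hbd.image _)
  obtain ⟨u, w, huw, hu, hw⟩ : ∃ u w, Γ.Adj u w ∧ u ∈ A ∧ w ∉ A := by
    obtain ⟨x, hx⟩ := hne
    obtain ⟨y, hy⟩ := hne'
    obtain ⟨u, w, h1, h2, h3, -⟩ := cross_near Γ hconn A hx hy
    exact ⟨u, w, h1, h2, h3⟩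
  have huF : u ∈ F := Or.inl ⟨(u, w), ⟨huw, hu, hw⟩, rfl⟩
  have hwF : w ∈ F := Or.inr ⟨(u, w), ⟨huw, hu, hw⟩, rfl⟩
  have key : ∀ B : Hs H A, (∃ g : H, ∀ f ∈ F, g • f ∈ B.1) →
      ∃ g : H, g • A' < B ∨ cp (g • A') < B := by
    rintro B ⟨g, hg⟩
    refine ⟨g, ?_⟩
    have h1 := hg u huF
    have h2 := hg w hwF
    have h3 : g • u ∈ (g • A').1 := (mem_tr g A u).mpr hu
    have h4 : g • w ∉ (g • A').1 := fun hh => hw ((mem_tr g A w).mp hh)
    rcases hNP.nest (g • A') B with h | h | h | h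
    · refine Or.inl (lt_of_le_of_ne h fun hh => ?_)
      rw [hh] at h4
      exact h4 h2
    · exact absurd h1 (h h3)
    · refine Or.inr (lt_of_le_of_ne h fun hh => ?_)
      rw [← hh] at h1
      exact h1 h3
    · exact absurd h2 (h h4)
  have hU1 : ∃ g : H, ∀ f ∈ F, g • f ∈ A'.1 := by
    refine exists_far Γ hact hconn P hP hcof A F hFfin ?_ hub
    intro u w h1 h2 h3
    exact Or.inl ⟨(u, w), ⟨h1, h2, h3⟩, rfl⟩
  have hU2 : ∃ g : H, ∀ f ∈ F, g • f ∈ (cp A').1 := by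
    refine exists_far Γ hact hconn P hP hcof Aᶜ F hFfin ?_ hub'
    intro u w h1 h2 h3
    exact Or.inr ⟨(w, u), ⟨h1.symm, by simpa using h3, h2⟩, rfl⟩
  obtain ⟨S, hS⟩ := (act A).splitting hNP A' htrans (key A' hU1) (key (cp A') hU2)
  refine ⟨S, fun h => ?_⟩
  rw [hS]
  exact ⟨fun hh => congrArg Subtype.val hh, fun hh => Subtype.ext hh⟩

end Pool.Agent.QIS
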