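import Pool.Agent.H67.Q.Stab
import Pool.Agent.H67.Q.Cuts
import Pool.Agent.H67.Q.Structure

/-!
# The main theorem
-/

namespace Pool.Agent.QIS

open MulAction

namespace Dat

variable {G H : Type} [Group G] [Group H] (D : Dat G H)

theorem splits (hone : OneEnded D.S) : SplitsOverTwoEnded H := by
  classical
  obtain ⟨r₁, hr₁⟩ := D.exists_connected
  obtain ⟨r, hr, hrK⟩ : ∃ r, r₁ ≤ r ∧ D.cc D.K ≤ r := ⟨max r₁ (D.cc D.K), le_max_left _ _,
    le_max_right _ _⟩
  have hconn := hr₁ r hr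
  have hact : ∀ (h : H) {x y : D.VV}, (D.Γ r).Adj x y → (D.Γ r).Adj (h • x) (h • y) :=
    fun h {x y} hxy => D.Γ_smul r h hxy
  -- the cut of the base edge
  have hun := D.E.unbdd
  have hsd : ∀ x : D.E.V, sd D.E 1 x ↔ side D.E.T D.E.a D.E.b x := by
    intro x; unfold sd; rw [one_smul, one_smul]
  have hA₀ : IsCut (D.Γ r) {v : D.VV | sd D.E 1 v.1} := by
    refine ⟨D.bdry_finite r 1, ?_, ?_⟩
    · refine D.unbdd_of_tree hconn 1 (fun x => sd D.E 1 x) ?_ ?_
      · have h1 : {x | sd D.E 1 x} = {x | side D.E.T D.E.a D.E.b x} := by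
          ext x; exact hsd x
        rw [h1]; exact hun.1
      · exact fun h hne => sd_adj D.E 1 h hne
    · have h2 : {v : D.VV | sd D.E 1 v.1}ᶜ = {v : D.VV | ¬ sd D.E 1 v.1} := rfl
      rw [h2]
      refine D.unbdd_of_tree hconn 1 (fun x => ¬ sd D.E 1 x) ?_ ?_
      · have h1 : {x | ¬ sd D.E 1 x} = {x | ¬ side D.E.T D.E.a D.E.b x} := by
          ext x; exact not_congr (hsd x)
        rw [h1]; exact hun.2
      · exact fun h hne => not_congr (sd_adj D.E 1 h hne)
  obtain ⟨A, hA, hnest, hfin⟩ := exists_nested_cut (H := H) (D.Γ r) hconn hact _ hA₀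
  obtain ⟨E', hE'⟩ := splitting_of_nested_cut (H := H) (D.Γ r) hconn hact
    {u | D.Nr r 1 u} (D.Nr_finite r 1) (fun v => by
      obtain ⟨y, hy⟩ := D.exists_Nr v
      exact ⟨y⁻¹, (Nr.toOne D hy).mono D hrK⟩) A hA hnest hfin
  refine ⟨E', ?_⟩
  have hinf : Infinite E'.edgeGroup :=
    infinite_edgeGroup D.S D.S' D.hS D.hS' D.gS D.gS' hone D.K D.F D.hF E'
  -- a boundary edge
  obtain ⟨v, w, hvw⟩ : ∃ v w : D.VV, (v, w) ∈ bdry (D.Γ r) A := by
    obtain ⟨x₀⟩ := hconn.nonempty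
    obtain ⟨x, hx, -⟩ := hA.2.1 x₀ 0
    obtain ⟨y, hy, -⟩ := hA.2.2 x₀ 0
    obtain ⟨p⟩ := hconn.preconnected x y
    obtain ⟨d, -, h1, h2⟩ := p.exists_boundary_dart A hx hy
    exact ⟨d.fst, d.snd, d.adj, h1, h2⟩
  have hK := D.stab_twoEnded hvw.1
  -- the stabilizer of the boundary edge in the edge group
  have hmove : ∀ g ∈ E'.edgeGroup, (g • v, g • w) ∈ bdry (D.Γ r) A := by
    intro g hg
    have h1 : tr g A = A := (hE' g).1 hg
    refine ⟨hact g hvw.1, ?_, ?_⟩
    · show g • v ∈ A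
      rw [← h1]
      show g⁻¹ • g • v ∈ A
      rw [inv_smul_smul]; exact hvw.2.1
    · show g • w ∉ A
      rw [← h1]
      show ¬ (g⁻¹ • g • w ∈ A)
      rw [inv_smul_smul]; exact hvw.2.2
  let rep : D.VV × D.VV → H := fun p =>
    if h : ∃ g ∈ E'.edgeGroup, (g • v, g • w) = p then h.choose else 1
  have hrep : ∀ g ∈ E'.edgeGroup, rep (g • v, g • w) ∈ E'.edgeGroup ∧
      rep (g • v, g • w) • v = g • v ∧ rep (g • v, g • w) • w = g • w := by
    intro g hg
    have h : ∃ g' ∈ E'.edgeGroup, (g' • v, g' • w) = (g • v, g • w) := ⟨g, hg, rfl⟩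
    simp only [rep, dif_pos h]
    have h2 := h.choose_spec.2
    rw [Prod.mk.injEq] at h2
    exact ⟨h.choose_spec.1, h2⟩
  -- the subgroup Q of the stabilizer of the boundary edge
  let Q : Subgroup ↥(stabilizer H v ⊓ stabilizer H w : Subgroup H) :=
    E'.edgeGroup.subgroupOf (stabilizer H v ⊓ stabilizer H w)
  have hcover : ∀ g ∈ E'.edgeGroup, ∃ f ∈ rep '' bdry (D.Γ r) A, ∃ q ∈ E'.edgeGroup,
      q ∈ (stabilizer H v ⊓ stabilizer H w : Subgroup H) ∧ g = f * q := by
    intro g hg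
    obtain ⟨h1, h2, h3⟩ := hrep g hg
    refine ⟨_, ⟨_, hmove g hg, rfl⟩, (rep (g • v, g • w))⁻¹ * g,
      E'.edgeGroup.mul_mem (E'.edgeGroup.inv_mem h1) hg, ?_, by group⟩
    rw [Subgroup.mem_inf, mem_stabilizer_iff, mem_stabilizer_iff, mul_smul, mul_smul,
      inv_smul_eq_iff, inv_smul_eq_iff]
    exact ⟨h2.symm, h3.symm⟩
  have hbfin : (rep '' bdry (D.Γ r) A).Finite := hA.1.image _
  have hQinf : Infinite Q := by
    by_contra hQ
    rw [not_infinite_iff_finite] at hQ
    have h1 : {q : H | q ∈ E'.edgeGroup ∧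
        q ∈ (stabilizer H v ⊓ stabilizer H w : Subgroup H)}.Finite := by
      have h2 : Set.Finite (Set.range (fun q : Q =>
        ((q : ↥(stabilizer H v ⊓ stabilizer H w : Subgroup H)) : H))) := Set.finite_range _
      refine h2.subset ?_
      rintro q ⟨hq1, hq2⟩
      exact ⟨⟨⟨q, hq2⟩, Subgroup.mem_subgroupOf.2 hq1⟩, rfl⟩
    have h3 : ((E'.edgeGroup : Set H)).Finite := by
      refine (hbfin.image2 (fun f q => f * q) h1).subset ?_
      intro g hg
      obtain ⟨f, hf, q, hq1, hq2, rfl⟩ := hcover g hg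
      exact ⟨f, hf, q, ⟨hq1, hq2⟩, rfl⟩
    exact (Set.infinite_coe_iff.1 hinf) h3
  have hQte : TwoEnded Q := (TwoEnded.of_infinite hK Q hQinf).1
  -- transfer to the edge group
  have hQte' : TwoEnded (Q.map (stabilizer H v ⊓ stabilizer H w : Subgroup H).subtype) :=
    TwoEnded.congr (Q.equivMapOfInjective _ (Subgroup.subtype_injective _)) hQte
  rw [twoEnded_iff_cover] at hQte' ⊢
  obtain ⟨z, hz, hzinf, F, hF, hcov⟩ := hQte'
  have hmem : ∀ q : H, q ∈ Q.map (stabilizer H v ⊓ stabilizer H w : Subgroup H).subtype ↔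
      q ∈ E'.edgeGroup ∧ q ∈ (stabilizer H v ⊓ stabilizer H w : Subgroup H) := by
    intro q
    rw [Subgroup.mem_map]
    constructor
    · rintro ⟨x, hx, rfl⟩
      exact ⟨Subgroup.mem_subgroupOf.1 hx, x.2⟩
    · rintro ⟨h1, h2⟩
      exact ⟨⟨q, h2⟩, Subgroup.mem_subgroupOf.2 h1, rfl⟩
  refine ⟨z, ((hmem z).1 hz).1, hzinf, Set.image2 (fun f q => f * q) (rep '' bdry (D.Γ r) A) F,
    hbfin.image2 _ hF, fun g hg => ?_⟩
  obtain ⟨f, hf, q, hq1, hq2, rfl⟩ := hcover g hg
  obtain ⟨f', hf', n, hn⟩ := hcov q ((hmem q).2 ⟨hq1, hq2⟩)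
  refine ⟨f * f', ⟨f, hf, f', hf', rfl⟩, n, ?_⟩
  rw [hn, mul_assoc]

end Dat

/-- Let `G` be a finitely generated one-ended group that splits over a two-ended subgroup, with
not both vertex groups two-ended, such that no quasi-isometry of `G` moves a vertex group that is
not two-ended across the edge group. Then every finitely generated group quasi-isometric to `G`
splits over a two-ended subgroup. -/
theorem main_theorem (G H : Type) [Group G] [Group H] (S : Set G) (S' : Set H) (hS : S.Finite)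
    (hS' : S'.Finite) (hSg : Subgroup.closure S = ⊤) (hS'g : Subgroup.closure S' = ⊤)
    (hone : OneEnded S) (E : Splitting G) (hC : TwoEnded E.edgeGroup)
    (hV : ¬ (TwoEnded (stabilizer G E.a) ∧ TwoEnded (stabilizer G E.b)))
    (hA : TwoEnded (stabilizer G E.a) ∨ NotCrossed S E (stabilizer G E.a))
    (hB : TwoEnded (stabilizer G E.b) ∨ NotCrossed S E (stabilizer G E.b))
    (hqi : ∃ (K : ℕ) (F : G → H), IsQI S S' K F) : SplitsOverTwoEnded H := by
  obtain ⟨K, F, hF⟩ := hqi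
  obtain ⟨K', F', hF', h1, h2⟩ := exists_quasiInverse hSg hS'g K F hF
  let D : Dat G H :=
    { S := S, S' := S', hS := hS, hS' := hS', gS := hSg, gS' := hS'g, E := E, hC := hC
      hbig := by
        by_contra h
        unfold Big at h
        exact hV ⟨by tauto, by tauto⟩
      nca := fun h => hA.resolve_left h
      ncb := fun h => hB.resolve_left h
      K := max K K'
      F := F
      F' := F'
      hF := hF.mono (le_max_left _ _)
      hF' := hF'.mono (le_max_right _ _)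
      h1 := fun y => (h1 y).trans (le_max_right _ _)
      h2 := fun x => (h2 x).trans (le_max_right _ _) }
  exact D.splits hone

end Pool.Agent.QIS
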