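import Pool.Agent.H67.Q.Graph

/-!
# Vertex spaces parallel to an edge space; finite cuts; stabilizers of edges of the graph
-/

namespace Pool.Agent.QIS

open MulAction

/-- two-ended subgroups, seen from the ambient group -/
theorem twoEnded_iff_cover {G : Type} [Group G] (K : Subgroup G) :
    TwoEnded K ↔ ∃ z ∈ K, (∀ n : ℕ, 0 < n → z ^ n ≠ 1) ∧
      ∃ F : Set G, F.Finite ∧ ∀ x ∈ K, ∃ f ∈ F, ∃ n : ℤ, x = f * z ^ n := by
  constructor
  · rintro ⟨z, hz, hf⟩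
    obtain ⟨F, hF, hcov⟩ := q2_cover _ hf
    refine ⟨z, z.2, fun n hn h => hz n hn (Subtype.ext (by simpa using h)),
      Subtype.val '' F, hF.image _, fun x hx => ?_⟩
    obtain ⟨f, hfF, n, hn⟩ := hcov ⟨x, hx⟩
    refine ⟨f, ⟨f, hfF, rfl⟩, n, ?_⟩
    have h1 := congrArg Subtype.val hn
    simp only [Subgroup.coe_zpow, Subgroup.coe_mul, Subgroup.coe_inv] at h1
    rw [h1, mul_inv_cancel_left]
  · rintro ⟨z, hz, hinf, F, hF, hcov⟩
    classical
    refine ⟨⟨z, hz⟩, fun n hn h => hinf n hn (by simpa using congrArg Subtype.val h), ?_⟩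
    -- representatives inside K
    let g : G → K := fun f => if h : ∃ x ∈ K, ∃ n : ℤ, x = f * z ^ n then ⟨h.choose, h.choose_spec.1⟩
      else 1
    refine q2_finiteIndex_of_cover _ (g '' F) (hF.image _) fun x => ?_
    obtain ⟨f, hfF, n, hn⟩ := hcov x x.2
    have hex : ∃ x ∈ K, ∃ n : ℤ, x = f * z ^ n := ⟨x, x.2, n, hn⟩
    refine ⟨g f, ⟨f, hfF, rfl⟩, ?_⟩
    obtain ⟨m, hm⟩ := hex.choose_spec.2
    have hg : ((g f : K) : G) = f * z ^ m := by
      simp only [g, dif_pos hex]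
      exact hm
    refine ⟨n - m, Subtype.ext ?_⟩
    simp only [Subgroup.coe_zpow, Subgroup.coe_mul, Subgroup.coe_inv]
    rw [hg, hn, zpow_sub]
    have : z ^ n * (z ^ m)⁻¹ = (z ^ m)⁻¹ * z ^ n := by
      rw [← zpow_neg, ← zpow_add, ← zpow_add, add_comm]
    rw [this]; group

namespace Dat

variable {G H : Type} [Group G] [Group H] (D : Dat G H)

/-- if infinitely many points of the vertex space of `v` are near the edge space of `k`, then an
infinite subgroup of the edge group fixes the vertex `k⁻¹ • v` -/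
theorem infinite_of_par (ρ : ℕ) (k : G) (v : D.E.V)
    (h : (VS D.E v ∩ nbhd D.S ρ (ES D.E k)).Infinite) :
    ((D.E.edgeGroup : Set G) ∩ {c | c • k⁻¹ • v = k⁻¹ • v}).Infinite := by
  classical
  -- each point is l * b with l in the edge space, b in a ball
  have h1 : ∀ x ∈ VS D.E v ∩ nbhd D.S ρ (ES D.E k), ∃ l ∈ ES D.E k, wlen D.S (l⁻¹ * x) ≤ ρ := by
    rintro x ⟨-, l, hl, hd⟩
    refine ⟨l, hl, ?_⟩
    rw [wdist_comm D.gS] at hd
    exact hd
  choose! l hl hlb using h1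
  -- pigeonhole on b and the type
  let key : G → G × Prop := fun x => ((l x)⁻¹ * x, x • D.E.a = v)
  have hball : {g : G | wlen D.S g ≤ ρ}.Finite := (properLen_wlen D.hS D.gS).fin ρ
  have hmaps : Set.MapsTo key (VS D.E v ∩ nbhd D.S ρ (ES D.E k))
      ({g : G | wlen D.S g ≤ ρ} ×ˢ (Set.univ : Set Prop)) := by
    intro x hx
    exact ⟨hlb x hx, trivial⟩
  have hfinT : (({g : G | wlen D.S g ≤ ρ} ×ˢ (Set.univ : Set Prop))).Finite :=
    hball.prod Set.finite_univ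
  obtain ⟨⟨b, q⟩, hinf⟩ : ∃ t : G × Prop,
      ((VS D.E v ∩ nbhd D.S ρ (ES D.E k)) ∩ key ⁻¹' {t}).Infinite := by
    by_contra hcon
    push Not at hcon
    refine h ((hfinT.biUnion fun t _ => (hcon t)).subset ?_)
    intro x hx
    simp only [Set.mem_iUnion]
    exact ⟨key x, hmaps hx, hx, rfl⟩
  obtain ⟨x₀, hx₀⟩ := hinf.nonempty
  have hx₀' : key x₀ = (b, q) := hx₀.2
  -- the map x ↦ k⁻¹ l(x) l(x₀)⁻¹ k
  have hmem : ∀ x ∈ (VS D.E v ∩ nbhd D.S ρ (ES D.E k)) ∩ key ⁻¹' {(b, q)},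
      k⁻¹ * l x * (l x₀)⁻¹ * k ∈ (D.E.edgeGroup : Set G) ∩ {c | c • k⁻¹ • v = k⁻¹ • v} := by
    rintro x ⟨hx, hxk⟩
    have hxk' : key x = (b, q) := hxk
    have e1 : k⁻¹ * l x ∈ D.E.edgeGroup := (mem_ES_iff D.E k _).1 (hl x hx)
    have e2 : k⁻¹ * l x₀ ∈ D.E.edgeGroup := (mem_ES_iff D.E k _).1 (hl x₀ hx₀.1)
    constructor
    · have : k⁻¹ * l x * (l x₀)⁻¹ * k = (k⁻¹ * l x) * (k⁻¹ * l x₀)⁻¹ := by group
      rw [this]
      exact D.E.edgeGroup.mul_mem e1 (D.E.edgeGroup.inv_mem e2)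
    · have e3 : (l x)⁻¹ * x = b := congrArg Prod.fst hxk'
      have e4 : (l x₀)⁻¹ * x₀ = b := congrArg Prod.fst hx₀'
      have e5 : (x • D.E.a = v) = q := congrArg Prod.snd hxk'
      have e6 : (x₀ • D.E.a = v) = q := congrArg Prod.snd hx₀'
      have e7 : l x * (l x₀)⁻¹ = x * x₀⁻¹ := by
        have : x = l x * b := by rw [← e3]; group
        have h' : x₀ = l x₀ * b := by rw [← e4]; group
        calc l x * (l x₀)⁻¹ = (l x * b) * (l x₀ * b)⁻¹ := by group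
          _ = x * x₀⁻¹ := by rw [← this, ← h']
      have e8 : (x * x₀⁻¹) • v = v := by
        by_cases hq : q
        · have a1 : x • D.E.a = v := by rw [e5]; exact hq
          have a2 : x₀ • D.E.a = v := by rw [e6]; exact hq
          rw [mul_smul, ← a2, inv_smul_smul, a1, a2]
        · have a1 : x • D.E.b = v := hx.1.resolve_left (by
            have : ¬ (x • D.E.a = v) := by rw [e5]; exact hq
            exact this)
          have a2 : x₀ • D.E.b = v := hx₀.1.1.resolve_left (by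
            have : ¬ (x₀ • D.E.a = v) := by rw [e6]; exact hq
            exact this)
          rw [mul_smul, ← a2, inv_smul_smul, a1, a2]
      show (k⁻¹ * l x * (l x₀)⁻¹ * k) • k⁻¹ • v = k⁻¹ • v
      have e9 : k⁻¹ * l x * (l x₀)⁻¹ * k = k⁻¹ * (l x * (l x₀)⁻¹) * k := by group
      rw [e9, e7, mul_smul, mul_smul, smul_inv_smul, e8]
  have hinj : Set.InjOn (fun x => k⁻¹ * l x * (l x₀)⁻¹ * k)
      ((VS D.E v ∩ nbhd D.S ρ (ES D.E k)) ∩ key ⁻¹' {(b, q)}) := by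
    intro x hx x' hx' hxx
    have e1 : l x = l x' := by simpa using hxx
    have e3 : (l x)⁻¹ * x = b := congrArg Prod.fst hx.2
    have e4 : (l x')⁻¹ * x' = b := congrArg Prod.fst hx'.2
    rw [e1, ← e4] at e3
    exact mul_left_cancel e3
  exact (hinf.image hinj).mono (by rintro _ ⟨x, hx, rfl⟩; exact hmem x hx)

/-- then the stabilizer has finite index in the edge group -/
theorem finiteIndex_of_par (ρ : ℕ) (k : G) (v : D.E.V)
    (h : (VS D.E v ∩ nbhd D.S ρ (ES D.E k)).Infinite) :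
    ((stabilizer G (k⁻¹ • v)).subgroupOf D.E.edgeGroup).FiniteIndex := by
  have h1 := D.infinite_of_par ρ k v h
  refine (TwoEnded.of_infinite D.hC _ ?_).2
  have h2 : Infinite ↥((D.E.edgeGroup : Set G) ∩ {c | c • k⁻¹ • v = k⁻¹ • v}) :=
    Set.infinite_coe_iff.2 h1
  refine Infinite.of_injective (fun c : ↥((D.E.edgeGroup : Set G) ∩
    {c | c • k⁻¹ • v = k⁻¹ • v}) => (⟨⟨c.1, c.2.1⟩, ?_⟩ :
      (stabilizer G (k⁻¹ • v)).subgroupOf D.E.edgeGroup)) ?_
  · rw [Subgroup.mem_subgroupOf, mem_stabilizer_iff]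
    exact c.2.2
  · intro c c' hcc
    have := congrArg (fun x : (stabilizer G (k⁻¹ • v)).subgroupOf D.E.edgeGroup =>
      ((x : D.E.edgeGroup) : G)) hcc
    exact Subtype.ext this

theorem orbit_finite_of_par (ρ : ℕ) (k : G) (v : D.E.V)
    (h : (VS D.E v ∩ nbhd D.S ρ (ES D.E k)).Infinite) :
    (Set.range (fun c : D.E.edgeGroup => (c : G) • k⁻¹ • v)).Finite := by
  obtain ⟨F, hF, hcov⟩ := q2_cover _ (D.finiteIndex_of_par ρ k v h)
  refine (hF.image (fun f : D.E.edgeGroup => (f : G) • k⁻¹ • v)).subset ?_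
  rintro _ ⟨c, rfl⟩
  obtain ⟨f, hf, hfc⟩ := hcov c
  refine ⟨f, hf, ?_⟩
  rw [Subgroup.mem_subgroupOf, mem_stabilizer_iff] at hfc
  have h1 : ((f : G)⁻¹ * (c : G)) • k⁻¹ • v = k⁻¹ • v := by simpa using hfc
  rw [mul_smul, inv_smul_eq_iff] at h1
  exact h1.symm

/-- only finitely many vertex spaces are parallel to an edge space -/
theorem par_finite (ρ : ℕ) (k : G) :
    {v : D.E.V | (VS D.E v ∩ nbhd D.S ρ (ES D.E k)).Infinite}.Finite := by
  have hball : {g : G | wlen D.S g ≤ ρ}.Finite := (properLen_wlen D.hS D.gS).fin ρ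
  -- the finite set of candidates
  have hfin : (⋃ u ∈ {u : D.E.V | (Set.range (fun c : D.E.edgeGroup => (c : G) • u)).Finite ∧
      ∃ b ∈ {g : G | wlen D.S g ≤ ρ}, u = b • D.E.a ∨ u = b • D.E.b},
      (fun x => k • x) '' Set.range (fun c : D.E.edgeGroup => (c : G) • u)).Finite := by
    refine Set.Finite.biUnion ?_ ?_
    · refine ((hball.image (fun b => b • D.E.a)).union
        (hball.image (fun b => b • D.E.b))).subset ?_
      rintro u ⟨-, b, hb, h | h⟩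
      · exact Or.inl ⟨b, hb, h.symm⟩
      · exact Or.inr ⟨b, hb, h.symm⟩
    · rintro u ⟨hu, -⟩
      exact hu.image _
  refine hfin.subset ?_
  intro v hv
  have hv' : (VS D.E v ∩ nbhd D.S ρ (ES D.E k)).Infinite := hv
  obtain ⟨x, hx, l, hl, hd⟩ := hv'.nonempty
  have horb := D.orbit_finite_of_par ρ k v hv'
  rw [wdist_comm D.gS] at hd
  -- u = l⁻¹ v
  have hc : k⁻¹ * l ∈ D.E.edgeGroup := (mem_ES_iff D.E k l).1 hl
  have hu : ∃ b ∈ {g : G | wlen D.S g ≤ ρ}, l⁻¹ • v = b • D.E.a ∨ l⁻¹ • v = b • D.E.b := by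
    refine ⟨l⁻¹ * x, hd, ?_⟩
    rcases hx with h | h
    · left; rw [mul_smul, h]
    · right; rw [mul_smul, h]
  simp only [Set.mem_iUnion]
  refine ⟨l⁻¹ • v, ⟨?_, hu⟩, ?_⟩
  · refine horb.subset ?_
    rintro _ ⟨c, rfl⟩
    refine ⟨c * (⟨k⁻¹ * l, hc⟩ : D.E.edgeGroup)⁻¹, ?_⟩
    simp [mul_smul]
  · refine ⟨(k⁻¹ * l) • l⁻¹ • v, ⟨⟨k⁻¹ * l, hc⟩, rfl⟩, ?_⟩
    simp [mul_smul]

/-- the edges of the graph across an edge of the tree: the two vertex spaces are parallel to the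
edge space -/
theorem par_of_adj (r : ℕ) : ∃ ρ : ℕ, ∀ (k : G) (v w : D.VV), ¬ (sd D.E k v.1 ↔ sd D.E k w.1) →
    (∀ y ∈ D.II r v w, ∃ x ∈ VS D.E v.1, x ∈ nbhd D.S ρ (ES D.E k) ∧
      wdist D.S (D.F' y) x ≤ ρ) ∧
    ((D.II r v w).Infinite → (VS D.E v.1 ∩ nbhd D.S ρ (ES D.E k)).Infinite) := by
  obtain ⟨r₀, h₀⟩ := exists_near_sep D.hS D.gS D.E
  refine ⟨D.cc r + D.cc r + r₀, fun k v w hvw => ?_⟩
  have h1 : ∀ y ∈ D.II r v w, ∃ x ∈ VS D.E v.1, x ∈ nbhd D.S (D.cc r + D.cc r + r₀) (ES D.E k) ∧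
      wdist D.S (D.F' y) x ≤ D.cc r + D.cc r + r₀ := by
    rintro y ⟨hy1, hy2⟩
    obtain ⟨x, hx, hd⟩ := Nr.ofOne D hy1
    obtain ⟨x', hx', hd'⟩ := Nr.ofOne D hy2
    refine ⟨x, hx, ?_, hd.trans (by omega)⟩
    refine nbhd_mono ?_ _ (h₀ k v.1 w.1 hvw x hx x' hx')
    have := wdist_triangle D.gS x (D.F' y) x'
    rw [wdist_comm D.gS x (D.F' y)] at this
    omega
  refine ⟨h1, fun hinf => ?_⟩
  choose! x hx hxn hxd using h1
  by_contra hfin
  rw [Set.not_infinite] at hfin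
  have h2 : (D.F' '' D.II r v w) ⊆ ⋃ z ∈ (VS D.E v.1 ∩
      nbhd D.S (D.cc r + D.cc r + r₀) (ES D.E k)),
      {g | wdist D.S z g ≤ D.cc r + D.cc r + r₀} := by
    rintro _ ⟨y, hy, rfl⟩
    simp only [Set.mem_iUnion]
    refine ⟨x y, ⟨hx y hy, hxn y hy⟩, ?_⟩
    show wdist D.S (x y) (D.F' y) ≤ _
    rw [wdist_comm D.gS]; exact hxd y hy
  exact D.inf_image' hinf ((hfin.biUnion fun z _ => ball_finite D.hS D.gS z _).subset h2)

/-- each edge of the tree gives a finite cut -/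
theorem bdry_finite (r : ℕ) (k : G) : (bdry (D.Γ r) {v : D.VV | sd D.E k v.1}).Finite := by
  obtain ⟨ρ, hρ⟩ := D.par_of_adj r
  have hfin : {v : D.VV | (VS D.E v.1 ∩ nbhd D.S ρ (ES D.E k)).Infinite}.Finite := by
    refine Set.Finite.of_finite_image (f := Subtype.val) ((D.par_finite ρ k).subset ?_)
      Subtype.val_injective.injOn
    rintro _ ⟨v, hv, rfl⟩
    exact hv
  refine (hfin.prod hfin).subset ?_
  rintro ⟨v, w⟩ ⟨hadj, hv, hw⟩
  have hadj' := (D.Γ_adj r v w).1 hadj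
  have hv' : sd D.E k v.1 := hv
  have hw' : ¬ sd D.E k w.1 := hw
  refine ⟨(hρ k v w (by tauto)).2 hadj'.2, ?_⟩
  refine (hρ k w v (by tauto)).2 ?_
  have : D.II r w v = D.II r v w := by
    ext y; exact and_comm
  rw [this]; exact hadj'.2

end Dat

end Pool.Agent.QIS
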