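import Pool.Agent.H67.Q.Geo

/-!
# Quasi-isometries and vertex spaces
-/

namespace Pool.Agent.QIS

open MulAction

variable {G H : Type} [Group G] [Group H] {S : Set G} {S' : Set H}

theorem TwoEnded.congr {A B : Type} [Group A] [Group B] (e : A ≃* B) (h : TwoEnded A) :
    TwoEnded B := by
  obtain ⟨z, hz, hf⟩ := h
  refine ⟨e z, fun n hn h0 => hz n hn ?_, ?_⟩
  · rw [← map_pow] at h0
    exact e.injective (by rw [h0, map_one])
  · have h1 : Subgroup.zpowers (e z) = (Subgroup.zpowers z).map (e : A →* B) := by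
      rw [MonoidHom.map_zpowers]; rfl
    rw [h1, Subgroup.finiteIndex_iff, Subgroup.index_map_equiv]
    exact hf.index_ne_zero

/-- vertices whose stabilizer is not two-ended -/
def Big (E : Splitting G) (v : E.V) : Prop := ¬ TwoEnded (stabilizer G v)

theorem big_smul (E : Splitting G) (g : G) (v : E.V) : Big E (g • v) ↔ Big E v := by
  unfold Big
  have e : stabilizer G v ≃* stabilizer G (g • v) := MulAction.stabilizerEquivStabilizer rfl
  exact not_congr ⟨fun h => TwoEnded.congr e.symm h, fun h => TwoEnded.congr e h⟩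

theorem IsQI.twist {K : ℕ} {φ : G → H} (h : IsQI S S' K φ) (g : G) (k : H) :
    IsQI S S' K (fun x => k * φ (g * x)) := by
  refine ⟨fun x y => ?_, fun x y => ?_, fun z => ?_⟩
  · rw [wdist_mul_left]
    have := h.1 (g * x) (g * y)
    rwa [wdist_mul_left] at this
  · rw [wdist_mul_left]
    have := h.2.1 (g * x) (g * y)
    rwa [wdist_mul_left] at this
  · obtain ⟨x, hx⟩ := h.2.2 (k⁻¹ * z)
    refine ⟨g⁻¹ * x, ?_⟩
    show wdist S' z (k * φ (g * (g⁻¹ * x))) ≤ K
    rw [mul_inv_cancel_left, ← wdist_mul_left k⁻¹, inv_mul_cancel_left]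
    exact hx

theorem IsQI.mono {K K' : ℕ} {φ : G → H} (h : IsQI S S' K φ) (hK : K ≤ K') : IsQI S S' K' φ := by
  refine ⟨fun x y => (h.1 x y).trans ?_, fun x y => (h.2.1 x y).trans ?_, fun z => ?_⟩
  · gcongr
  · gcongr
  · obtain ⟨x, hx⟩ := h.2.2 z
    exact ⟨x, hx.trans hK⟩

theorem IsQI.id' : IsQI S S 1 (fun x : G => x) := by
  have := IsQI.left (S := S) (1 : G)
  simpa using this

theorem mem_nbhd_ES_iff (E : Splitting G) (R : ℕ) (k y : G) :
    y ∈ nbhd S R (ES E k) ↔ k⁻¹ * y ∈ nbhd S R (E.edgeGroup : Set G) := by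
  constructor
  · rintro ⟨l, hl, hd⟩
    refine ⟨k⁻¹ * l, (mem_ES_iff E k l).1 hl, ?_⟩
    rw [wdist_mul_left]; exact hd
  · rintro ⟨l, hl, hd⟩
    refine ⟨k * l, mem_ES_mul E k hl, ?_⟩
    rw [← wdist_mul_left k⁻¹, inv_mul_cancel_left]; exact hd

theorem sd_iff (E : Splitting G) (k y : G) :
    sd E k (y • E.a) ↔ side E.T E.a E.b ((k⁻¹ * y) • E.a) := by
  have h := sd_smul E k 1 ((k⁻¹ * y) • E.a)
  rw [mul_one, ← mul_smul, mul_inv_cancel_left] at h
  rw [h]
  unfold sd
  rw [one_smul, one_smul]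

/-- the non-crossing hypothesis, at a vertex of one type -/
theorem oneSide_aux {E : Splitting G} {c : E.V} (hnc : Big E c → NotCrossed S E (stabilizer G c))
    (K : ℕ) : ∃ R : ℕ, ∀ φ : G → G, IsQI S S K φ → ∀ (k : G) (v : E.V), Big E v →
      (∀ x, x • c = v → φ x ∉ nbhd S R (ES E k) → sd E k (φ x • E.a)) ∨
      (∀ x, x • c = v → φ x ∉ nbhd S R (ES E k) → ¬ sd E k (φ x • E.a)) := by
  by_cases hc : Big E c
  · obtain ⟨R, hR⟩ := hnc hc K
    refine ⟨R, fun φ hφ k v hv => ?_⟩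
    by_cases hex : ∃ g : G, g • c = v
    · obtain ⟨g, hg⟩ := hex
      have key := hR (fun x => k⁻¹ * φ (g * x)) (hφ.twist g k⁻¹)
      refine key.imp (fun h x hx hn => ?_) (fun h x hx hn => ?_)
      · have hmem : g⁻¹ * x ∈ stabilizer G c := by
          rw [mem_stabilizer_iff, mul_smul, hx, ← hg, inv_smul_smul]
        have := h (g⁻¹ * x) hmem
        simp only [mul_inv_cancel_left] at this
        rw [sd_iff]
        exact this (by rwa [← mem_nbhd_ES_iff])
      · have hmem : g⁻¹ * x ∈ stabilizer G c := by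
          rw [mem_stabilizer_iff, mul_smul, hx, ← hg, inv_smul_smul]
        have := h (g⁻¹ * x) hmem
        simp only [mul_inv_cancel_left] at this
        rw [sd_iff]
        exact this (by rwa [← mem_nbhd_ES_iff])
    · left
      intro x hx
      exact absurd ⟨x, hx⟩ hex
  · refine ⟨0, fun φ hφ k v hv => Or.inl fun x hx => ?_⟩
    rw [← hx, big_smul] at hv
    exact absurd hv hc

/-- the image of a vertex space under a quasi-isometry lies on one side of each edge space -/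
theorem oneSide (hS : S.Finite) (hSg : Subgroup.closure S = ⊤) {E : Splitting G}
    (hnca : Big E E.a → NotCrossed S E (stabilizer G E.a))
    (hncb : Big E E.b → NotCrossed S E (stabilizer G E.b)) (K : ℕ) :
    ∃ R : ℕ, ∀ φ : G → G, IsQI S S K φ → ∀ (k : G) (v : E.V), Big E v →
      (∀ x ∈ VS E v, φ x ∉ nbhd S R (ES E k) → sd E k (φ x • E.a)) ∨
      (∀ x ∈ VS E v, φ x ∉ nbhd S R (ES E k) → ¬ sd E k (φ x • E.a)) := by
  obtain ⟨R₁, h₁⟩ := oneSide_aux hnca K
  obtain ⟨R₂, h₂⟩ := oneSide_aux hncb K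
  obtain ⟨r₀, h₀⟩ := exists_cross hS hSg E
  -- t carries b to a, if possible
  obtain ⟨t, ht⟩ : ∃ t : G, ∀ g : G, g • E.b = E.a → t • E.b = E.a := by
    by_cases h : ∃ g : G, g • E.b = E.a
    · exact ⟨h.choose, fun _ _ => h.choose_spec⟩
    · exact ⟨1, fun g hg => absurd ⟨g, hg⟩ h⟩
  refine ⟨R₁ + R₂ + K * wlen S t + K + r₀, fun φ hφ k v hv => ?_⟩
  have m1 : nbhd S R₁ (ES E k) ⊆ nbhd S (R₁ + R₂ + K * wlen S t + K + r₀) (ES E k) :=
    nbhd_mono (by omega) _
  have m2 : nbhd S R₂ (ES E k) ⊆ nbhd S (R₁ + R₂ + K * wlen S t + K + r₀) (ES E k) :=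
    nbhd_mono (by omega) _
  -- the partner point
  have hpart : ∀ x y : G, x • E.a = v → y • E.b = v →
      (x * t) • E.b = v ∧ wdist S (φ x) (φ (x * t)) ≤ K * wlen S t + K := by
    intro x y hx hy
    have h1 : t • E.b = E.a := by
      refine ht (x⁻¹ * y) ?_
      rw [mul_smul, hy, ← hx, inv_smul_smul]
    refine ⟨by rw [mul_smul, h1, hx], ?_⟩
    refine (hφ.1 x (x * t)).trans ?_
    unfold wdist
    rw [inv_mul_cancel_left]
  by_cases hbex : ∃ y : G, y • E.b = v
  swap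
  · refine (h₁ φ hφ k v hv).imp (fun h x hx hn => ?_) (fun h x hx hn => ?_)
    · rcases hx with hx | hx
      · exact h x hx (fun h' => hn (m1 h'))
      · exact absurd ⟨x, hx⟩ hbex
    · rcases hx with hx | hx
      · exact h x hx (fun h' => hn (m1 h'))
      · exact absurd ⟨x, hx⟩ hbex
  obtain ⟨y₀, hy₀⟩ := hbex
  -- far points of the first type have partners on the same side
  have hsame : ∀ x : G, x • E.a = v →
      φ x ∉ nbhd S (R₁ + R₂ + K * wlen S t + K + r₀) (ES E k) →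
      (x * t) • E.b = v ∧ φ (x * t) ∉ nbhd S R₂ (ES E k) ∧
      (sd E k (φ x • E.a) ↔ sd E k (φ (x * t) • E.a)) := by
    intro x hx hn
    obtain ⟨hb, hd⟩ := hpart x y₀ hx hy₀
    refine ⟨hb, fun h' => hn ?_, ?_⟩
    · exact nbhd_mono (by omega) _ (mem_nbhd_of_dist hSg h' hd)
    · by_contra hc
      exact hn (nbhd_mono (by omega) _ (h₀ k _ _ hc))
  refine (h₂ φ hφ k v hv).imp (fun h x hx hn => ?_) (fun h x hx hn => ?_)
  · rcases hx with hx | hx
    · obtain ⟨hb, hn2, hs⟩ := hsame x hx hn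
      exact hs.2 (h (x * t) hb hn2)
    · exact h x hx (fun h' => hn (m2 h'))
  · rcases hx with hx | hx
    · obtain ⟨hb, hn2, hs⟩ := hsame x hx hn
      exact fun h' => h (x * t) hb hn2 (hs.1 h')
    · exact h x hx (fun h' => hn (m2 h'))

end Pool.Agent.QIS
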