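import Pool.Agent.H67.Q.Perm

/-!
# Vertex spaces are not near lines; images of vertex spaces
-/

namespace Pool.Agent.QIS

open MulAction

variable {G H : Type} [Group G] [Group H] {S : Set G} {S' : Set H}

theorem line_of_twoEnded {K : Subgroup G} (hK : TwoEnded K) :
    ∃ c ∈ K, (∀ n : ℕ, 0 < n → c ^ n ≠ 1) ∧ ∃ D : ℕ, ∀ x ∈ K, ∃ n : ℤ, wdist S x (c ^ n) ≤ D := by
  obtain ⟨z, hz, hf⟩ := hK
  obtain ⟨F, hF, hcov⟩ := q2_cover _ hf
  obtain ⟨D, hD⟩ := (hF.image (fun f : K => wlen S (f : G))).bddAbove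
  refine ⟨z, z.2, fun n hn h => hz n hn ?_, D, fun x hx => ?_⟩
  · exact Subtype.ext (by simpa using h)
  · obtain ⟨f, hf, m, hm⟩ := hcov (⟨x, hx⟩ : K)⁻¹
    refine ⟨-m, ?_⟩
    have h1 : ((z : G)) ^ m = (f : G)⁻¹ * x⁻¹ := by
      have := congrArg (Subtype.val) hm
      simpa using this
    have h2 : x⁻¹ * (z : G) ^ (-m) = (f : G) := by
      rw [zpow_neg, h1]; group
    unfold wdist
    rw [h2]
    exact hD ⟨f, hf, rfl⟩

theorem coarseLine_of_qi (hS : S.Finite) (hSg : Subgroup.closure S = ⊤) {K : ℕ} {φ : G → H}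
    (hφ : IsQI S S' K φ) (g c : G) (hc : ∀ n : ℕ, 0 < n → c ^ n ≠ 1) :
    CoarseLine (wlen S') (fun n : ℤ => φ (g * c ^ n)) := by
  refine ⟨⟨K * wlen S c + K, fun n => ?_⟩, fun r => ?_⟩
  · have := hφ.1 (g * c ^ n) (g * c ^ (n + 1))
    rw [wdist_mul_left] at this
    have h2 : wdist S (c ^ n) (c ^ (n + 1)) = wlen S c := by
      unfold wdist
      congr 1
      rw [zpow_add_one]; group
    rw [h2] at this
    exact this
  · have hfin : {j : ℤ | wlen S (c ^ j) ≤ K * r + K}.Finite := by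
      have h1 : {x : G | wlen S x ≤ K * r + K}.Finite := (properLen_wlen hS hSg).fin _
      exact Set.Finite.preimage ((q2_zpow_inj hc).injOn) h1
    obtain ⟨N, hN⟩ := (hfin.image (fun j : ℤ => j.natAbs)).bddAbove
    refine ⟨N, fun n m hnm => ?_⟩
    have h1 := hφ.2.1 (g * c ^ n) (g * c ^ m)
    rw [wdist_mul_left] at h1
    have h2 : wdist S (c ^ n) (c ^ m) = wlen S (c ^ (m - n)) := by
      unfold wdist
      congr 1
      rw [← zpow_neg, ← zpow_add]; congr 1; ring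
    rw [h2] at h1
    have h3 : wlen S (c ^ (m - n)) ≤ K * r + K := by
      refine h1.trans ?_
      have h4 : wdist S' (φ (g * c ^ n)) (φ (g * c ^ m)) ≤ r := hnm
      gcongr
    have h5 : (m - n).natAbs ≤ N := hN ⟨m - n, h3, rfl⟩
    have h6 : |n - m| = ((m - n).natAbs : ℤ) := by
      rw [abs_sub_comm, Int.abs_eq_natAbs]
    rw [h6]
    exact_mod_cast h5

theorem smul_mem_VS (E : Splitting G) {v : E.V} {h x : G} (hh : h ∈ stabilizer G v)
    (hx : x ∈ VS E v) : h * x ∈ VS E v := by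
  have := (mem_VS_smul E h x v).2 hx
  rwa [mem_stabilizer_iff.1 hh] at this

theorem conj_mem_stab (E : Splitting G) {v : E.V} {x c : G} (hx : x ∈ VS E v)
    (hc : c ∈ E.edgeGroup) : x * c * x⁻¹ ∈ stabilizer G v := by
  have hc1 : c • E.a = E.a := (Subgroup.mem_inf.1 hc).1
  have hc2 : c • E.b = E.b := (Subgroup.mem_inf.1 hc).2
  rw [mem_stabilizer_iff]
  rcases hx with h | h
  · rw [← h, mul_smul, mul_smul, inv_smul_smul, hc1]
  · rw [← h, mul_smul, mul_smul, inv_smul_smul, hc2]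

/-- the image of a big vertex space is not contained in a neighbourhood of an edge space -/
theorem exists_far (hS : S.Finite) (hSg : Subgroup.closure S = ⊤) {E : Splitting G}
    (hC : TwoEnded E.edgeGroup) {K : ℕ} {φ : G → G} (hφ : IsQI S S K φ) {v : E.V}
    (hv : Big E v) (R : ℕ) (k : G) : ∃ x ∈ VS E v, φ x ∉ nbhd S R (ES E k) := by
  by_contra hcon
  push Not at hcon
  obtain ⟨c, hcC, hc, D, hD⟩ := line_of_twoEnded (S := S) hC
  obtain ⟨K', ψ, hψ, -, hψφ⟩ := exists_quasiInverse hSg hSg K φ hφ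
  obtain ⟨x₀, hx₀⟩ := exists_vertex E v
  refine hv (twoEnded_of_near (properLen_wlen hS hSg) (stabilizer G v) (x₀ * c * x₀⁻¹)
    (conj_mem_stab E hx₀ hcC) ?_ _ (coarseLine_of_qi hS hSg hψ k c hc)
    (wlen S x₀ + (K' + (K' * (R + D) + K'))) ?_)
  · intro n hn h
    rw [conj_pow, conj_eq_one_iff] at h
    exact hc n hn h
  · intro h hh
    obtain ⟨l, hl, hd⟩ := hcon _ (smul_mem_VS E hh hx₀)
    obtain ⟨n, hn⟩ := hD _ ((mem_ES_iff E k l).1 hl)
    refine ⟨n, ?_⟩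
    have e1 : wdist S l (k * c ^ n) ≤ D := by
      have := wdist_mul_left (S := S) k (k⁻¹ * l) (c ^ n)
      rw [mul_inv_cancel_left] at this
      rw [this]; exact hn
    have e2 : wdist S (φ (h * x₀)) (k * c ^ n) ≤ R + D :=
      (wdist_triangle hSg _ l _).trans (add_le_add hd e1)
    have e3 : wdist S (ψ (φ (h * x₀))) (ψ (k * c ^ n)) ≤ K' * (R + D) + K' := by
      refine (hψ.1 _ _).trans ?_
      gcongr
    have e4 : wdist S (h * x₀) (ψ (φ (h * x₀))) ≤ K' := by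
      rw [wdist_comm hSg]; exact hψφ _
    have e5 : wdist S h (h * x₀) = wlen S x₀ := by
      unfold wdist; rw [inv_mul_cancel_left]
    calc wdist S h (ψ (k * c ^ n)) ≤ wdist S h (h * x₀) + wdist S (h * x₀) (ψ (k * c ^ n)) :=
          wdist_triangle hSg _ _ _
      _ ≤ wlen S x₀ + (K' + (K' * (R + D) + K')) := by
          rw [e5]
          have := wdist_triangle hSg (h * x₀) (ψ (φ (h * x₀))) (ψ (k * c ^ n))
          omega

/-- the space of a vertex with two-ended stabilizer is near each edge space at it -/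
theorem VS_small (hSg : Subgroup.closure S = ⊤) {E : Splitting G}
    (hC : TwoEnded E.edgeGroup) {w : E.V} (hw : TwoEnded (stabilizer G w)) {k : G}
    (hk : k ∈ VS E w) : ∃ D : ℕ, VS E w ⊆ nbhd S D (ES E k) := by
  have hCinf : Infinite E.edgeGroup := TwoEnded.infinite hC
  let L : Subgroup (stabilizer G w) :=
    E.edgeGroup.comap ((MulAut.conj k⁻¹).toMonoidHom.comp (stabilizer G w).subtype)
  have hL : ∀ h : stabilizer G w, h ∈ L ↔ k⁻¹ * (h : G) * k ∈ E.edgeGroup := by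
    intro h
    simp [L, Subgroup.mem_comap]
  have hLinf : Infinite L := by
    refine Infinite.of_injective (fun c : E.edgeGroup =>
      (⟨⟨k * (c : G) * k⁻¹, conj_mem_stab E hk c.2⟩, ?_⟩ : L)) ?_
    · rw [hL]
      have : k⁻¹ * (k * (c : G) * k⁻¹) * k = c := by group
      simpa [this] using c.2
    · intro c c' h
      have h1 : k * (c : G) * k⁻¹ = k * (c' : G) * k⁻¹ := by
        have := congrArg (fun x : L => ((x : stabilizer G w) : G)) h
        simpa using this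
      exact Subtype.ext (by simpa using h1)
  have hLf : L.FiniteIndex := (TwoEnded.of_infinite hw L hLinf).2
  obtain ⟨F, hF, hcov⟩ := q2_cover _ hLf
  -- bound for one reference point
  have key : ∀ x₁ : G, ∃ D : ℕ, ∀ h ∈ stabilizer G w, h * x₁ ∈ nbhd S D (ES E k) := by
    intro x₁
    obtain ⟨D, hD⟩ := (hF.image (fun f : stabilizer G w =>
      wlen S (k⁻¹ * (f : G)⁻¹ * x₁))).bddAbove
    refine ⟨D, fun h hh => ?_⟩
    obtain ⟨f, hf, hfl⟩ := hcov (⟨h, hh⟩ : stabilizer G w)⁻¹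
    rw [hL] at hfl
    have hmem : k * (k⁻¹ * ((f : G)⁻¹ * h⁻¹) * k)⁻¹ ∈ ES E k :=
      mem_ES_mul E k (E.edgeGroup.inv_mem (by simpa using hfl))
    refine ⟨_, hmem, ?_⟩
    have h1 : wdist S (h * x₁) (k * (k⁻¹ * ((f : G)⁻¹ * h⁻¹) * k)⁻¹) =
        wlen S (k⁻¹ * (f : G)⁻¹ * x₁) := by
      rw [wdist_comm hSg]
      unfold wdist
      congr 1
      group
    rw [h1]
    exact hD ⟨f, hf, rfl⟩
  obtain ⟨D₁, hD₁⟩ : ∃ D : ℕ, ∀ x : G, x • E.a = w → x ∈ nbhd S D (ES E k) := by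
    by_cases hex : ∃ x₁ : G, x₁ • E.a = w
    · obtain ⟨x₁, hx₁⟩ := hex
      obtain ⟨D, hD⟩ := key x₁
      refine ⟨D, fun x hx => ?_⟩
      have := hD (x * x₁⁻¹) (by
        rw [mem_stabilizer_iff, ← hx₁, mul_smul, inv_smul_smul, hx, hx₁])
      simpa using this
    · exact ⟨0, fun x hx => absurd ⟨x, hx⟩ hex⟩
  obtain ⟨D₂, hD₂⟩ : ∃ D : ℕ, ∀ x : G, x • E.b = w → x ∈ nbhd S D (ES E k) := by
    by_cases hex : ∃ x₁ : G, x₁ • E.b = w
    · obtain ⟨x₁, hx₁⟩ := hex
      obtain ⟨D, hD⟩ := key x₁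
      refine ⟨D, fun x hx => ?_⟩
      have := hD (x * x₁⁻¹) (by
        rw [mem_stabilizer_iff, ← hx₁, mul_smul, inv_smul_smul, hx, hx₁])
      simpa using this
    · exact ⟨0, fun x hx => absurd ⟨x, hx⟩ hex⟩
  refine ⟨max D₁ D₂, ?_⟩
  rintro x (hx | hx)
  · exact nbhd_mono (le_max_left _ _) _ (hD₁ x hx)
  · exact nbhd_mono (le_max_right _ _) _ (hD₂ x hx)

end Pool.Agent.QIS
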