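import Pool.Agent.H67.Q.Perm2

/-!
# The image of a vertex space under a quasi-isometry is near a unique vertex space
-/

namespace Pool.Agent.QIS

open MulAction

variable {G H : Type} [Group G] [Group H] {S : Set G} {S' : Set H}

theorem image_unique (hS : S.Finite) (hSg : Subgroup.closure S = ⊤) {E : Splitting G}
    (hC : TwoEnded E.edgeGroup) {K : ℕ} {φ : G → G} (hφ : IsQI S S K φ) {v w w' : E.V}
    (hv : Big E v) {R R' : ℕ} (h : ∀ x ∈ VS E v, φ x ∈ nbhd S R (VS E w))
    (h' : ∀ x ∈ VS E v, φ x ∈ nbhd S R' (VS E w')) : w = w' := by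
  by_contra hne
  obtain ⟨k, -, hk⟩ := exists_sep E hne
  obtain ⟨r₀, h₀⟩ := exists_near_sep hS hSg E
  obtain ⟨x, hx, hn⟩ := exists_far hS hSg hC hφ hv (R + (R + R' + r₀)) k
  obtain ⟨y, hy, hyd⟩ := h x hx
  obtain ⟨y', hy', hyd'⟩ := h' x hx
  have h1 : wdist S y y' ≤ R + R' := by
    refine (wdist_triangle hSg y (φ x) y').trans ?_
    rw [wdist_comm hSg y (φ x)]
    omega
  have h2 := h₀ k w w' hk y hy y' hy'
  have h3 : y ∈ nbhd S (R + R' + r₀) (ES E k) := nbhd_mono (by omega) _ h2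
  exact hn (mem_nbhd_of_dist hSg h3 hyd)

theorem side_iff_of_edge (E : Splitting G) {w z : E.V} (hwz : E.T.Adj w z) {k : G}
    (hk : (k • E.a = w ∧ k • E.b = z) ∨ (k • E.a = z ∧ k • E.b = w)) (y y' : E.V) :
    (sd E k y ↔ sd E k y') ↔ (side E.T w z y ↔ side E.T w z y') := by
  rcases hk with ⟨h1, h2⟩ | ⟨h1, h2⟩
  · unfold sd; rw [h1, h2]
  · unfold sd; rw [h1, h2, side_swap E.tree hwz, side_swap E.tree hwz]
    exact not_iff_not

theorem mem_VS_of_edge (E : Splitting G) {w z : E.V} {k : G}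
    (hk : (k • E.a = w ∧ k • E.b = z) ∨ (k • E.a = z ∧ k • E.b = w)) : ES E k ⊆ VS E w := by
  rcases hk with ⟨h1, h2⟩ | ⟨h1, h2⟩
  · rw [← h1]; exact ES_sub_VS_a E k
  · rw [← h2]; exact ES_sub_VS_b E k

theorem sym2_of_edge (E : Splitting G) {w z : E.V} {k : G}
    (hk : (k • E.a = w ∧ k • E.b = z) ∨ (k • E.a = z ∧ k • E.b = w)) :
    s(w, z) = s(k • E.a, k • E.b) := by
  rcases hk with ⟨h1, h2⟩ | ⟨h1, h2⟩
  · rw [h1, h2]
  · rw [h1, h2, Sym2.eq_swap]

theorem image_exists (hS : S.Finite) (hSg : Subgroup.closure S = ⊤) {E : Splitting G}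
    (hC : TwoEnded E.edgeGroup)
    (hnca : Big E E.a → NotCrossed S E (stabilizer G E.a))
    (hncb : Big E E.b → NotCrossed S E (stabilizer G E.b)) (K : ℕ) :
    ∃ R : ℕ, ∀ φ : G → G, IsQI S S K φ → ∀ v : E.V, Big E v →
      ∃ w : E.V, Big E w ∧ ∀ x ∈ VS E v, φ x ∈ nbhd S R (VS E w) := by
  classical
  obtain ⟨R, hR⟩ := oneSide hS hSg hnca hncb K
  obtain ⟨r₀, h₀⟩ := exists_cross hS hSg E
  refine ⟨R, fun φ hφ v hv => ?_⟩
  -- preferred sides
  let s : G → Prop := fun k => ∀ x ∈ VS E v, φ x ∉ nbhd S R (ES E k) → sd E k (φ x • E.a)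
  have hs : ∀ k : G, ∀ x ∈ VS E v, φ x ∉ nbhd S R (ES E k) → (sd E k (φ x • E.a) ↔ s k) := by
    intro k x hx hn
    rcases hR φ hφ k v hv with h | h
    · exact ⟨fun _ => h, fun _ => h x hx hn⟩
    · exact ⟨fun h' => absurd h' (h x hx hn), fun h' => h' x hx hn⟩
  have hs_inv : ∀ k k' : G, k' ∈ ES E k → (s k' ↔ s k) := by
    intro k k' hk
    have e1 := ES_eq_of_mem E hk
    simp only [s]
    rw [e1]
    refine forall_congr' fun x => forall_congr' fun _ => forall_congr' fun _ => ?_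
    exact sd_eq_of_mem E hk _
  -- wrongly placed edges
  let B : E.V → Set (E.V × E.V) := fun w => {p | ∃ k : G, p = (k • E.a, k • E.b) ∧
    ¬ (sd E k w ↔ s k)}
  have hB : ∀ w k, ((k • E.a, k • E.b) ∈ B w ↔ ¬ (sd E k w ↔ s k)) := by
    intro w k
    constructor
    · rintro ⟨k', hk', hn⟩
      rw [Prod.mk.injEq] at hk'
      have hm : k ∈ ES E k' := hk'
      rw [sd_eq_of_mem E hm, hs_inv k' k hm]
      exact hn
    · exact fun h => ⟨k, rfl, h⟩
  obtain ⟨x₀, hx₀⟩ := exists_vertex E v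
  have hfin0 : (B (φ x₀ • E.a)).Finite := by
    refine ((ball_finite hS hSg (φ x₀) R).image (fun l => (l • E.a, l • E.b))).subset ?_
    rintro p ⟨k, rfl, hk⟩
    have hnear : φ x₀ ∈ nbhd S R (ES E k) := by
      by_contra hn
      exact hk (hs k x₀ hx₀ hn)
    obtain ⟨l, hl, hd⟩ := hnear
    refine ⟨l, hd, ?_⟩
    simp only
    rw [hl.1, hl.2]
  -- a vertex with the least number of wrong edges
  have hex : ∃ n : ℕ, ∃ w, (B w).Finite ∧ (B w).ncard = n := ⟨_, φ x₀ • E.a, hfin0, rfl⟩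
  obtain ⟨w, hwfin, hwn⟩ := Nat.find_spec hex
  have hmin : ∀ z, (B z).Finite → (B w).ncard ≤ (B z).ncard := by
    intro z hz
    rw [hwn]
    exact Nat.find_min' hex ⟨z, hz, rfl⟩
  have hempty : ∀ k, (sd E k w ↔ s k) := by
    intro k
    by_contra hk
    -- orient the wrong edge
    obtain ⟨a', b', hab, hsym, hwa, hfar, hka⟩ : ∃ a' b' : E.V, E.T.Adj a' b' ∧
        s(a', b') = s(k • E.a, k • E.b) ∧ side E.T a' b' w ∧
        (∀ x ∈ VS E v, φ x ∉ nbhd S R (ES E k) → ¬ side E.T a' b' (φ x • E.a)) ∧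
        (k • E.a = a' ∨ k • E.a = b') := by
      by_cases hw : sd E k w
      · refine ⟨k • E.a, k • E.b, adj_k E k, rfl, hw, fun x hx hn h => ?_, Or.inl rfl⟩
        exact hk ⟨fun _ => (hs k x hx hn).1 h, fun _ => hw⟩
      · refine ⟨k • E.b, k • E.a, (adj_k E k).symm, Sym2.eq_swap,
          (side_swap E.tree (adj_k E k) w).2 hw, fun x hx hn h => ?_, Or.inr rfl⟩
        rw [side_swap E.tree (adj_k E k)] at h
        refine hk ⟨fun h' => absurd h' hw, fun h' => ?_⟩
        exact absurd (h' x hx hn) h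
    have hwb : w ≠ b' := by
      rintro rfl
      exact not_side_other E.tree hab hwa
    obtain ⟨z, hz, hzb⟩ := exists_first E.tree hwb
    obtain ⟨k₂, hk₂⟩ := exists_edge E hz
    have hiff := side_iff_of_edge E hz hk₂
    have hww : side E.T w z w := side_self _ _
    have hwz' : ¬ side E.T w z z := not_side_other E.tree hz
    -- the edge {w, z} is wrong too
    have hwrong : ¬ (sd E k₂ w ↔ s k₂) := by
      intro hgood
      by_cases hsame : s(w, z) = s(a', b')
      · have hmem : k₂ ∈ ES E k := by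
          rw [← sym2_eq_iff, ← sym2_of_edge E hk₂, hsame, hsym]
        apply hk
        rw [← sd_eq_of_mem E hmem, ← hs_inv k k₂ hmem]
        exact hgood
      · obtain ⟨hza, hzx⟩ := side_beyond E.tree hz hab hwa hzb hsame
        obtain ⟨x, hx, hn⟩ := exists_far hS hSg hC hφ hv (R + r₀) k₂
        have hn' : φ x ∉ nbhd S R (ES E k₂) := fun h => hn (nbhd_mono (by omega) _ h)
        have h1 : sd E k₂ (φ x • E.a) ↔ sd E k₂ w := (hs k₂ x hx hn').trans hgood.symm
        have h2 : side E.T w z (φ x • E.a) := ((hiff _ _).1 h1).2 hww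
        have h3 : φ x ∈ nbhd S R (ES E k) := by
          by_contra h3
          exact hzx _ (hfar x hx h3) h2
        obtain ⟨l, hl, hd⟩ := h3
        have h4 : ¬ side E.T w z (l • E.a) := by
          rw [hl.1]
          rcases hka with h | h
          · rw [h]; exact hza
          · rw [h]; exact hzb
        have h5 : ¬ (sd E k₂ (φ x • E.a) ↔ sd E k₂ (l • E.a)) := by
          rw [hiff]
          exact fun h => h4 (h.1 h2)
        exact hn (nbhd_mono (by omega) _ (h₀ k₂ _ _ h5))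
    -- moving across it is better
    have hsub : B z ⊆ B w \ {(k₂ • E.a, k₂ • E.b)} := by
      rintro p ⟨k', rfl, hk'⟩
      have hne : k' ∉ ES E k₂ := by
        intro hm
        rw [sd_eq_of_mem E hm, hs_inv k₂ k' hm] at hk'
        have h6 : ¬ (sd E k₂ w ↔ sd E k₂ z) := by
          rw [hiff]
          exact fun h => hwz' (h.1 hww)
        by_cases h9 : s k₂ <;> by_cases h10 : sd E k₂ w <;> by_cases h11 : sd E k₂ z <;>
          simp_all
      refine ⟨?_, ?_⟩
      · rw [hB]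
        have h7 : sd E k' w ↔ sd E k' z := by
          refine sd_adj E k' hz ?_
          rw [sym2_of_edge E hk₂]
          intro h8
          exact hne ((sym2_eq_iff E k' k₂).1 h8.symm)
        rw [h7]; exact hk'
      · intro h8
        rw [Set.mem_singleton_iff, Prod.mk.injEq] at h8
        exact hne h8
    have hmemw : (k₂ • E.a, k₂ • E.b) ∈ B w := (hB w k₂).2 hwrong
    have hzfin : (B z).Finite := (hwfin.sdiff).subset hsub
    have hlt : (B z).ncard < (B w).ncard := by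
      calc (B z).ncard ≤ (B w \ {(k₂ • E.a, k₂ • E.b)}).ncard :=
            Set.ncard_le_ncard hsub hwfin.sdiff
        _ < (B w).ncard := Set.ncard_sdiff_singleton_lt_of_mem hmemw hwfin
    exact absurd (hmin z hzfin) (by omega)
  have hmain : ∀ x ∈ VS E v, φ x ∈ nbhd S R (VS E w) := by
    intro x hx
    by_cases hpos : w = φ x • E.a
    · have hm : φ x ∈ VS E w := Or.inl hpos.symm
      exact self_mem_nbhd hm R
    · obtain ⟨z, hz, hzx⟩ := exists_first E.tree hpos
      obtain ⟨k₂, hk₂⟩ := exists_edge E hz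
      by_contra hn
      have hn' : φ x ∉ nbhd S R (ES E k₂) := by
        rintro ⟨l, hl, hd⟩
        exact hn ⟨l, mem_VS_of_edge E hk₂ hl, hd⟩
      have h1 : sd E k₂ (φ x • E.a) ↔ sd E k₂ w := (hs k₂ x hx hn').trans (hempty k₂).symm
      rw [side_iff_of_edge E hz hk₂] at h1
      exact hzx (h1.2 (side_self _ _))
  refine ⟨w, ?_, hmain⟩
  intro hw
  obtain ⟨k, hk⟩ := exists_vertex E w
  obtain ⟨D, hD⟩ := VS_small hSg hC hw hk
  obtain ⟨x, hx, hn⟩ := exists_far hS hSg hC hφ hv (R + D) k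
  obtain ⟨y, hy, hd⟩ := hmain x hx
  exact hn (mem_nbhd_of_dist hSg (hD hy) hd)

end Pool.Agent.QIS
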