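import Pool.Agent.H67.Q.Par

/-!
# Stabilizers of edges of the graph are two-ended
-/

namespace Pool.Agent.QIS

open MulAction

theorem line_of_finiteIndex {G : Type} [Group G] {S : Set G} {K : Subgroup G} (z : K)
    (hf : (Subgroup.zpowers z).FiniteIndex) :
    ∃ D : ℕ, ∀ x ∈ K, ∃ n : ℤ, wdist S x ((z : G) ^ n) ≤ D := by
  obtain ⟨F, hF, hcov⟩ := q2_cover _ hf
  obtain ⟨D, hD⟩ := (hF.image (fun f : K => wlen S (f : G))).bddAbove
  refine ⟨D, fun x hx => ?_⟩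
  obtain ⟨f, hf, m, hm⟩ := hcov (⟨x, hx⟩ : K)⁻¹
  refine ⟨-m, ?_⟩
  have h1 : ((z : G)) ^ m = (f : G)⁻¹ * x⁻¹ := by
    have := congrArg (Subtype.val) hm
    simpa using this
  have h2 : x⁻¹ * (z : G) ^ (-m) = (f : G) := by
    rw [zpow_neg, h1]; group
  unfold wdist
  rw [h2]
  exact hD ⟨f, hf, rfl⟩

namespace Dat

variable {G H : Type} [Group G] [Group H] (D : Dat G H)

theorem stab_twoEnded {r : ℕ} {v w : D.VV} (hvw : (D.Γ r).Adj v w) :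
    TwoEnded (stabilizer H v ⊓ stabilizer H w : Subgroup H) := by
  obtain ⟨hne, hinf⟩ := (D.Γ_adj r v w).1 hvw
  obtain ⟨k, -, hk⟩ := exists_sep D.E (fun h => hne (Subtype.ext h) : v.1 ≠ w.1)
  obtain ⟨ρ, hρ⟩ := D.par_of_adj r
  have hII : D.II r w v = D.II r v w := by
    ext y; exact and_comm
  have hparv := (hρ k v w hk).2 hinf
  have hparw := (hρ k w v (fun h => hk h.symm)).2 (by rw [hII]; exact hinf)
  have hfv := D.finiteIndex_of_par ρ k v.1 hparv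
  have hfw := D.finiteIndex_of_par ρ k w.1 hparw
  -- an element c of the edge group that fixes both vertices
  obtain ⟨z, hz, hzf⟩ := D.hC
  obtain ⟨m, hm, -, hzm⟩ := Subgroup.exists_pow_mem_of_index_ne_zero
    (H := (stabilizer G (k⁻¹ • v.1)).subgroupOf D.E.edgeGroup ⊓
      (stabilizer G (k⁻¹ • w.1)).subgroupOf D.E.edgeGroup)
    Subgroup.FiniteIndex.index_ne_zero z
  obtain ⟨Dc, hDc⟩ := line_of_finiteIndex (S := D.S) (z ^ m) (q2_pow_index z hzf m hm)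
  have hcv : ((z ^ m : D.E.edgeGroup) : G) • k⁻¹ • v.1 = k⁻¹ • v.1 :=
    mem_stabilizer_iff.1 (Subgroup.mem_subgroupOf.1 (Subgroup.mem_inf.1 hzm).1)
  have hcw : ((z ^ m : D.E.edgeGroup) : G) • k⁻¹ • w.1 = k⁻¹ • w.1 :=
    mem_stabilizer_iff.1 (Subgroup.mem_subgroupOf.1 (Subgroup.mem_inf.1 hzm).2)
  have hcinf : ∀ n : ℕ, 0 < n → ((z ^ m : D.E.edgeGroup) : G) ^ n ≠ 1 := by
    intro n hn h
    refine hz (m * n) (Nat.mul_pos hm hn) (Subtype.ext ?_)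
    rw [pow_mul]
    simpa using h
  generalize hc : ((z ^ m : D.E.edgeGroup) : G) = c at hcv hcw hcinf hDc
  have hcC : c ∈ D.E.edgeGroup := by rw [← hc]; exact (z ^ m).2
  have hfix : ∀ (u : D.E.V), c • k⁻¹ • u = k⁻¹ • u → ∀ n : ℤ, (k * c ^ n * k⁻¹) • u = u := by
    intro u hu n
    have h1 : c ∈ stabilizer G (k⁻¹ • u) := mem_stabilizer_iff.2 hu
    have h2 : c ^ n ∈ stabilizer G (k⁻¹ • u) := Subgroup.zpow_mem _ h1 n
    rw [mul_smul, mul_smul, mem_stabilizer_iff.1 h2, smul_inv_smul]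
  have hline := coarseLine_of_qi D.hS D.gS D.hF k c hcinf
  -- points of the line are near v and w
  have hnear : ∀ u : D.VV, c • k⁻¹ • u.1 = k⁻¹ • u.1 → ∃ t : ℕ, ∀ n : ℤ,
      D.Nr t 1 ((D.F (k * c ^ n))⁻¹ • u) := by
    intro u hu
    obtain ⟨x, hx⟩ := exists_vertex D.E u.1
    refine ⟨D.cc (D.K + wdist D.S k x), fun n => Nr.toOne D ?_⟩
    have h1 : k * c ^ n * k⁻¹ * x ∈ VS D.E u.1 := by
      have := (mem_VS_smul D.E (k * c ^ n * k⁻¹) x u.1).2 hx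
      rwa [hfix u.1 hu n] at this
    have h2 : wdist D.S (k * c ^ n) (k * c ^ n * k⁻¹ * x) = wdist D.S k x := by
      unfold wdist
      congr 1
      group
    have h3 : k * c ^ n ∈ nbhd D.S (wdist D.S k x) (VS D.E u.1) := ⟨_, h1, h2.le⟩
    exact mem_nbhd_of_dist D.gS h3 (D.h2 _)
  obtain ⟨t₁, ht₁⟩ := hnear v hcv
  obtain ⟨t₂, ht₂⟩ := hnear w hcw
  -- representatives for pairs
  have hPfin : ({p : D.VV × D.VV | D.Nr (max t₁ t₂) 1 p.1 ∧ D.Nr (max t₁ t₂) 1 p.2}).Finite := by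
    refine ((D.Nr_finite (max t₁ t₂) 1).prod (D.Nr_finite (max t₁ t₂) 1)).subset ?_
    rintro p ⟨h1, h2⟩
    exact ⟨h1, h2⟩
  classical
  let rep : D.VV × D.VV → H := fun p =>
    if h : ∃ y : H, y⁻¹ • v = p.1 ∧ y⁻¹ • w = p.2 then h.choose else 1
  have hrep : ∀ y : H, (rep (y⁻¹ • v, y⁻¹ • w))⁻¹ • v = y⁻¹ • v ∧
      (rep (y⁻¹ • v, y⁻¹ • w))⁻¹ • w = y⁻¹ • w := by
    intro y
    have h : ∃ y' : H, y'⁻¹ • v = (y⁻¹ • v, y⁻¹ • w).1 ∧ y'⁻¹ • w = (y⁻¹ • v, y⁻¹ • w).2 :=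
      ⟨y, rfl, rfl⟩
    simp only [rep, dif_pos h]
    exact h.choose_spec
  obtain ⟨R₁, hR₁⟩ := (hPfin.image (fun p => wlen D.S' (rep p))).bddAbove
  have hγK : ∀ n : ℤ, ∃ κ ∈ (stabilizer H v ⊓ stabilizer H w : Subgroup H),
      wlen D.S' (κ⁻¹ * D.F (k * c ^ n)) ≤ R₁ := by
    intro n
    set y := D.F (k * c ^ n) with hy
    obtain ⟨e1, e2⟩ := hrep y
    refine ⟨y * (rep (y⁻¹ • v, y⁻¹ • w))⁻¹, ?_, ?_⟩
    · rw [Subgroup.mem_inf, mem_stabilizer_iff, mem_stabilizer_iff, mul_smul, mul_smul, e1, e2,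
        smul_inv_smul, smul_inv_smul]
      exact ⟨rfl, rfl⟩
    · have h3 : (y * (rep (y⁻¹ • v, y⁻¹ • w))⁻¹)⁻¹ * y = rep (y⁻¹ • v, y⁻¹ • w) := by group
      rw [h3]
      refine hR₁ ⟨(y⁻¹ • v, y⁻¹ • w), ⟨?_, ?_⟩, rfl⟩
      · exact (ht₁ n).mono D (le_max_left _ _)
      · exact (ht₂ n).mono D (le_max_right _ _)
  obtain ⟨y₀, hy₀⟩ := hinf.nonempty
  have hK : ∀ κ ∈ (stabilizer H v ⊓ stabilizer H w : Subgroup H), ∃ n : ℤ,
      wlen D.S' (κ⁻¹ * D.F (k * c ^ n)) ≤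
        wlen D.S' y₀ + (D.K + (D.K * (ρ + ρ + Dc) + D.K)) := by
    intro κ hκ
    have hκv : κ • v = v := mem_stabilizer_iff.1 (Subgroup.mem_inf.1 hκ).1
    have hκw : κ • w = w := mem_stabilizer_iff.1 (Subgroup.mem_inf.1 hκ).2
    have h1 : κ * y₀ ∈ D.II r v w := by
      have := (D.II_smul r κ v w y₀).2 hy₀
      rwa [hκv, hκw] at this
    obtain ⟨x, -, ⟨l, hl, hd⟩, hxd⟩ := (hρ k v w hk).1 _ h1
    obtain ⟨n, hn⟩ := hDc _ ((mem_ES_iff D.E k l).1 hl)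
    refine ⟨n, ?_⟩
    have e1 : wdist D.S l (k * c ^ n) ≤ Dc := by
      have := wdist_mul_left (S := D.S) k (k⁻¹ * l) (c ^ n)
      rw [mul_inv_cancel_left] at this
      rw [this]; exact hn
    have e2 : wdist D.S (D.F' (κ * y₀)) (k * c ^ n) ≤ ρ + ρ + Dc := by
      have a1 := wdist_triangle D.gS (D.F' (κ * y₀)) x (k * c ^ n)
      have a2 := wdist_triangle D.gS x l (k * c ^ n)
      omega
    have e3 : wdist D.S' (D.F (D.F' (κ * y₀))) (D.F (k * c ^ n)) ≤ D.K * (ρ + ρ + Dc) + D.K := by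
      refine (D.hF.1 _ _).trans ?_
      gcongr
    have e4 : wdist D.S' (κ * y₀) (D.F (D.F' (κ * y₀))) ≤ D.K := by
      rw [wdist_comm D.gS']; exact D.h1 _
    have e5 : wdist D.S' κ (κ * y₀) = wlen D.S' y₀ := by
      unfold wdist; rw [inv_mul_cancel_left]
    have e6 := wdist_triangle D.gS' κ (κ * y₀) (D.F (k * c ^ n))
    have e7 := wdist_triangle D.gS' (κ * y₀) (D.F (D.F' (κ * y₀))) (D.F (k * c ^ n))
    have e8 : wdist D.S' κ (D.F (k * c ^ n)) ≤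
        wlen D.S' y₀ + (D.K + (D.K * (ρ + ρ + Dc) + D.K)) := by omega
    exact e8
  refine twoEnded_of_coarse (properLen_wlen D.hS' D.gS') _ _ hline
    (max R₁ (wlen D.S' y₀ + (D.K + (D.K * (ρ + ρ + Dc) + D.K)))) ?_ ?_
  · intro κ hκ
    obtain ⟨n, hn⟩ := hK κ hκ
    exact ⟨n, hn.trans (le_max_right _ _)⟩
  · intro n
    obtain ⟨κ, hκ, hn⟩ := hγK n
    exact ⟨κ, hκ, hn.trans (le_max_left _ _)⟩

end Dat

end Pool.Agent.QIS
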