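import Pool.Agent.H67.Q.Defs

/-!
# The tree of a nested set of half-spaces (abstract form)

`E` is a partially ordered set with an order reversing involution `c` (complement), all pairs of
elements are nested and intervals are finite. The tree has as vertices the classes of `E` under
`ob c`, and the edge of `C` joins the class of `C` and the class of `c C`.
-/

set_option autoImplicit false

namespace Pool.Agent.QIS.Q4

/-- nested half-spaces with finite intervals -/
structure NP {E : Type} [PartialOrder E] (c : E → E) : Prop where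
  cc : ∀ x : E, c (c x) = x
  anti : ∀ {x y : E}, x ≤ y → c y ≤ c x
  irr : ∀ {x y : E}, x ≤ y → x ≤ c y → False
  nest : ∀ x y : E, x ≤ y ∨ x ≤ c y ∨ c x ≤ y ∨ c x ≤ c y
  fin : ∀ x y : E, {z : E | x ≤ z ∧ z ≤ y}.Finite

variable {E : Type} [PartialOrder E] {c : E → E}

/-- the orientation of `C` -/
def ob (c : E → E) (C : E) : Set E := {D | C ≤ D ∨ c C < D}

/-- vertices of the tree -/
def W (c : E → E) : Type := Quotient (Setoid.ker (ob c))

/-- the vertex of `C` -/
def vt (c : E → E) (C : E) : W c := Quotient.mk (Setoid.ker (ob c)) C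

lemma vt_eq {C D : E} : vt c C = vt c D ↔ ob c C = ob c D :=
  ⟨fun hh => Quotient.exact hh, fun hh => Quotient.sound hh⟩

lemma exists_vt (x : W c) : ∃ C, x = vt c C := by
  obtain ⟨C, hC⟩ := Quotient.exists_rep x
  exact ⟨C, hC.symm⟩

namespace NP

variable (h : NP c)
include h

lemma inj {x y : E} (hxy : c x = c y) : x = y := by rw [← h.cc x, hxy, h.cc]

lemma anti_iff {x y : E} : c y ≤ c x ↔ x ≤ y :=
  ⟨fun hh => by simpa [h.cc] using h.anti hh, h.anti⟩

lemma anti_lt {x y : E} : c y < c x ↔ x < y := by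
  rw [lt_iff_le_and_ne, lt_iff_le_and_ne, h.anti_iff]
  refine and_congr_right fun _ => not_congr ?_
  exact ⟨fun hh => (h.inj hh).symm, fun hh => by rw [hh]⟩

lemma le_c {x y : E} : x ≤ c y ↔ y ≤ c x := by
  rw [← h.anti_iff, h.cc]

lemma c_le {x y : E} : c x ≤ y ↔ c y ≤ x := by
  rw [← h.anti_iff, h.cc]

lemma c_lt {x y : E} : c x < y ↔ c y < x := by
  rw [← h.anti_lt, h.cc]

lemma self_mem (C : E) : C ∈ ob c C := by
  have := h
  exact Or.inl le_rfl

lemma not_mem_c (C : E) : C ∉ ob c (c C) := by
  rintro (hh | hh)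
  · exact h.irr hh le_rfl
  · rw [h.cc] at hh
    exact lt_irrefl _ hh

lemma vt_ne (C : E) : vt c C ≠ vt c (c C) := by
  intro hh
  rw [vt_eq] at hh
  apply h.not_mem_c C
  rw [← hh]
  exact h.self_mem C

/-- the two ends of an edge determine the half-space -/
lemma edge_inj {C D : E} (h1 : vt c C = vt c D) (h2 : vt c (c C) = vt c (c D)) : C = D := by
  rw [vt_eq] at h1 h2
  have h3 : D ∈ ob c C := by rw [h1]; exact h.self_mem D
  have h4 : D ∉ ob c (c C) := by rw [h2]; exact h.not_mem_c D
  rcases h3 with h3 | h3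
  · by_contra hne
    exact h4 (Or.inr (by rw [h.cc]; exact lt_of_le_of_ne h3 hne))
  · exact absurd (Or.inl h3.le) h4

/-- the half-space `C` is crossed only by its own edge -/
lemma mem_iff {C D : E} (h1 : D ≠ C) (h2 : D ≠ c C) : C ∈ ob c D ↔ C ∈ ob c (c D) := by
  have e1 : C ≠ c D := fun hh => h2 (by rw [hh, h.cc])
  simp only [ob, Set.mem_ofPred_eq, h.cc]
  constructor
  · rintro (hh | hh)
    · exact Or.inr (lt_of_le_of_ne hh h1)
    · exact Or.inl hh.le
  · rintro (hh | hh)
    · exact Or.inr (lt_of_le_of_ne hh e1.symm)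
    · exact Or.inl hh.le

/-- covering pairs are adjacent edges -/
lemma cover {x z : E} (hxz : x < z) (hcov : ∀ y, x < y → y ≤ z → y = z) :
    ob c (c x) = ob c z := by
  ext D
  simp only [ob, Set.mem_ofPred_eq, h.cc]
  constructor
  · rintro (hh | hh)
    · exact Or.inr (lt_of_lt_of_le (h.anti_lt.mpr hxz) hh)
    · rcases h.nest z D with h1 | h1 | h1 | h1
      · exact Or.inl h1
      · exact absurd (hxz.le.trans h1) (fun h2 => h.irr hh.le h2)
      · rcases h1.lt_or_eq with h2 | h2
        · exact Or.inr h2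
        · exfalso
          refine h.irr hxz.le ?_
          rw [h2]
          exact hh.le
      · rw [h.anti_iff] at h1
        rw [hcov D hh h1]
        exact Or.inl le_rfl
  · rintro (hh | hh)
    · exact Or.inr (lt_of_lt_of_le hxz hh)
    · rcases h.nest x D with h1 | h1 | h1 | h1
      · rcases h1.lt_or_eq with h2 | h2
        · exact Or.inr h2
        · exfalso
          rw [← h2] at hh
          exact h.irr (hh.le.trans hxz.le) le_rfl
      · have h3 : c D < z := h.c_lt.mp hh
        rcases h1.lt_or_eq with h2 | h2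
        · have := hcov _ h2 h3.le
          rw [this] at h3
          exact absurd h3 (lt_irrefl _)
        · rw [h2, h.cc]
          exact Or.inl le_rfl
      · exact Or.inl h1
      · rw [h.anti_iff] at h1
        exfalso
        exact h.irr ((hh.le.trans h1).trans hxz.le) le_rfl

/-- the tree -/
def tree : SimpleGraph (W c) where
  Adj x y := ∃ C, x = vt c C ∧ y = vt c (c C)
  symm := ⟨by
    rintro x y ⟨C, rfl, rfl⟩
    exact ⟨c C, rfl, by rw [h.cc]⟩⟩
  loopless := ⟨by
    rintro x ⟨C, h1, h2⟩
    exact h.vt_ne C (h1.symm.trans h2)⟩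

lemma adj_vt (C : E) : h.tree.Adj (vt c C) (vt c (c C)) := ⟨C, rfl, rfl⟩

lemma reach_le : ∀ (n : ℕ) (x y : E), {z | x ≤ z ∧ z ≤ y}.ncard ≤ n → x ≤ y →
    h.tree.Reachable (vt c x) (vt c y) := by
  intro n
  induction n with
  | zero =>
    intro x y hn hxy
    exfalso
    have h1 : 0 < {z | x ≤ z ∧ z ≤ y}.ncard := by
      rw [Set.ncard_pos (h.fin x y)]
      exact ⟨x, le_rfl, hxy⟩
    omega
  | succ n ih =>
    intro x y hn hxy
    rcases hxy.eq_or_lt with rfl | hlt
    · exact SimpleGraph.Reachable.refl _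
    · have hfin : {z | x < z ∧ z ≤ y}.Finite :=
        (h.fin x y).subset fun z hz => ⟨hz.1.le, hz.2⟩
      obtain ⟨z, hz⟩ := hfin.exists_minimal ⟨y, hlt, le_rfl⟩
      obtain ⟨⟨hxz, hzy⟩, hmin⟩ := hz
      have hcov : ∀ w, x < w → w ≤ z → w = z := fun w h1 h2 =>
        le_antisymm h2 (hmin ⟨h1, h2.trans hzy⟩ h2)
      have h1 := h.cover hxz hcov
      have h2 : h.tree.Reachable (vt c x) (vt c z) := by
        rw [← vt_eq] at h1
        rw [← h1]
        exact (h.adj_vt x).reachable
      refine h2.trans (ih z y ?_ hzy)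
      have h3 : {w | z ≤ w ∧ w ≤ y}.ncard < {w | x ≤ w ∧ w ≤ y}.ncard := by
        apply Set.ncard_lt_ncard _ (h.fin x y)
        rw [Set.ssubset_iff_of_subset]
        · exact ⟨x, ⟨le_rfl, hxy⟩, fun hh => absurd (hxz.trans_le hh.1) (lt_irrefl _)⟩
        · intro w hw
          exact ⟨hxz.le.trans hw.1, hw.2⟩
      omega

lemma reach (x y : E) : h.tree.Reachable (vt c x) (vt c y) := by
  have hx := (h.adj_vt x).reachable
  have hy := (h.adj_vt y).reachable
  rcases h.nest x y with h1 | h1 | h1 | h1
  · exact h.reach_le _ x y le_rfl h1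
  · exact (h.reach_le _ x _ le_rfl h1).trans hy.symm
  · exact hx.trans (h.reach_le _ _ y le_rfl h1)
  · exact (hx.trans (h.reach_le _ _ _ le_rfl h1)).trans hy.symm

end NP

/-- A function which is constant along the edges of a graph. -/
lemma const_of_reach {V : Type} {G : SimpleGraph V} {f : V → Prop}
    (hf : ∀ x y, G.Adj x y → (f x ↔ f y)) {x y : V} (h : G.Reachable x y) : f x ↔ f y := by
  obtain ⟨p⟩ := h
  induction p with
  | nil => rfl
  | cons hadj _ ih => exact (hf _ _ hadj).trans ih

namespace NP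

variable (h : NP c)
include h

lemma tree_isTree [Nonempty E] : h.tree.IsTree := by
  have hne : Nonempty (W c) := ⟨vt c (Classical.arbitrary E)⟩
  refine ⟨⟨?_⟩, ?_⟩
  · intro x y
    obtain ⟨C, rfl⟩ := exists_vt x
    obtain ⟨D, rfl⟩ := exists_vt y
    exact h.reach C D
  · rw [SimpleGraph.isAcyclic_iff_forall_adj_isBridge]
    rintro v w ⟨C, rfl, rfl⟩
    rw [SimpleGraph.isBridge_iff]
    intro hr
    let f : W c → Prop := fun x => Quotient.liftOn x (fun D => C ∈ ob c D) (by
      intro a b hab
      have : ob c a = ob c b := hab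
      simp only [this])
    have hf : ∀ D, f (vt c D) ↔ C ∈ ob c D := fun D => Iff.rfl
    have key := const_of_reach (f := f) ?_ hr
    · rw [hf, hf] at key
      exact h.not_mem_c C (key.mp (h.self_mem C))
    · rintro x y hxy
      rw [SimpleGraph.deleteEdges_adj] at hxy
      obtain ⟨⟨D, rfl, rfl⟩, hne⟩ := hxy
      rw [hf, hf]
      apply h.mem_iff
      · rintro rfl
        exact hne rfl
      · rintro rfl
        apply hne
        rw [h.cc, Sym2.eq_swap]
        rfl

end NP

end Pool.Agent.QIS.Q4
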