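import Pool.Agent.H67.Q.StructA

/-!
# The splitting given by an action on nested half-spaces (abstract form)
-/

set_option autoImplicit false

namespace Pool.Agent.QIS.Q4

variable {E : Type} [PartialOrder E] {c : E → E}

/-- an action by automorphisms -/
structure Act (H : Type) [Group H] {E : Type} [PartialOrder E] [MulAction H E] (c : E → E) :
    Prop where
  le : ∀ (g : H) {x y : E}, x ≤ y → g • x ≤ g • y
  c : ∀ (g : H) (x : E), g • c x = c (g • x)

variable {H : Type} [Group H] [MulAction H E]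

namespace Act

variable (k : Act H c)
include k

lemma le_iff (g : H) {x y : E} : g • x ≤ g • y ↔ x ≤ y := by
  constructor
  · intro hh
    have := k.le g⁻¹ hh
    rwa [inv_smul_smul, inv_smul_smul] at this
  · exact k.le g

lemma lt_iff (g : H) {x y : E} : g • x < g • y ↔ x < y := by
  rw [lt_iff_le_and_ne, lt_iff_le_and_ne, k.le_iff]
  refine and_congr_right fun _ => not_congr ?_
  exact (MulAction.injective g).eq_iff

lemma mem_ob (g : H) (C D : E) : D ∈ ob c (g • C) ↔ g⁻¹ • D ∈ ob c C := by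
  simp only [ob, Set.mem_ofPred_eq]
  rw [← k.le_iff g (x := C), ← k.lt_iff g (x := c C), smul_inv_smul, k.c]

lemma ob_congr (g : H) {C D : E} (h : ob c C = ob c D) : ob c (g • C) = ob c (g • D) := by
  ext x
  rw [k.mem_ob, k.mem_ob, h]

/-- the action on the vertices -/
@[reducible] def actW : MulAction H (W c) where
  smul g x := Quotient.map (fun C => g • C) (fun _ _ hab => k.ob_congr g hab) x
  one_smul x := by
    obtain ⟨C, rfl⟩ := exists_vt x
    change vt c ((1 : H) • C) = vt c C
    rw [one_smul]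
  mul_smul g g' x := by
    obtain ⟨C, rfl⟩ := exists_vt x
    change vt c ((g * g') • C) = vt c (g • g' • C)
    rw [mul_smul]

end Act

/-- midpoints of edges -/
def Md (h : NP c) : Setoid E where
  r x y := y = x ∨ y = c x
  iseqv := by
    refine ⟨fun x => Or.inl rfl, ?_, ?_⟩
    · rintro x y (rfl | rfl)
      · exact Or.inl rfl
      · exact Or.inr (h.cc x).symm
    · rintro x y z (rfl | rfl) (rfl | rfl)
      · exact Or.inl rfl
      · exact Or.inr rfl
      · exact Or.inr rfl
      · exact Or.inl (h.cc x)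

/-- the vertices of the subdivided tree -/
def W2 (h : NP c) : Type := W c ⊕ Quotient (Md h)

/-- a vertex of the tree -/
def Lf (h : NP c) (x : W c) : W2 h := Sum.inl x

/-- a midpoint -/
def Rt (h : NP c) (x : Quotient (Md h)) : W2 h := Sum.inr x

lemma Lf_inj (h : NP c) {x y : W c} (hh : Lf h x = Lf h y) : x = y := Sum.inl.inj hh

lemma Rt_inj (h : NP c) {x y : Quotient (Md h)} (hh : Rt h x = Rt h y) : x = y := Sum.inr.inj hh

lemma Lf_ne_Rt (h : NP c) (x : W c) (y : Quotient (Md h)) : Lf h x ≠ Rt h y := by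
  intro hh
  exact absurd (show (Sum.inl x : W c ⊕ Quotient (Md h)) = Sum.inr y from hh) (by simp)

lemma Lf_or_Rt (h : NP c) (x : W2 h) : (∃ y, x = Lf h y) ∨ ∃ y, x = Rt h y := by
  rcases x with x | x
  · exact Or.inl ⟨x, rfl⟩
  · exact Or.inr ⟨x, rfl⟩

/-- the midpoint of the edge of `C` -/
def md (h : NP c) (C : E) : Quotient (Md h) := Quotient.mk (Md h) C

lemma md_eq (h : NP c) {C D : E} : md h C = md h D ↔ D = C ∨ D = c C :=
  ⟨fun hh => Quotient.exact hh, fun hh => Quotient.sound hh⟩

lemma exists_md (h : NP c) (x : Quotient (Md h)) : ∃ C, x = md h C := by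
  obtain ⟨C, hC⟩ := Quotient.exists_rep x
  exact ⟨C, hC.symm⟩

/-- the subdivided tree -/
def tree2 (h : NP c) : SimpleGraph (W2 h) where
  Adj x y := ∃ C, (x = Lf h (vt c C) ∧ y = Rt h (md h C)) ∨
    (y = Lf h (vt c C) ∧ x = Rt h (md h C))
  symm := ⟨by
    rintro x y ⟨C, hC⟩
    exact ⟨C, hC.symm⟩⟩
  loopless := ⟨by
    rintro x ⟨C, ⟨h1, h2⟩ | ⟨h1, h2⟩⟩
    · exact Lf_ne_Rt h _ _ (h1.symm.trans h2)
    · exact Lf_ne_Rt h _ _ (h1.symm.trans h2)⟩

lemma adj2 (h : NP c) (C : E) : (tree2 h).Adj (Lf h (vt c C)) (Rt h (md h C)) :=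
  ⟨C, Or.inl ⟨rfl, rfl⟩⟩

lemma reach2 (h : NP c) {x y : W c} (hr : h.tree.Reachable x y) :
    (tree2 h).Reachable (Lf h x) (Lf h y) := by
  obtain ⟨p⟩ := hr
  induction p with
  | nil => exact SimpleGraph.Reachable.refl _
  | @cons u v w hadj _ ih =>
    refine SimpleGraph.Reachable.trans ?_ ih
    obtain ⟨C, rfl, rfl⟩ := hadj
    have h1 := (adj2 h C).reachable
    have h2 := (adj2 h (c C)).reachable
    have h3 : md h (c C) = md h C := by
      rw [md_eq]
      exact Or.inr (h.cc C).symm
    rw [h3] at h2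
    exact h1.trans h2.symm

lemma tree2_isTree (h : NP c) [Nonempty E] : (tree2 h).IsTree := by
  have hne : Nonempty (W2 h) := ⟨Lf h (vt c (Classical.arbitrary E))⟩
  have hconn := h.tree_isTree.connected
  refine ⟨⟨?_⟩, ?_⟩
  · have key : ∀ x : W2 h, ∃ y : W c, (tree2 h).Reachable x (Lf h y) := by
      intro x
      rcases Lf_or_Rt h x with ⟨x, rfl⟩ | ⟨x, rfl⟩
      · exact ⟨x, SimpleGraph.Reachable.refl _⟩
      · obtain ⟨C, rfl⟩ := exists_md h x
        exact ⟨vt c C, (adj2 h C).symm.reachable⟩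
    intro x y
    obtain ⟨x', hx⟩ := key x
    obtain ⟨y', hy⟩ := key y
    exact (hx.trans (reach2 h (hconn.preconnected x' y'))).trans hy.symm
  · have hbridge : ∀ C, ¬ ((tree2 h).deleteEdges
        {s(Lf h (vt c C), Rt h (md h C))}).Reachable (Lf h (vt c C))
        (Rt h (md h C)) := by
      intro C hr
      let f : W2 h → Prop := fun x => match x with
        | Sum.inl x => Quotient.liftOn x (fun D => C ∈ ob c D) (by
            intro a b hab
            have : ob c a = ob c b := hab
            simp only [this])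
        | Sum.inr m => ∃ D, m = md h D ∧ D ≠ C ∧ D ≠ c C ∧ C ∈ ob c D
      have hf : ∀ D, f (Lf h (vt c D)) ↔ C ∈ ob c D := fun D => Iff.rfl
      have hf2 : ∀ D, D ≠ C → D ≠ c C → (f (Rt h (md h D)) ↔ C ∈ ob c D) := by
        intro D h1 h2
        constructor
        · rintro ⟨D', hD, h3, h4, h5⟩
          rw [md_eq] at hD
          rcases hD with rfl | rfl
          · exact h5
          · exact (h.mem_iff h1 h2).mpr h5
        · intro h3
          exact ⟨D, rfl, h1, h2, h3⟩
      have hf3 : ¬ f (Rt h (md h C)) := by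
        rintro ⟨D', hD, h3, h4, h5⟩
        rw [md_eq] at hD
        rcases hD with rfl | rfl
        · exact h3 rfl
        · exact h4 rfl
      have key := const_of_reach (f := f) ?_ hr
      · rw [hf] at key
        exact hf3 (key.mp (h.self_mem C))
      · have key1 : ∀ D, s(Lf h (vt c D), Rt h (md h D)) ≠
            (s(Lf h (vt c C), Rt h (md h C)) : Sym2 (W2 h)) →
            (f (Lf h (vt c D)) ↔ f (Rt h (md h D))) := by
          intro D hne
          have h1 : D ≠ C := by
            rintro rfl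
            exact hne rfl
          by_cases h2 : D = c C
          · subst h2
            have h3 : md h (c C) = md h C := by
              rw [md_eq]
              exact Or.inr (h.cc C).symm
            rw [hf, h3]
            exact iff_of_false (h.not_mem_c C) hf3
          · rw [hf, hf2 D h1 h2]
        intro x y hxy
        rw [SimpleGraph.deleteEdges_adj] at hxy
        obtain ⟨⟨D, ⟨rfl, rfl⟩ | ⟨rfl, rfl⟩⟩, hne⟩ := hxy
        · exact key1 D (fun hh => hne hh)
        · have hsw : s(Rt h (md h D), Lf h (vt c D)) = s(Lf h (vt c D), Rt h (md h D)) :=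
            Sym2.eq_swap
          exact (key1 D (fun hh => hne (hsw.trans hh))).symm
    rw [SimpleGraph.isAcyclic_iff_forall_adj_isBridge]
    rintro v w ⟨C, ⟨rfl, rfl⟩ | ⟨rfl, rfl⟩⟩
    · rw [SimpleGraph.isBridge_iff]
      exact hbridge C
    · rw [SimpleGraph.isBridge_iff]
      intro hr
      apply hbridge C
      rw [Sym2.eq_swap]
      exact hr.symm

namespace Act

variable (k : Act H c)
include k

/-- the action on the vertices of the subdivided tree -/
@[reducible] def actW2 (h : NP c) : MulAction H (W2 h) where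
  smul g x := match x with
    | Sum.inl x => Sum.inl (Quotient.map (fun C => g • C) (fun _ _ hab => k.ob_congr g hab) x)
    | Sum.inr x => Sum.inr (Quotient.map (fun C => g • C) (by
        rintro a b (rfl | rfl)
        · exact Or.inl rfl
        · exact Or.inr (k.c g a)) x)
  one_smul x := by
    rcases x with x | x
    · obtain ⟨C, rfl⟩ := exists_vt x
      change Lf h (vt c ((1 : H) • C)) = Lf h (vt c C)
      rw [one_smul]
    · obtain ⟨C, rfl⟩ := exists_md h x
      change Rt h (md h ((1 : H) • C)) = Rt h (md h C)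
      rw [one_smul]
  mul_smul g g' x := by
    rcases x with x | x
    · obtain ⟨C, rfl⟩ := exists_vt x
      change Lf h (vt c ((g * g') • C)) = Lf h (vt c (g • g' • C))
      rw [mul_smul]
    · obtain ⟨C, rfl⟩ := exists_md h x
      change Rt h (md h ((g * g') • C)) = Rt h (md h (g • g' • C))
      rw [mul_smul]

/-- no vertex of the tree is fixed -/
lemma no_fix (h : NP c) (A : E) (htrans : ∀ C : E, ∃ g : H, C = g • A ∨ C = c (g • A))
    (U1 : ∃ g : H, g • A < A ∨ c (g • A) < A) (U2 : ∃ g : H, g • A < c A ∨ c (g • A) < c A)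
    (x : W c) : ∃ (g : H) (C : E), x = vt c C ∧ vt c (g • C) ≠ vt c C := by
  have key : ∀ B : E, (∃ g : H, g • B < c B ∨ c (g • B) < c B) →
      (∀ g : H, ob c (g • B) = ob c B) → False := by
    rintro B ⟨g, hg⟩ hfix
    rcases hg with hg | hg
    · have h1 : g • B ∈ ob c B := by rw [← hfix g]; exact h.self_mem _
      rcases h1 with h1 | h1
      · exact h.irr le_rfl (h1.trans hg.le)
      · exact absurd (h1.trans hg) (lt_irrefl _)
    · rw [h.anti_lt] at hg
      have hg' : g⁻¹ • B < B := by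
        rw [← k.lt_iff g, smul_inv_smul]
        exact hg
      have h1 : g⁻¹ • B ∈ ob c B := by rw [← hfix g⁻¹]; exact h.self_mem _
      rcases h1 with h1 | h1
      · exact absurd (lt_of_lt_of_le hg' h1) (lt_irrefl _)
      · exact h.irr (h1.trans hg').le le_rfl
  by_contra hcon
  push Not at hcon
  obtain ⟨C, rfl⟩ := exists_vt x
  have hfix : ∀ g : H, ob c (g • C) = ob c C := fun g => vt_eq.mp (hcon g C rfl)
  obtain ⟨t, ht⟩ := htrans C
  have hfixB : ∀ B : E, (t⁻¹ • C = B) → ∀ g : H, ob c (g • B) = ob c B := by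
    rintro B rfl g
    rw [smul_smul, hfix, hfix]
  rcases ht with ht | ht
  · have h1 := hfixB A (by rw [ht, inv_smul_smul])
    exact key A U2 h1
  · have h1 := hfixB (c A) (by rw [ht, ← k.c, inv_smul_smul])
    refine key (c A) ?_ h1
    obtain ⟨g, hg⟩ := U1
    rw [h.cc]
    refine ⟨g, ?_⟩
    rw [k.c, h.cc]
    exact hg.symm

/-- the splitting -/
theorem splitting (h : NP c) (A : E) (htrans : ∀ C : E, ∃ g : H, C = g • A ∨ C = c (g • A))
    (U1 : ∃ g : H, g • A < A ∨ c (g • A) < A) (U2 : ∃ g : H, g • A < c A ∨ c (g • A) < c A) :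
    ∃ S : Splitting H, ∀ g : H, g ∈ S.edgeGroup ↔ g • A = A := by
  have hne : Nonempty E := ⟨A⟩
  by_cases hinv : ∃ g : H, g • A = c A
  · -- subdivided tree
    obtain ⟨t, ht⟩ := hinv
    have htr : ∀ C : E, ∃ g : H, g • A = C := by
      intro C
      obtain ⟨g, hg | hg⟩ := htrans C
      · exact ⟨g, hg.symm⟩
      · refine ⟨g * t, ?_⟩
        rw [mul_smul, ht, k.c, hg]
    let _ := k.actW2 h
    have hl : ∀ (g : H) (C : E), g • (Lf h (vt c C)) = Lf h (vt c (g • C)) :=
      fun _ _ => rfl
    have hr : ∀ (g : H) (C : E), g • (Rt h (md h C)) = Rt h (md h (g • C)) :=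
      fun _ _ => rfl
    refine ⟨⟨W2 h, k.actW2 h, tree2 h, Lf h (vt c A), Rt h (md h A), tree2_isTree h, ?_, ?_,
      ?_, adj2 h A, ?_⟩, ?_⟩
    · rintro g x y ⟨C, ⟨rfl, rfl⟩ | ⟨rfl, rfl⟩⟩
      · exact ⟨g • C, Or.inl ⟨hl g C, hr g C⟩⟩
      · exact ⟨g • C, Or.inr ⟨hl g C, hr g C⟩⟩
    · rintro g x y ⟨C, ⟨rfl, rfl⟩ | ⟨rfl, rfl⟩⟩ ⟨h1, h2⟩
      · rw [hl] at h1
        exact Lf_ne_Rt h _ _ h1
      · rw [hr] at h1
        exact Lf_ne_Rt h _ _ h1.symm
    · intro x
      rcases Lf_or_Rt h x with ⟨x, rfl⟩ | ⟨x, rfl⟩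
      · obtain ⟨g, C, rfl, hg⟩ := k.no_fix h A htrans U1 U2 x
        refine ⟨g, ?_⟩
        rw [hl]
        intro hh
        exact hg (Lf_inj h hh)
      · by_contra hcon
        push Not at hcon
        obtain ⟨C, rfl⟩ := exists_md h x
        obtain ⟨s, rfl⟩ := htr C
        obtain ⟨g, hg⟩ := U1
        have h1 := hcon (s * g * s⁻¹)
        rw [hr] at h1
        have h2 := (md_eq h).mp (Rt_inj h h1)
        rw [mul_smul, inv_smul_smul, mul_smul, ← k.c] at h2
        have h3 : A = g • A ∨ A = g • c A := by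
          rcases h2 with h2 | h2
          · exact Or.inl (MulAction.injective s h2)
          · rw [← k.c] at h2
            exact Or.inr (MulAction.injective s h2)
        rcases h3 with h3 | h3
        · rw [← h3] at hg
          rcases hg with hg | hg
          · exact lt_irrefl _ hg
          · exact h.irr hg.le le_rfl
        · rw [k.c] at h3
          rw [← h3] at hg
          rcases hg with hg | hg
          · have h4 : g • A = c A := h.inj (by rw [← h3, h.cc])
            rw [h4] at hg
            exact h.irr hg.le le_rfl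
          · exact lt_irrefl _ hg
    · rintro x y ⟨C, ⟨rfl, rfl⟩ | ⟨rfl, rfl⟩⟩
      · obtain ⟨g, rfl⟩ := htr C
        exact ⟨g, Or.inl ⟨hl g A, hr g A⟩⟩
      · obtain ⟨g, rfl⟩ := htr C
        exact ⟨g, Or.inr ⟨hl g A, hr g A⟩⟩
    · intro g
      rw [Splitting.edgeGroup, Subgroup.mem_inf, MulAction.mem_stabilizer_iff,
        MulAction.mem_stabilizer_iff]
      change Lf h (vt c (g • A)) = Lf h (vt c A) ∧
        Rt h (md h (g • A)) = Rt h (md h A) ↔ g • A = A
      constructor
      · rintro ⟨h1, h2⟩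
        have h3 := Lf_inj h h1
        have h4 := (md_eq h).mp (Rt_inj h h2)
        rcases h4 with h4 | h4
        · exact h4.symm
        · exact absurd (h3.trans (congrArg (vt c) h4)) (h.vt_ne (g • A))
      · intro h1
        rw [h1]
        exact ⟨rfl, rfl⟩
  · push Not at hinv
    let _ := k.actW
    have hl : ∀ (g : H) (C : E), g • (vt c C) = vt c (g • C) := fun _ _ => rfl
    refine ⟨⟨W c, k.actW, h.tree, vt c A, vt c (c A), h.tree_isTree, ?_, ?_, ?_, h.adj_vt A, ?_⟩,
      ?_⟩
    · rintro g x y ⟨C, rfl, rfl⟩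
      refine ⟨g • C, hl g C, ?_⟩
      rw [hl, k.c]
    · rintro g x y ⟨C, rfl, rfl⟩ ⟨h1, h2⟩
      rw [hl] at h1 h2
      have h3 : g • C = c C := by
        apply h.edge_inj h1
        rw [← k.c, h2, h.cc]
      obtain ⟨t, ht | ht⟩ := htrans C
      · apply hinv (t⁻¹ * g * t)
        rw [mul_smul, mul_smul, ← ht, h3, ht, ← k.c, inv_smul_smul]
      · apply hinv (t⁻¹ * g * t)
        have h4 : g • (t • A) = c (t • A) := by
          apply h.inj
          rw [← k.c, ← ht, h3]
        rw [mul_smul, mul_smul, h4, ← k.c, inv_smul_smul]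
    · intro x
      obtain ⟨g, C, rfl, hg⟩ := k.no_fix h A htrans U1 U2 x
      exact ⟨g, hg⟩
    · rintro x y ⟨C, rfl, rfl⟩
      obtain ⟨t, rfl | rfl⟩ := htrans C
      · refine ⟨t, Or.inl ⟨hl t A, ?_⟩⟩
        rw [hl, k.c]
      · refine ⟨t, Or.inr ⟨?_, ?_⟩⟩
        · rw [hl, h.cc]
        · rw [hl, k.c]
    · intro g
      rw [Splitting.edgeGroup, Subgroup.mem_inf, MulAction.mem_stabilizer_iff,
        MulAction.mem_stabilizer_iff]
      change vt c (g • A) = vt c A ∧ vt c (g • c A) = vt c (c A) ↔ g • A = A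
      constructor
      · rintro ⟨h1, h2⟩
        rw [k.c] at h2
        exact h.edge_inj h1 h2
      · intro h1
        rw [k.c, h1]
        exact ⟨rfl, rfl⟩

end Act

end Pool.Agent.QIS.Q4
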