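import Pool.Agent.H67.Q.Defs

/-!
# QIS-Q1: sides of an edge in a tree
-/

namespace Pool.Agent.QIS

variable {V : Type} {T : SimpleGraph V}

theorem side_self (a b : V) : side T a b a := SimpleGraph.Reachable.refl a

theorem not_side_other (hT : T.IsTree) {a b : V} (h : T.Adj a b) : ¬ side T a b b :=
  SimpleGraph.isBridge_iff.1
    (SimpleGraph.isAcyclic_iff_forall_adj_isBridge.1 hT.isAcyclic h)

theorem side_adj {a b x y : V} (h : T.Adj x y) (hne : s(x, y) ≠ s(a, b)) :
    side T a b x ↔ side T a b y := by
  have h1 : (T.deleteEdges {s(a, b)}).Adj x y :=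
    SimpleGraph.deleteEdges_adj.2 ⟨h, fun h2 => hne h2⟩
  exact ⟨fun h2 => SimpleGraph.Reachable.trans h2 h1.reachable,
    fun h2 => SimpleGraph.Reachable.trans h2 h1.symm.reachable⟩

theorem q1_swap (a b x : V) :
    side T b a x ↔ (T.deleteEdges {s(a, b)}).Reachable b x := by
  unfold side
  rw [Sym2.eq_swap]

theorem side_swap (hT : T.IsTree) {a b : V} (h : T.Adj a b) (x : V) :
    side T b a x ↔ ¬ side T a b x := by
  constructor
  · intro h1 h2
    refine not_side_other hT h ?_
    rw [q1_swap] at h1
    exact SimpleGraph.Reachable.trans h2 h1.symm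
  · intro h1
    have h2 : side T a b x ∨ side T b a x := by
      have h3 := (SimpleGraph.reachable_iff_reflTransGen a x).1
        (hT.connected.preconnected a x)
      induction h3 with
      | refl => exact Or.inl (side_self a b)
      | tail _ hyz ih =>
        rename_i y z _
        by_cases he : s(y, z) = s(a, b)
        · rcases Sym2.eq_iff.1 he with ⟨_, h5⟩ | ⟨_, h5⟩
          · rw [h5]
            exact Or.inr (side_self b a)
          · rw [h5]
            exact Or.inl (side_self a b)
        · have he' : s(y, z) ≠ s(b, a) := by rwa [Sym2.eq_swap (a := b)]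
          by_cases h6 : side T a b y ∨ side T b a y
          · rcases h6 with h6 | h6
            · exact Or.inl ((side_adj hyz he).1 h6)
            · exact Or.inr ((side_adj hyz he').1 h6)
          · exact absurd (ih fun h7 => h6 (Or.inl h7)) h6
    exact h2.resolve_left h1

theorem q1_map {H : Type} [Group H] [MulAction H V]
    (hact : ∀ (g : H) {x y : V}, T.Adj x y → T.Adj (g • x) (g • y)) (g : H) (a b x : V)
    (h : side T a b x) : side T (g • a) (g • b) (g • x) := by
  unfold side at h ⊢
  rw [SimpleGraph.reachable_iff_reflTransGen] at h ⊢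
  induction h with
  | refl => exact Relation.ReflTransGen.refl
  | tail _ huv ih =>
    refine ih.tail ?_
    rw [SimpleGraph.deleteEdges_adj] at huv ⊢
    refine ⟨hact g huv.1, fun h1 => huv.2 ?_⟩
    exact Sym2.map.injective (MulAction.injective g) h1

theorem side_map {H : Type} [Group H] [MulAction H V]
    (hact : ∀ (g : H) {x y : V}, T.Adj x y → T.Adj (g • x) (g • y)) (g : H) (a b x : V) :
    side T (g • a) (g • b) (g • x) ↔ side T a b x := by
  refine ⟨fun h => ?_, q1_map hact g a b x⟩
  have h1 := q1_map hact g⁻¹ _ _ _ h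
  simpa only [inv_smul_smul] using h1

theorem q1_walk {a b : V} {x y : V} (w : T.Walk x y) (h : s(a, b) ∉ w.edges) :
    side T a b x ↔ side T a b y := by
  induction w with
  | nil => exact Iff.rfl
  | cons hadj p ih =>
    rw [SimpleGraph.Walk.edges_cons, List.mem_cons, not_or] at h
    exact (side_adj hadj (Ne.symm h.1)).trans (ih h.2)

/-- only finitely many oriented edges separate two given vertices -/
theorem side_finite (hT : T.IsTree) (x y : V) :
    {p : V × V | T.Adj p.1 p.2 ∧ side T p.1 p.2 x ∧ ¬ side T p.1 p.2 y}.Finite := by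
  obtain ⟨w⟩ := hT.connected.preconnected x y
  refine ((List.finite_toSet w.support).prod (List.finite_toSet w.support)).subset ?_
  rintro ⟨u, v⟩ ⟨_, h2, h3⟩
  have h4 : s(u, v) ∈ w.edges := by
    by_contra h5
    exact h3 ((q1_walk w h5).1 h2)
  exact ⟨w.fst_mem_support_of_mem_edges h4, w.snd_mem_support_of_mem_edges h4⟩

/-- the first edge on the way from x to y -/
theorem exists_first (hT : T.IsTree) {x y : V} (hne : x ≠ y) :
    ∃ z, T.Adj x z ∧ ¬ side T x z y := by
  obtain ⟨p, hp⟩ := (hT.existsUnique_path x y).exists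
  cases p with
  | nil => exact absurd rfl hne
  | cons hadj q =>
    rename_i z
    refine ⟨z, hadj, ?_⟩
    rw [← side_swap hT hadj]
    rw [SimpleGraph.Walk.cons_isPath_iff] at hp
    refine (q1_walk q fun h => hp.2 ?_).1 (side_self z x)
    exact q.snd_mem_support_of_mem_edges h

/-- if `{a, b}` separates `w` from its end `b` and `{w, z}` is another edge which separates `w`
from `b`, then `a` is beyond `{w, z}` and everything beyond `{a, b}` is beyond `{w, z}` -/
theorem side_beyond (hT : T.IsTree) {w z a b : V} (hwz : T.Adj w z) (hab : T.Adj a b)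
    (hw : side T a b w) (hb : ¬ side T w z b) (hne : s(w, z) ≠ s(a, b)) :
    ¬ side T w z a ∧ ∀ x, ¬ side T a b x → ¬ side T w z x := by
  have ha : ¬ side T w z a := fun h => hb ((side_adj hab hne.symm).1 h)
  refine ⟨ha, fun x hx hwx => hx ?_⟩
  have h1 := (SimpleGraph.reachable_iff_reflTransGen w x).1 hwx
  clear hx hwx
  induction h1 with
  | refl => exact hw
  | tail hr hyz ih =>
    rename_i y y'
    have hy : side T w z y := (SimpleGraph.reachable_iff_reflTransGen w y).2 hr
    rw [SimpleGraph.deleteEdges_adj] at hyz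
    by_cases he : s(y, y') = s(a, b)
    · rcases Sym2.eq_iff.1 he with ⟨h5, _⟩ | ⟨h5, _⟩
      · exact absurd (h5 ▸ hy) ha
      · exact absurd (h5 ▸ hy) hb
    · exact (side_adj hyz.1 he).1 ih

end Pool.Agent.QIS
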